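import Pool.Agent.TH212.CuspQuant

set_option autoImplicit false

open Polynomial
open scoped TensorProduct

namespace Pool.Agent.TH212

/-! ### `2 ħ ^ 3` is a sum of two commutators in the completed Rees algebra -/

theorem mem_S {i : ℤ} : i ∈ S ↔ 0 ≤ i ∧ i ≠ 1 := Iff.rfl

noncomputable def p1 : ℂ[X] := X - C 1
noncomputable def q1 : ℂ[X] := C (-4) * ((X + C 1) * (X - C 1))
noncomputable def q2 : ℂ[X] := (X + C 2) * ((X - C 1) * (C 2 * X + C 1))

theorem D1 : InD (sg 1 p1) := by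
  apply InD_sg
  intro i h1 h2
  rw [mem_S] at h1 h2
  have : i = 1 := by omega
  subst this
  simp [p1]

theorem D2 : InD (sg (-1) q1) := by
  apply InD_sg
  intro i h1 h2
  rw [mem_S] at h1 h2
  have : i = 1 ∨ i = -1 := by omega
  rcases this with rfl | rfl <;> simp [q1]

theorem D3 : InD (sg 2 1) := by
  apply InD_sg
  intro i h1 h2
  rw [mem_S] at h1 h2
  omega

theorem D4 : InD (sg (-2) q2) := by
  apply InD_sg
  intro i h1 h2
  rw [mem_S] at h1 h2
  have : i = 1 ∨ i = -2 := by omega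
  rcases this with rfl | rfl <;> simp [q2]

theorem G1 : InG (1 + 1) (sg 1 p1) := by
  apply InG_sg
  unfold p1
  rw [natDegree_X_sub_C]
  norm_num

theorem G2 : InG (2 + 1) (sg (-1) q1) := by
  apply InG_sg
  unfold q1
  have h : (C (-4 : ℂ) * ((X + C 1) * (X - C 1))).natDegree ≤ 2 := by compute_degree
  omega

theorem G3 : InG (0 + 1) (sg 2 1) := by
  apply InG_sg
  simp

theorem G4 : InG (3 + 1) (sg (-2) q2) := by
  apply InG_sg
  unfold q2
  have h : ((X + C (2 : ℂ)) * ((X - C 1) * (C 2 * X + C 1))).natDegree ≤ 3 := by compute_degree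
  omega

/-- the four elements -/
noncomputable def x1 : AA := el 1 _ D1 G1
noncomputable def y1 : AA := el 2 _ D2 G2
noncomputable def x2 : AA := el 0 _ D3 G3
noncomputable def y2 : AA := el 3 _ D4 G4

theorem E_identity : sg 1 p1 * sg (-1) q1 - sg (-1) q1 * sg 1 p1 +
    (sg 2 1 * sg (-2) q2 - sg (-2) q2 * sg 2 1) = sg 0 (C 2) := by
  rw [sg_mul, sg_mul, sg_mul, sg_mul]
  have e1 : (1 : ℤ) + -1 = 0 := by norm_num
  have e2 : (-1 : ℤ) + 1 = 0 := by norm_num
  have e3 : (2 : ℤ) + -2 = 0 := by norm_num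
  have e4 : (-2 : ℤ) + 2 = 0 := by norm_num
  rw [e1, e2, e3, e4, ← sg_sub, ← sg_sub, ← sg_add]
  congr 1
  simp only [p1, q1, q2, mul_comp, add_comp, sub_comp, X_comp, C_comp, one_comp]
  simp only [Int.cast_one, Int.cast_neg, Int.cast_ofNat, map_neg, map_one, map_ofNat]
  ring

theorem A_identity : x1 * y1 - y1 * x1 + (x2 * y2 - y2 * x2) =
    (PowerSeries.C (2 : ℂ) * PowerSeries.X ^ 3) • (1 : AA) := by
  apply Subtype.ext
  change PowerSeries.monomial 1 (sg 1 p1) * PowerSeries.monomial 2 (sg (-1) q1) -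
    PowerSeries.monomial 2 (sg (-1) q1) * PowerSeries.monomial 1 (sg 1 p1) +
    (PowerSeries.monomial 0 (sg 2 1) * PowerSeries.monomial 3 (sg (-2) q2) -
      PowerSeries.monomial 3 (sg (-2) q2) * PowerSeries.monomial 0 (sg 2 1)) =
    cP (PowerSeries.C (2 : ℂ) * PowerSeries.X ^ 3) * 1
  rw [PowerSeries.monomial_mul_monomial, PowerSeries.monomial_mul_monomial,
    PowerSeries.monomial_mul_monomial, PowerSeries.monomial_mul_monomial, mul_one, map_mul cP,
    map_pow cP, cP_X]
  have e : cP (PowerSeries.C (2 : ℂ)) = PowerSeries.C (sg 0 (C 2)) := by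
    simp only [cP, PowerSeries.map_C]
    rfl
  rw [e]
  have e2 : PowerSeries.C (sg 0 (C (2 : ℂ))) * (PowerSeries.X : PowerSeries E) ^ 3 =
      PowerSeries.monomial 3 (sg 0 (C 2)) := by
    rw [PowerSeries.X_pow_eq, ← PowerSeries.monomial_zero_eq_C_apply,
      PowerSeries.monomial_mul_monomial, zero_add, mul_one]
  rw [e2, ← E_identity, map_add, map_sub, map_sub]

/-- `ħ ^ n` is a sum of commutators in the localization. -/
theorem one_mem_commutators (n : ℤ) :
    (HahnSeries.single n (1 : ℂ) : LaurentSeries ℂ) ⊗ₜ[PowerSeries ℂ] (1 : AA) ∈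
      commutators AA := by
  set u : LaurentSeries ℂ := HahnSeries.single (n - 3) (1 / 2 : ℂ) with hu
  have h1 : (HahnSeries.single n (1 : ℂ) : LaurentSeries ℂ) ⊗ₜ[PowerSeries ℂ] (1 : AA) =
      u ⊗ₜ[PowerSeries ℂ] (x1 * y1 - y1 * x1 + (x2 * y2 - y2 * x2)) := by
    rw [A_identity, TensorProduct.tmul_smul, TensorProduct.smul_tmul']
    congr 1
    rw [Algebra.smul_def, LaurentSeries.coe_algebraMap]
    rw [map_mul, map_pow]
    rw [HahnSeries.ofPowerSeries_C, HahnSeries.ofPowerSeries_X, HahnSeries.single_pow]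
    rw [hu, HahnSeries.C_apply, HahnSeries.single_mul_single, HahnSeries.single_mul_single]
    congr 1
    · simp
    · norm_num
  have h2 : ∀ x y : AA, u ⊗ₜ[PowerSeries ℂ] (x * y - y * x) ∈ commutators AA := by
    intro x y
    apply AddSubgroup.subset_closure
    refine ⟨u ⊗ₜ x, 1 ⊗ₜ y, ?_⟩
    rw [Algebra.TensorProduct.tmul_mul_tmul, Algebra.TensorProduct.tmul_mul_tmul, mul_one,
      one_mul, TensorProduct.tmul_sub]
  rw [h1, TensorProduct.tmul_add]
  exact AddSubgroup.add_mem _ (h2 _ _) (h2 _ _)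

theorem cls_one (n : ℤ) : cls AA n 1 = 0 := by
  unfold cls
  rw [QuotientAddGroup.eq_zero_iff]
  exact one_mem_commutators n

theorem kernel_one (n : ℤ) : (Submodule.Quotient.mk (1 : OX) : PO.HP0) ∈ kernel PO piO n := by
  refine ⟨1, by rw [map_one], 0, ?_⟩
  rw [cls_one]
  unfold cls
  rw [TensorProduct.tmul_zero]
  rfl

theorem mk_one_ne : (Submodule.Quotient.mk (1 : OX) : PO.HP0) ≠ 0 := by
  intro h
  rw [Submodule.Quotient.mk_eq_zero] at h
  exact one_notMem h

end Pool.Agent.TH212
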