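import Pool.Agent.TH212.CFStep

set_option autoImplicit false

namespace Pool.Agent.TH212.CFSum

open Filter Set

/-- state: one of the two numbers is to be extended next -/
def Good (x R : ℝ) (p : Num × Num) : Prop := Inv x R p.1 p.2 ∨ Inv x R p.2 p.1

lemma dstep' {x : ℝ} (hx : Irrational x) {R : ℝ} (hR : 9 ≤ R) {N M : Num} (h : Inv x R N M) :
    ∃ N' M', Ext (R / 3 - 1) N N' ∧ Ext (R / 3 - 1) M M' ∧
      (Inv x (R + 1) N' M' ∨ Inv x (R + 1) M' N') := by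
  rcases step hx hR h with ⟨N', M', h1, h2, h3⟩ | ⟨N', h1, h2⟩
  · exact ⟨N', M', h1, h2, Or.inl h3⟩
  · rcases step hx (R := R + 1) (by linarith) h2 with ⟨M', N'', h3, h4, h5⟩ | ⟨M', h3, h4⟩
    · exact ⟨N'', M', h1.trans (h4.mono (by linarith)), h3.mono (by linarith),
        Or.inr (h5.mono (by linarith))⟩
    · exact ⟨N', M', h1, h3.mono (by linarith), Or.inl (h4.mono (by linarith))⟩

lemma dstep {x : ℝ} (hx : Irrational x) {R : ℝ} (hR : 9 ≤ R) {p : Num × Num} (h : Good x R p) :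
    ∃ p' : Num × Num, Ext (R / 3 - 1) p.1 p'.1 ∧ Ext (R / 3 - 1) p.2 p'.2 ∧ Good x (R + 1) p' := by
  rcases h with h | h
  · obtain ⟨N', M', h1, h2, h3⟩ := dstep' hx hR h
    exact ⟨(N', M'), h1, h2, h3⟩
  · obtain ⟨N', M', h1, h2, h3⟩ := dstep' hx hR h
    exact ⟨(M', N'), h2, h1, h3.symm⟩

/-- the fresh number -/
def fresh : Num := ⟨[], 0, 1, 1, 0, Rep.nil⟩

/-- one overshoot by a number -/
lemma over_num {x : ℝ} (hx : Irrational x) {N : Num}
    (h0 : 0 < (N.e : ℝ) * (x - N.c))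
    (h1 : (N.e : ℝ) * (x - N.c) * ((N.q : ℝ) * (N.q + N.q')) < 1) :
    ∃ N' : Num, N'.e = -N.e ∧ N.q + N.q' ≤ N'.q ∧ N'.q' = N.q ∧ 0 < (N'.e : ℝ) * (x - N'.c) ∧
      (N'.e : ℝ) * (x - N'.c) * ((N'.q : ℝ) * (N'.q + N'.q')) < 1 := by
  obtain ⟨he, hu1, hu', _⟩ := N.rep.facts
  have hee : (N.e : ℝ) * N.e = 1 := by rcases he with h | h <;> simp [h]
  have hirr : Irrational ((N.e : ℝ) * (x - N.c)) := irr_aux hx he N.c
  obtain ⟨t, ht⟩ : ∃ t : ℝ, t = (N.e : ℝ) * (x - N.c) := ⟨_, rfl⟩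
  rw [← ht] at h0 h1 hirr
  have hu1' : (1 : ℝ) ≤ N.q := by exact_mod_cast hu1
  have hu'0 : (0 : ℝ) ≤ N.q' := Nat.cast_nonneg _
  have hcond : (N.q' : ℝ) * (N.q * t) ≤ 1 := by
    have : (N.q' : ℝ) * (N.q * t) ≤ t * ((N.q : ℝ) * (N.q + N.q')) := by
      have : 0 ≤ t * ((N.q : ℝ) * N.q) := by positivity
      nlinarith
    linarith
  obtain ⟨b, hb1, hb2⟩ := overshoot hu1 h0 hirr hcond
  have hb : 1 ≤ b := by
    rcases Nat.eq_zero_or_pos b with h | h
    · exfalso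
      rw [h] at hb2
      have : (((0 : ℕ) : ℝ) * N.q + N.q' + N.q) * (N.q * t) = t * ((N.q : ℝ) * (N.q + N.q')) := by
        push_cast; ring
      linarith
    · exact h
  have hW0 : (0 : ℝ) < (b : ℝ) * N.q + N.q' := by
    have : (1 : ℝ) ≤ b := by exact_mod_cast hb
    positivity
  refine ⟨N.snoc b hb, rfl, ?_, rfl, ?_⟩
  · show N.q + N.q' ≤ b * N.q + N.q'
    have := Nat.le_mul_of_pos_left N.q hb
    omega
  · have e1 : (((N.snoc b hb).e : ℤ) : ℝ) * (x - ((N.snoc b hb).c : ℚ))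
        = 1 / (N.q * ((b : ℝ) * N.q + N.q')) - t := by
      show ((-N.e : ℤ) : ℝ) * (x - ((N.c + N.e / ((N.q : ℚ) * ((b : ℚ) * N.q + N.q')) : ℚ) : ℝ)) = _
      push_cast
      have e3 : (-(N.e : ℝ)) * (x - (N.c + N.e / (N.q * ((b : ℝ) * N.q + N.q'))))
        = - ((N.e : ℝ) * (x - N.c)) + (N.e : ℝ) * N.e * (1 / (N.q * ((b : ℝ) * N.q + N.q'))) := by ring
      rw [e3, hee, ht]; ring
    have hq0 : (0 : ℝ) < N.q := by linarith
    obtain ⟨hr1, hr2⟩ := over_res hq0 hW0 hb1 hb2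
    rw [e1]
    refine ⟨hr1, ?_⟩
    show (1 / (N.q * ((b : ℝ) * N.q + N.q')) - t) *
      (((b * N.q + N.q' : ℕ) : ℝ) * (((b * N.q + N.q' : ℕ) : ℝ) + (N.q : ℝ))) < 1
    push_cast
    set W : ℝ := (b : ℝ) * N.q + N.q' with hW
    have hs2 : 1 / (N.q * (W + N.q)) < t := by
      rw [div_lt_iff₀ (by positivity)]; linarith
    have h4 : 1 / (N.q * W) - 1 / (N.q * (W + N.q)) = 1 / (W * (W + N.q)) := by
      field_simp; ring
    have h3 : 1 / (N.q * W) - t < 1 / (W * (W + N.q)) := by linarith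
    rwa [lt_div_iff₀ (by positivity)] at h3

lemma initial {x : ℝ} (hx : Irrational x) (h0 : 0 < x) (h1 : x < 1) (k : ℕ) :
    ∃ N : Num, N.e = 1 ∧ k ≤ N.q ∧ 0 < x - N.c ∧ (x - N.c) * ((N.q : ℝ) * (N.q + N.q')) < 1 := by
  induction k with
  | zero =>
    refine ⟨fresh, rfl, Nat.zero_le _, ?_, ?_⟩
    · simp [fresh, h0]
    · simp [fresh, h1]
  | succ k ih =>
    obtain ⟨N, hN1, hN2, hN3, hN4⟩ := ih
    obtain ⟨_, hu1, _, _⟩ := N.rep.facts
    obtain ⟨N', a1, a2, a3, a4, a5⟩ := over_num hx (N := N) (by rw [hN1]; simpa using hN3)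
      (by rw [hN1]; simpa using hN4)
    obtain ⟨N'', b1, b2, b3, b4, b5⟩ := over_num hx a4 a5
    have he : N''.e = 1 := by rw [b1, a1, hN1]; rfl
    refine ⟨N'', he, by omega, ?_, ?_⟩
    · rw [he] at b4; simpa using b4
    · rw [he] at b5; simpa using b5

lemma initial_good {x : ℝ} (hx : Irrational x) (h0 : 0 < x) (h1 : x < 1) :
    ∃ p : Num × Num, Good x 9 p := by
  obtain ⟨N, hN1, hN2, hN3, hN4⟩ := initial hx h0 h1 9
  refine ⟨(fresh, N), Or.inl ⟨?_, ?_, ?_, ?_⟩⟩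
  · show (1 : ℤ) = N.e
    rw [hN1]
  · show 0 < ((1 : ℤ) : ℝ) * (x - ((0 : ℚ) : ℝ) - N.c)
    simpa using hN3
  · show ((1 : ℤ) : ℝ) * (x - ((0 : ℚ) : ℝ) - N.c) * (N.q : ℝ) ^ 2 ≤ 1
    have hq : (0 : ℝ) ≤ N.q := Nat.cast_nonneg _
    have hq' : (0 : ℝ) ≤ N.q' := Nat.cast_nonneg _
    have : (x - N.c) * (N.q : ℝ) ^ 2 ≤ (x - N.c) * ((N.q : ℝ) * (N.q + N.q')) := by
      apply mul_le_mul_of_nonneg_left _ hN3.le
      nlinarith
    push_cast
    simp only [one_mul, sub_zero]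
    linarith
  · show (9 : ℝ) * ((1 : ℕ) : ℝ) ≤ N.q
    have : (9 : ℝ) ≤ N.q := by exact_mod_cast hN2
    simpa using this

theorem irrational_case {x : ℝ} (hx : Irrational x) (h0 : 0 < x) (h1 : x < 1) :
    ∃ g₁ g₂ : ℝ, g₁ ∈ Ioo (0 : ℝ) 1 ∧ g₂ ∈ Ioo (0 : ℝ) 1 ∧
      Tendsto (fun n : ℕ => ⌊1 / (G^[n] g₁)⌋) atTop atTop ∧
      Tendsto (fun n : ℕ => ⌊1 / (G^[n] g₂)⌋) atTop atTop ∧ x = g₁ + g₂ := by
  obtain ⟨p0, hp0⟩ := initial_good hx h0 h1
  have hnext : ∀ k : ℕ, ∀ p : {p : Num × Num // Good x (9 + k) p},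
      ∃ p' : {p : Num × Num // Good x (9 + (k + 1 : ℕ)) p},
        Ext ((9 + k) / 3 - 1) p.1.1 p'.1.1 ∧ Ext ((9 + k) / 3 - 1) p.1.2 p'.1.2 := by
    rintro k ⟨p, hp⟩
    obtain ⟨p', h2, h3, h4⟩ := dstep hx (R := 9 + k) (by
      have : (0 : ℝ) ≤ k := Nat.cast_nonneg _
      linarith) hp
    refine ⟨⟨p', ?_⟩, h2, h3⟩
    have : (9 : ℝ) + ((k + 1 : ℕ) : ℝ) = 9 + k + 1 := by push_cast; ring
    rw [this]; exact h4
  choose nxt hn1 hn2 using hnext
  let s : ∀ k : ℕ, {p : Num × Num // Good x (9 + k) p} := fun k =>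
    Nat.rec (motive := fun k : ℕ => {p : Num × Num // Good x (9 + k) p})
      ⟨p0, by simpa using hp0⟩ (fun k p => nxt k p) k
  have hs : ∀ k, s (k + 1) = nxt k (s k) := fun k => rfl
  have hE1 : ∀ k : ℕ, Ext ((9 + k) / 3 - 1) (s k).1.1 (s (k + 1)).1.1 := by
    intro k; rw [hs]; exact hn1 k (s k)
  have hE2 : ∀ k : ℕ, Ext ((9 + k) / 3 - 1) (s k).1.2 (s (k + 1)).1.2 := by
    intro k; rw [hs]; exact hn2 k (s k)
  have hG : ∀ k : ℕ, Good x (9 + k) (s k).1 := fun k => (s k).2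
  generalize hA : (fun k => (s k).1.1) = A at *
  generalize hB : (fun k => (s k).1.2) = B at *
  have hE1' : ∀ k : ℕ, Ext ((9 + k) / 3 - 1) (A k) (A (k + 1)) := by
    intro k; rw [← hA]; exact hE1 k
  have hE2' : ∀ k : ℕ, Ext ((9 + k) / 3 - 1) (B k) (B (k + 1)) := by
    intro k; rw [← hB]; exact hE2 k
  have hG' : ∀ k : ℕ, Good x (9 + k) (A k, B k) := by
    intro k; rw [← hA, ← hB]; exact hG k
  clear hE1 hE2 hG hA hB hs
  -- limits
  have hlim : ∀ C : ℕ → Num, (∀ k : ℕ, Ext ((9 + k) / 3 - 1) (C k) (C (k + 1))) →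
      ∃ g : ℝ, g ∈ Ioo (0 : ℝ) 1 ∧ Tendsto (fun n : ℕ => ⌊1 / (G^[n] g)⌋) atTop atTop ∧
        Tendsto (fun k => ((C k).c : ℝ)) atTop (nhds g) := by
    intro C hC
    have hpos : ∀ k, Pos (C k).l := fun k => (C k).rep.facts.2.2.2
    have hext : ∀ k, ∃ m, m ≠ [] ∧ (C (k + 1)).l = (C k).l ++ m := by
      intro k
      obtain ⟨m, h1, h2, _⟩ := hC k
      exact ⟨m, h1, h2⟩
    obtain ⟨g, hg⟩ := exists_limit (fun k => (C k).l) hpos hext
    refine ⟨g, ?_, ?_, ?_⟩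
    · obtain ⟨t, ht, h⟩ := hg 0
      rw [h]; exact F_mem_Ioo (hpos 0) ht
    · refine tendsto_digits g (fun k => (C k).l) hpos hext hg ?_
      intro K
      refine ⟨3 * K + 3, fun k hk m hm d hd => ?_⟩
      obtain ⟨m', h1, h2, h3⟩ := hC k
      have : m = m' := by
        have := hm.symm.trans h2
        exact List.append_cancel_left this
      rw [this] at hd
      have h4 := h3 d hd
      have h5 : (3 * K + 3 : ℝ) ≤ k := by exact_mod_cast hk
      have h6 : (K : ℝ) ≤ d := by linarith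
      exact_mod_cast h6
    · rw [Metric.tendsto_atTop]
      intro ε hε
      obtain ⟨K, hK⟩ := exists_nat_gt (3 / ε)
      refine ⟨K, fun k hk => ?_⟩
      obtain ⟨t, ht, h⟩ := hg k
      obtain ⟨t', ht', h'⟩ := hg (k + 1)
      obtain ⟨m, h1, h2, h3⟩ := hC k
      -- t = F m t'
      have hposm : Pos m := by
        intro a ha
        apply hpos (k + 1) a
        rw [h2]
        exact List.mem_append_right _ ha
      have hF : F m t' ∈ Ioo (0 : ℝ) 1 := F_mem_Ioo hposm ht'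
      have hg' : g = F (C k).l (F m t') := by rw [h', h2, F_append]
      have hsmall : F m t' < ε := by
        cases m with
        | nil => exact absurd rfl h1
        | cons a m =>
          have h4 := h3 a (List.mem_cons_self)
          have h5 := (F_mem_Ioo hposm.tail ht').1
          have h6 : (3 / ε) < k := lt_of_lt_of_le hK (by exact_mod_cast hk)
          simp only [F]
          rw [div_lt_iff₀ (by linarith [hposm.head])]
          rw [div_lt_iff₀ hε] at h6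
          nlinarith
      rw [Real.dist_eq, hg', (C k).rep.eval _ hF.1.le]
      obtain ⟨he, hq1, hq', _⟩ := (C k).rep.facts
      have hq1' : (1 : ℝ) ≤ (C k).q := by exact_mod_cast hq1
      have habs : |((C k).e : ℝ)| = 1 := by rcases he with h | h <;> simp [h]
      have e1 : ((C k).c : ℝ) - ((C k).c + (C k).e * F m t' / ((C k).q * ((C k).q + F m t' * (C k).q')))
          = - ((C k).e * (F m t' / ((C k).q * ((C k).q + F m t' * (C k).q')))) := by ring
      rw [e1, abs_neg, abs_mul, habs, one_mul]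
      have hden : (1 : ℝ) ≤ (C k).q * ((C k).q + F m t' * (C k).q') := by
        have h7 : 0 ≤ F m t' * (C k).q' := mul_nonneg hF.1.le (Nat.cast_nonneg _)
        nlinarith
      rw [abs_of_nonneg (div_nonneg hF.1.le (by linarith))]
      refine lt_of_le_of_lt (div_le_self hF.1.le hden) hsmall
  obtain ⟨g₁, ha1, ha2, ha3⟩ := hlim A hE1'
  obtain ⟨g₂, hb1, hb2, hb3⟩ := hlim B hE2'
  refine ⟨g₁, g₂, ha1, hb1, ha2, hb2, ?_⟩
  have hlim2 : Tendsto (fun k => x - (A k).c - (B k).c) atTop (nhds (x - g₁ - g₂)) :=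
    (tendsto_const_nhds.sub ha3).sub hb3
  have hzero : Tendsto (fun k => x - (A k).c - (B k).c) atTop (nhds 0) := by
    rw [Metric.tendsto_atTop]
    intro ε hε
    obtain ⟨K, hK⟩ := exists_nat_gt (1 / ε)
    refine ⟨K, fun k hk => ?_⟩
    have hk' : 1 / ε < k := lt_of_lt_of_le hK (by exact_mod_cast hk)
    have hk0 : (0 : ℝ) ≤ k := Nat.cast_nonneg _
    have hgen : ∀ N M : Num, Inv x (9 + k) N M → |x - N.c - M.c| < ε := by
      intro N M h
      obtain ⟨_, h2, h3, h4⟩ := h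
      obtain ⟨he, hq1, _, _⟩ := N.rep.facts
      have hq1' : (1 : ℝ) ≤ N.q := by exact_mod_cast hq1
      have hMq : (9 + k : ℝ) ≤ M.q := by nlinarith
      have habs : |x - N.c - M.c| = (N.e : ℝ) * (x - N.c - M.c) := by
        have h5 : |(N.e : ℝ) * (x - N.c - M.c)| = |x - N.c - M.c| := by
          rw [abs_mul]
          rcases he with h | h <;> simp [h]
        rw [← h5, abs_of_pos h2]
      rw [habs]
      set r := (N.e : ℝ) * (x - N.c - M.c) with hr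
      rw [div_lt_iff₀ hε] at hk'
      have h6 : (k : ℝ) + 1 ≤ (M.q : ℝ) ^ 2 := by nlinarith
      have h7 : r * (k + 1) ≤ 1 := le_trans (mul_le_mul_of_nonneg_left h6 h2.le) h3
      by_contra hcon
      push Not at hcon
      have : ε * (k + 1) ≤ r * (k + 1) := mul_le_mul_of_nonneg_right hcon (by linarith)
      nlinarith
    rw [Real.dist_eq, sub_zero]
    rcases hG' k with h | h
    · exact hgen _ _ h
    · have := hgen _ _ h
      simp only at this
      rwa [sub_right_comm] at this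
  have := tendsto_nhds_unique hlim2 hzero
  linarith

end Pool.Agent.TH212.CFSum
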