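import Pool.Agent.TH212.CFStep

set_option autoImplicit false

namespace Pool.Agent.TH212.CFSum

open Filter Set

lemma exists_lists : ∀ m : ℕ, ∀ n : ℕ, 0 < m → m < n →
    (∃ l, Pos l ∧ Odd l.length ∧ F l 0 = (m : ℝ) / n) ∧
    (∃ l, Pos l ∧ Even l.length ∧ F l 0 = (m : ℝ) / n) := by
  intro m
  induction m using Nat.strong_induction_on with
  | _ m ih =>
    intro n hm hmn
    have hdiv : m * (n / m) + n % m = n := Nat.div_add_mod n m
    have hk1 : 1 ≤ n / m := (Nat.one_le_div_iff hm).mpr hmn.le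
    have hm' : (0 : ℝ) < m := by exact_mod_cast hm
    have hn' : (0 : ℝ) < n := by exact_mod_cast hm.trans hmn
    obtain ⟨k, hk⟩ : ∃ k, k = n / m := ⟨_, rfl⟩
    obtain ⟨r, hr⟩ : ∃ r, r = n % m := ⟨_, rfl⟩
    rw [← hk, ← hr] at hdiv
    rw [← hk] at hk1
    have hrm : r < m := by rw [hr]; exact Nat.mod_lt _ hm
    have hdivR : (m : ℝ) * k + r = n := by exact_mod_cast hdiv
    have hk' : (1 : ℝ) ≤ k := by exact_mod_cast hk1
    rcases Nat.eq_zero_or_pos r with h0 | h0
    · have hk2 : 2 ≤ k := by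
        by_contra hcon
        have : k = 1 := by omega
        rw [this, h0] at hdiv
        omega
      rw [h0] at hdivR
      have hval : (m : ℝ) / n = 1 / k := by
        rw [← hdivR]; push_cast; field_simp; ring
      refine ⟨⟨[k], ?_, by simp, ?_⟩, ⟨[k - 1, 1], ?_, by simp, ?_⟩⟩
      · intro a ha; rw [List.mem_singleton] at ha; omega
      · simp [F, hval]
      · intro a ha
        simp only [List.mem_cons, List.not_mem_nil, or_false] at ha
        omega
      · simp only [F, hval]
        have : ((k - 1 : ℕ) : ℝ) = k - 1 := by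
          rw [Nat.cast_sub (by omega)]; simp
        rw [this]; norm_num
    · obtain ⟨⟨l1, p1, o1, e1⟩, ⟨l2, p2, o2, e2⟩⟩ := ih r hrm m h0 hrm
      have hval : (m : ℝ) / n = 1 / (k + (r : ℝ) / m) := by
        rw [← hdivR]; field_simp
      refine ⟨⟨k :: l2, ?_, ?_, ?_⟩, ⟨k :: l1, ?_, ?_, ?_⟩⟩
      · intro a ha
        rcases List.mem_cons.mp ha with h | h
        · omega
        · exact p2 a h
      · rw [List.length_cons]; exact o2.add_one
      · simp only [F]; rw [e2, hval]
      · intro a ha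
        rcases List.mem_cons.mp ha with h | h
        · omega
        · exact p1 a h
      · rw [List.length_cons]; exact o1.add_one
      · simp only [F]; rw [e1, hval]

lemma exists_rep (l : List ℕ) (hl : Pos l) : ∃ c e q q', Rep l c e q q' ∧ e = (-1) ^ l.length := by
  induction l using List.reverseRecOn with
  | nil => exact ⟨_, _, _, _, Rep.nil, by simp⟩
  | append_singleton l a ih =>
    obtain ⟨c, e, q, q', h, he⟩ := ih (fun b hb => hl b (List.mem_append_left _ hb))
    refine ⟨_, _, _, _, Rep.snoc a h (hl a (by simp)), ?_⟩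
    rw [he, List.length_append]; simp [pow_succ]

lemma seqF (θ : ℕ → ℝ) (d : ℕ → ℕ) (h : ∀ k, θ k = 1 / (d k + θ (k + 1))) (k : ℕ) :
    θ 0 = F ((List.range k).map d) (θ k) := by
  induction k with
  | zero => rfl
  | succ k ih =>
    rw [List.range_succ, List.map_append, F_append, ih]
    congr 1
    exact h k

lemma exists_tails (d : ℕ → ℕ) (hd : ∀ k, 1 ≤ d k) :
    ∃ θ : ℕ → ℝ, (∀ k, θ k ∈ Ioo (0 : ℝ) 1) ∧ ∀ k, θ k = 1 / (d k + θ (k + 1)) := by
  have hpos : ∀ k, Pos ((List.range k).map d) := by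
    intro k a ha
    rw [List.mem_map] at ha
    obtain ⟨j, _, rfl⟩ := ha
    exact hd j
  have hstep : ∀ k, (List.range (k + 1)).map d = (List.range k).map d ++ [d k] := by
    intro k
    rw [List.range_succ, List.map_append]; rfl
  obtain ⟨g, hg⟩ := exists_limit (fun k => (List.range k).map d) hpos
    (fun k => ⟨[d k], by simp, hstep k⟩)
  choose θ hθ hgθ using hg
  refine ⟨θ, hθ, fun k => ?_⟩
  have hlen : ((List.range k).map d).length = k := by simp
  have h1 : G^[k] g = θ k := by
    have := iter_F (l := (List.range k).map d) (m := []) (by intro a ha; simp at ha)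
      (by simpa using hpos k) (hθ k)
    rw [hlen, List.append_nil] at this
    rw [hgθ k]; exact this
  have h2 : G^[k] g = 1 / (d k + θ (k + 1)) := by
    have := iter_F (l := (List.range k).map d) (m := [d k])
      (by intro a ha; rw [List.mem_singleton] at ha; rw [ha]; exact hd k)
      (hpos k) (hθ (k + 1))
    rw [hlen, ← hstep] at this
    rw [hgθ (k + 1)]; exact this
  rw [← h1, h2]

lemma tendsto_of_tails (θ : ℕ → ℝ) (d : ℕ → ℕ) (l : List ℕ) (hl : Pos l)
    (hθ : ∀ k, θ k ∈ Ioo (0 : ℝ) 1) (h : ∀ k, θ k = 1 / (d k + θ (k + 1)))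
    (hd : ∀ k, 1 ≤ d k) (hd' : ∀ K, ∃ k0, ∀ k, k0 ≤ k → K ≤ d k) :
    Tendsto (fun n : ℕ => ⌊1 / (G^[n] (F l (θ 0)))⌋) atTop atTop := by
  have hstep : ∀ k, (List.range (k + 1)).map d = (List.range k).map d ++ [d k] := by
    intro k
    rw [List.range_succ, List.map_append]; rfl
  refine tendsto_digits _ (fun k => l ++ (List.range k).map d) ?_ ?_ ?_ ?_
  · intro k a ha
    rcases List.mem_append.mp ha with h | h
    · exact hl a h
    · rw [List.mem_map] at h
      obtain ⟨j, _, rfl⟩ := h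
      exact hd j
  · intro k
    exact ⟨[d k], by simp, by rw [hstep, List.append_assoc]⟩
  · intro k
    refine ⟨θ k, hθ k, ?_⟩
    rw [F_append, ← seqF θ d h k]
  · intro K
    obtain ⟨k0, hk0⟩ := hd' K
    refine ⟨k0, fun k hk m hm a ha => ?_⟩
    have : m = [d k] := by
      rw [hstep, ← List.append_assoc] at hm
      exact (List.append_cancel_left hm).symm
    rw [this, List.mem_singleton] at ha
    rw [ha]; exact hk0 k hk

theorem rational_case {x : ℝ} (hx : ¬ Irrational x) (h0 : 0 < x) (h1 : x ≤ 1) :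
    ∃ g₁ g₂ : ℝ, g₁ ∈ Ioo (0 : ℝ) 1 ∧ g₂ ∈ Ioo (0 : ℝ) 1 ∧
      Tendsto (fun n : ℕ => ⌊1 / (G^[n] g₁)⌋) atTop atTop ∧
      Tendsto (fun n : ℕ => ⌊1 / (G^[n] g₂)⌋) atTop atTop ∧ x = g₁ + g₂ := by
  -- the expansion of x of odd length
  obtain ⟨l, hl, ho, hF0⟩ : ∃ l, Pos l ∧ Odd l.length ∧ F l 0 = x := by
    rcases h1.eq_or_lt with h | h
    · refine ⟨[1], ?_, by simp, ?_⟩
      · intro a ha; rw [List.mem_singleton] at ha; omega
      · simp [F, h]
    · unfold Irrational at hx
      push Not at hx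
      obtain ⟨r, hr⟩ := hx
      have hr0 : 0 < r := by
        have : (0 : ℝ) < r := by rw [hr]; exact h0
        exact_mod_cast this
      have hr1 : r < 1 := by
        have : (r : ℝ) < 1 := by rw [hr]; exact h
        exact_mod_cast this
      have hnum : 0 < r.num := Rat.num_pos.mpr hr0
      have hlt : r.num < r.den := by
        exact Rat.num_lt_denom_iff.mpr hr1
      obtain ⟨⟨l, p, o, e⟩, _⟩ := exists_lists r.num.toNat r.den (by omega) (by omega)
      refine ⟨l, p, o, ?_⟩
      rw [e, ← hr]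
      have e1 : ((r.num.toNat : ℕ) : ℝ) = ((r.num : ℤ) : ℝ) := by
        have : ((r.num.toNat : ℕ) : ℤ) = r.num := Int.toNat_of_nonneg hnum.le
        exact_mod_cast this
      rw [e1]
      have := Rat.num_div_den r
      calc ((r.num : ℤ) : ℝ) / r.den = (((r.num : ℚ) / (r.den : ℚ) : ℚ) : ℝ) := by push_cast; rfl
        _ = r := by rw [this]
  obtain ⟨c, e, q, q', hrep, he⟩ := exists_rep l hl
  have he' : e = -1 := by rw [he]; exact ho.neg_one_pow
  obtain ⟨_, hq1, _, _⟩ := hrep.facts
  have hq1' : (1 : ℝ) ≤ q := by exact_mod_cast hq1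
  have hq'0 : (0 : ℝ) ≤ q' := Nat.cast_nonneg _
  have hc : (c : ℝ) = x := by
    have := hrep.eval 0 le_rfl
    rw [hF0] at this
    rw [this]; simp
  -- digits
  let d : ℕ → ℕ := fun k => if Even k then k + 1 else q ^ 2 * (k + 1)
  let D : ℕ → ℕ := fun k => if k = 0 then q ^ 2 + q * q' else if Even k then q ^ 2 * (k + 1) else k + 1
  have hqq : 1 ≤ q ^ 2 := Nat.one_le_pow _ _ hq1
  have hdk : ∀ k, k + 1 ≤ d k := by
    intro k
    simp only [d]
    split_ifs
    · exact le_rfl
    · exact Nat.le_mul_of_pos_left _ hqq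
  have hDk : ∀ k, k + 1 ≤ D k := by
    intro k
    simp only [D]
    split_ifs with h2 h3
    · rw [h2]; omega
    · exact Nat.le_mul_of_pos_left _ hqq
    · exact le_rfl
  obtain ⟨θ, hθ, hθr⟩ := exists_tails d (fun k => le_trans (by omega) (hdk k))
  let φ : ℕ → ℝ := fun k => if k = 0 then θ 0 / (q * (q + θ 0 * q')) else
    if Even k then θ k / q ^ 2 else q ^ 2 * θ k
  have hq0 : (0 : ℝ) < q := by linarith
  have hφr : ∀ k, φ k = 1 / (D k + φ (k + 1)) := by
    intro k
    rcases Nat.eq_zero_or_pos k with h | h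
    · subst h
      have e1 : φ 0 = θ 0 / (q * (q + θ 0 * q')) := by simp [φ]
      have e2 : φ (0 + 1) = q ^ 2 * θ 1 := by simp [φ]
      have e3 : (D 0 : ℝ) = q ^ 2 + q * q' := by simp [D]
      have e4 : θ 0 = 1 / (1 + θ 1) := by
        have := hθr 0
        simpa [d] using this
      have h5 := (hθ 1).1
      rw [e1, e2, e3, e4]
      have h6 : (0 : ℝ) < 1 + θ 1 := by linarith
      have h7 : (0 : ℝ) < (q : ℝ) ^ 2 + q * q' + q ^ 2 * θ 1 := by positivity
      have h8 : (0 : ℝ) < (q : ℝ) + 1 / (1 + θ 1) * q' := by positivity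
      field_simp
      ring
    · rcases Nat.even_or_odd k with hk | hk
      · have hk1 : ¬ Even (k + 1) := by
          rw [Nat.not_even_iff_odd]; exact hk.add_one
        have e1 : φ k = θ k / q ^ 2 := by simp [φ, h.ne', hk]
        have e2 : φ (k + 1) = q ^ 2 * θ (k + 1) := by simp [φ, hk1]
        have e3 : (D k : ℝ) = q ^ 2 * (k + 1) := by simp [D, h.ne', hk]
        have e4 : θ k = 1 / ((k + 1) + θ (k + 1)) := by
          have := hθr k
          simpa [d, hk] using this
        have h5 := (hθ (k + 1)).1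
        rw [e1, e2, e3, e4]
        have h6 : (0 : ℝ) < (k : ℝ) + 1 + θ (k + 1) := by positivity
        field_simp
      · have hk0 : ¬ Even k := by rwa [Nat.not_even_iff_odd]
        have hk1 : Even (k + 1) := hk.add_one
        have e1 : φ k = q ^ 2 * θ k := by simp [φ, h.ne', hk0]
        have e2 : φ (k + 1) = θ (k + 1) / q ^ 2 := by simp [φ, hk1]
        have e3 : (D k : ℝ) = k + 1 := by simp [D, h.ne', hk0]
        have e4 : θ k = 1 / (q ^ 2 * (k + 1) + θ (k + 1)) := by
          have := hθr k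
          simpa [d, hk0] using this
        have h5 := (hθ (k + 1)).1
        rw [e1, e2, e3, e4]
        have h6 : (0 : ℝ) < (q : ℝ) ^ 2 * (k + 1) + θ (k + 1) := by positivity
        field_simp
  have hφpos : ∀ k, 0 < φ k := by
    intro k
    have h5 := (hθ k).1
    have h50 := (hθ 0).1
    simp only [φ]
    split_ifs <;> positivity
  have hφ : ∀ k, φ k ∈ Ioo (0 : ℝ) 1 := by
    intro k
    refine ⟨hφpos k, ?_⟩
    rw [hφr k]
    have h5 := hφpos (k + 1)
    have h6 : (1 : ℝ) ≤ D k := by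
      have := hDk k
      exact_mod_cast le_trans (by omega) this
    rw [div_lt_one (by linarith)]; linarith
  refine ⟨F l (θ 0), φ 0, F_mem_Ioo hl (hθ 0), hφ 0, ?_, ?_, ?_⟩
  · exact tendsto_of_tails θ d l hl hθ hθr (fun k => le_trans (by omega) (hdk k))
      (fun K => ⟨K, fun k hk => le_trans (by omega) (hdk k)⟩)
  · exact tendsto_of_tails φ D [] (by intro a ha; simp at ha) hφ hφr
      (fun k => le_trans (by omega) (hDk k)) (fun K => ⟨K, fun k hk => le_trans (by omega) (hDk k)⟩)
  · rw [hrep.eval _ (hθ 0).1.le, hc, he']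
    have e1 : φ 0 = θ 0 / (q * (q + θ 0 * q')) := by simp [φ]
    rw [e1]; push_cast; ring

end Pool.Agent.TH212.CFSum
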