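import Pool.Agent.TH212.CFSum

set_option autoImplicit false

namespace Pool.Agent.TH212.CFSum

open Filter Set

/-- `Rep l c e q q'` : `F l t = c + e t / (q (q + t q'))` -/
inductive Rep : List ℕ → ℚ → ℤ → ℕ → ℕ → Prop
  | nil : Rep [] 0 1 1 0
  | snoc {l : List ℕ} {c : ℚ} {e : ℤ} {q q' : ℕ} (a : ℕ) (h : Rep l c e q q') (ha : 1 ≤ a) :
      Rep (l ++ [a]) (c + e / ((q : ℚ) * (a * q + q'))) (-e) (a * q + q') q

lemma Rep.facts {l : List ℕ} {c : ℚ} {e : ℤ} {q q' : ℕ} (h : Rep l c e q q') :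
    (e = 1 ∨ e = -1) ∧ 1 ≤ q ∧ q' ≤ q ∧ Pos l := by
  induction h with
  | nil => exact ⟨Or.inl rfl, le_rfl, Nat.zero_le _, by intro a ha; simp at ha⟩
  | snoc a h ha ih =>
    obtain ⟨h1, h2, h3, h4⟩ := ih
    rename_i l c e q q'
    have h5 : q ≤ a * q := Nat.le_mul_of_pos_left q ha
    refine ⟨?_, by omega, by omega, ?_⟩
    · rcases h1 with h | h
      · right; rw [h]
      · left; rw [h]; rfl
    · intro b hb
      rcases List.mem_append.mp hb with h | h
      · exact h4 b h
      · rw [List.mem_singleton] at h; omega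

lemma Rep.eval {l : List ℕ} {c : ℚ} {e : ℤ} {q q' : ℕ} (h : Rep l c e q q') :
    ∀ t : ℝ, 0 ≤ t → F l t = c + e * t / (q * (q + t * q')) := by
  induction h with
  | nil => intro t ht; simp [F]
  | snoc a h ha ih =>
    rename_i l c e q q'
    intro t ht
    have ha' : (1 : ℝ) ≤ a := by exact_mod_cast ha
    have hq : (1 : ℝ) ≤ q := by exact_mod_cast h.facts.2.1
    have hq' : (0 : ℝ) ≤ q' := Nat.cast_nonneg _
    rw [F_append]
    have h1 : F [a] t = 1 / (a + t) := rfl
    rw [h1, ih _ (by positivity)]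
    push_cast
    have h2 : (0 : ℝ) < a + t := by positivity
    have h3 : (0 : ℝ) < a * q + q' := by positivity
    have h4 : (0 : ℝ) < a * q + q' + t * q := by positivity
    have h5 : (0 : ℝ) < q + 1 / (a + t) * q' := by positivity
    field_simp
    ring

/-- one continued fraction with its convergent data -/
structure Num where
  l : List ℕ
  c : ℚ
  e : ℤ
  q : ℕ
  q' : ℕ
  rep : Rep l c e q q'

/-- append a digit -/
def Num.snoc (N : Num) (a : ℕ) (ha : 1 ≤ a) : Num := ⟨_, _, _, _, _, Rep.snoc a N.rep ha⟩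

/-- `N'` extends `N` by digits `≥ K` -/
def Ext (K : ℝ) (N N' : Num) : Prop := ∃ m : List ℕ, m ≠ [] ∧ N'.l = N.l ++ m ∧ ∀ d ∈ m, K ≤ (d : ℝ)

lemma Ext.mono {K K' : ℝ} {N N' : Num} (h : Ext K N N') (hK : K' ≤ K) : Ext K' N N' := by
  obtain ⟨m, h1, h2, h3⟩ := h
  exact ⟨m, h1, h2, fun d hd => hK.trans (h3 d hd)⟩

lemma Ext.trans {K : ℝ} {N N' N'' : Num} (h : Ext K N N') (h' : Ext K N' N'') : Ext K N N'' := by
  obtain ⟨m, h1, h2, h3⟩ := h
  obtain ⟨m', h1', h2', h3'⟩ := h'
  refine ⟨m ++ m', by simp [h1], by rw [h2', h2, List.append_assoc], ?_⟩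
  intro d hd
  rcases List.mem_append.mp hd with h | h
  · exact h3 d h
  · exact h3' d h

lemma Num.ext_snoc (N : Num) (a : ℕ) (ha : 1 ≤ a) {K : ℝ} (hK : K ≤ a) : Ext K N (N.snoc a ha) :=
  ⟨[a], by simp, rfl, by intro d hd; rw [List.mem_singleton] at hd; rw [hd]; exact hK⟩

/-- choice of a digit with overshoot -/
lemma overshoot {q q' : ℕ} (hq : 1 ≤ q) {s : ℝ} (hs : 0 < s) (hirr : Irrational s)
    (hs' : (q' : ℝ) * (q * s) ≤ 1) :
    ∃ b : ℕ, ((b : ℝ) * q + q') * (q * s) < 1 ∧ 1 < (((b : ℝ) * q + q') + q) * (q * s) := by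
  have hq0 : (0 : ℝ) < q := by exact_mod_cast hq
  have hqs : 0 < (q : ℝ) * s := by positivity
  set y : ℝ := (1 / (q * s) - q') / q with hy
  have hy0 : 0 ≤ y := by
    apply div_nonneg _ hq0.le
    rw [sub_nonneg, le_div_iff₀ hqs]
    exact hs'
  have hyeq : (y * q + q') * (q * s) = 1 := by
    rw [hy]; field_simp; ring
  refine ⟨⌊y⌋₊, ?_, ?_⟩
  · have h1 : (⌊y⌋₊ : ℝ) ≤ y := Nat.floor_le hy0
    rcases h1.lt_or_eq with h2 | h2
    · calc ((⌊y⌋₊ : ℝ) * q + q') * (q * s) < (y * q + q') * (q * s) := by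
            apply mul_lt_mul_of_pos_right _ hqs
            have := mul_lt_mul_of_pos_right h2 hq0
            linarith
        _ = 1 := hyeq
    · exfalso
      rw [← h2] at hyeq
      have hW : (((⌊y⌋₊ : ℝ) * q + q') * q) ≠ 0 := by
        intro h0
        have : (((⌊y⌋₊ : ℝ) * q + q') * (q * s)) = (((⌊y⌋₊ : ℝ) * q + q') * q) * s := by ring
        rw [this, h0, zero_mul] at hyeq
        exact zero_ne_one hyeq
      apply hirr
      refine ⟨1 / (((⌊y⌋₊ : ℚ) * q + q') * q), ?_⟩
      push_cast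
      rw [div_eq_iff hW]
      rw [← hyeq]; ring
  · have h1 : y < (⌊y⌋₊ : ℝ) + 1 := Nat.lt_floor_add_one y
    calc (1 : ℝ) = (y * q + q') * (q * s) := hyeq.symm
      _ < ((((⌊y⌋₊ : ℝ) * q + q') + q)) * (q * s) := by
            apply mul_lt_mul_of_pos_right _ hqs
            have := mul_lt_mul_of_pos_right h1 hq0
            linarith


lemma over_res {q W s : ℝ} (hq : 0 < q) (hW : 0 < W) (h1 : W * (q * s) < 1)
    (h2 : 1 < (W + q) * (q * s)) :
    0 < 1 / (q * W) - s ∧ (1 / (q * W) - s) * W ^ 2 ≤ 1 := by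
  have hqW : 0 < q * W := by positivity
  have hs1 : s < 1 / (q * W) := by
    rw [lt_div_iff₀ hqW]; linarith
  refine ⟨by linarith, ?_⟩
  have hWq : 0 < q * (W + q) := by positivity
  have hs2 : 1 / (q * (W + q)) < s := by
    rw [div_lt_iff₀ hWq]; linarith
  have h3 : 1 / (q * W) - s ≤ 1 / (q * W) - 1 / (q * (W + q)) := by linarith
  have h4 : 1 / (q * W) - 1 / (q * (W + q)) = 1 / (W * (W + q)) := by
    field_simp; ring
  rw [h4] at h3
  calc (1 / (q * W) - s) * W ^ 2 ≤ 1 / (W * (W + q)) * W ^ 2 := by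
        apply mul_le_mul_of_nonneg_right h3; positivity
    _ = W / (W + q) := by field_simp
    _ ≤ 1 := by rw [div_le_one (by positivity)]; linarith

/-- the invariant: `N` is to be extended next -/
def Inv (x R : ℝ) (N M : Num) : Prop :=
  N.e = M.e ∧ 0 < (N.e : ℝ) * (x - N.c - M.c) ∧
    (N.e : ℝ) * (x - N.c - M.c) * (M.q : ℝ) ^ 2 ≤ 1 ∧ R * N.q ≤ M.q

lemma Inv.mono {x R R' : ℝ} {N M : Num} (h : Inv x R N M) (hR : R' ≤ R) : Inv x R' N M := by
  obtain ⟨h1, h2, h3, h4⟩ := h
  exact ⟨h1, h2, h3, le_trans (mul_le_mul_of_nonneg_right hR (Nat.cast_nonneg _)) h4⟩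

lemma irr_aux {x : ℝ} (hx : Irrational x) {e : ℤ} (he : e = 1 ∨ e = -1) (c : ℚ) :
    Irrational ((e : ℝ) * (x - c)) := by
  have h1 : Irrational (x - c) := hx.sub_ratCast c
  have h2 := h1.intCast_mul (m := e) (by rcases he with h | h <;> simp [h])
  exact h2

set_option maxHeartbeats 4000000 in
/-- the main step -/
lemma step {x : ℝ} (hx : Irrational x) {R : ℝ} (hR : 9 ≤ R) {N M : Num} (h : Inv x R N M) :
    (∃ N' M', Ext (R / 3 - 1) N N' ∧ Ext (R / 3 - 1) M M' ∧ Inv x (R + 1) N' M') ∨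
    (∃ N', Ext (R / 3 - 1) N N' ∧ Inv x (R + 1) M N') := by
  obtain ⟨hE, ht0, ht1, hRq⟩ := h
  obtain ⟨he, hu1, hu', _⟩ := N.rep.facts
  obtain ⟨_, hw1, hw', _⟩ := M.rep.facts
  set t : ℝ := (N.e : ℝ) * (x - N.c - M.c) with ht
  have hirr : ∀ c : ℚ, Irrational ((N.e : ℝ) * (x - c)) := fun c => irr_aux hx he c
  have hee : (N.e : ℝ) * N.e = 1 := by rcases he with h | h <;> simp [h]
  set u : ℝ := (N.q : ℝ) with hu
  set u' : ℝ := (N.q' : ℝ) with hu'd
  set w : ℝ := (M.q : ℝ) with hw
  set w' : ℝ := (M.q' : ℝ) with hw'd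
  have hu1' : (1 : ℝ) ≤ u := by rw [hu]; exact_mod_cast hu1
  have hw1' : (1 : ℝ) ≤ w := by rw [hw]; exact_mod_cast hw1
  have hu'' : u' ≤ u := by rw [hu, hu'd]; exact_mod_cast hu'
  have hw'' : w' ≤ w := by rw [hw, hw'd]; exact_mod_cast hw'
  have hu'0 : 0 ≤ u' := Nat.cast_nonneg _
  have hw'0 : 0 ≤ w' := Nat.cast_nonneg _
  have hu0 : 0 < u := by linarith
  have hw0 : 0 < w := by linarith
  have huw : u ≤ w := by nlinarith
  have htirr : Irrational t := by
    have := hirr (N.c + M.c)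
    rw [ht]
    convert this using 2
    push_cast; ring
  -- digit for N
  have hcond : u' * (u * t) ≤ 1 := by
    calc u' * (u * t) ≤ w * (w * t) := by
          apply mul_le_mul (hu''.trans huw) _ (by positivity) hw0.le
          exact mul_le_mul_of_nonneg_right huw ht0.le
      _ = t * w ^ 2 := by ring
      _ ≤ 1 := ht1
  obtain ⟨b, hb1, hb2⟩ := overshoot hu1 ht0 htirr hcond
  set P : ℝ := (b : ℝ) * u + u' with hP
  -- Q = P + u
  have hP0 : 0 ≤ P := by positivity
  have hQw : R * w < P + u := by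
    -- (P+u) u t > 1 ≥ t w², so (P+u) u > w² ≥ R u w
    have h1 : t * w ^ 2 < (P + u) * (u * t) := lt_of_le_of_lt ht1 hb2
    have h2 : w ^ 2 < (P + u) * u := by
      have : t * w ^ 2 < t * ((P + u) * u) := by linarith
      exact lt_of_mul_lt_mul_left this ht0.le
    have h3 : R * u * w ≤ w ^ 2 := by nlinarith
    have h4 : (R * w) * u < (P + u) * u := by linarith
    exact lt_of_mul_lt_mul_right h4 hu0.le
  have hRu : R * u ≤ w := hRq
  have hb_big : R ^ 2 - 2 < b := by
    have h1 : R * (R * u) ≤ R * w := mul_le_mul_of_nonneg_left hRu (by linarith)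
    have h2 : R ^ 2 * u < ((b : ℝ) + 2) * u := by
      have : P + u ≤ ((b : ℝ) + 2) * u := by rw [hP]; linarith
      linarith
    have := lt_of_mul_lt_mul_right h2 hu0.le
    linarith
  have hR2 : R ≤ R ^ 2 - 2 := by nlinarith
  have hb1' : 1 ≤ b := by
    have : (1 : ℝ) < b := by linarith
    exact_mod_cast this.le
  have hPpos : 0 < P := by
    have : (0 : ℝ) < b := by linarith
    positivity
  have hPQ : 0 < P * (P + u) := by positivity
  have hPlow : (R - 1 / R) * w ≤ P := by
    have h1 : u ≤ w / R := by rw [le_div_iff₀ (by linarith)]; linarith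
    have h2 : (R - 1 / R) * w = R * w - w / R := by ring
    rw [h2]; linarith
  by_cases hcase : t - 1 / (u * (P + u)) ≤ (1 - 3 / R) / (P * (P + u))
  · -- undershoot by N, then M
    left
    have hs1 : 0 < t - 1 / (u * (P + u)) := by
      have : 1 / (u * (P + u)) < t := by
        rw [div_lt_iff₀ (by positivity)]; linarith
      linarith
    set s : ℝ := t - 1 / (u * (P + u)) with hs
    have hsirr : Irrational s := by
      have h1 := htirr.sub_ratCast (1 / ((N.q : ℚ) * (((b : ℚ) * N.q + N.q') + N.q)))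
      have h2 : s = t - ((1 / ((N.q : ℚ) * (((b : ℚ) * N.q + N.q') + N.q)) : ℚ) : ℝ) := by
        rw [hs]; push_cast; rfl
      rw [h2]; exact h1
    have hsPQ : s * (P * (P + u)) ≤ 1 - 3 / R := by
      rwa [le_div_iff₀ hPQ] at hcase
    have hwP : w ≤ P := by
      have : w ≤ (R - 1 / R) * w := by
        have h1 : 1 / R ≤ 1 := by rw [div_le_one (by linarith)]; linarith
        nlinarith
      linarith
    have hcond2 : w' * (w * s) ≤ 1 := by
      calc w' * (w * s) ≤ P * ((P + u) * s) := by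
            apply mul_le_mul (hw''.trans hwP) _ (by positivity) hPpos.le
            exact mul_le_mul_of_nonneg_right (by linarith) hs1.le
        _ = s * (P * (P + u)) := by ring
        _ ≤ 1 - 3 / R := hsPQ
        _ ≤ 1 := by
            have : 0 < 3 / R := by positivity
            linarith
    obtain ⟨b2, hc1, hc2⟩ := overshoot hw1 hs1 hsirr hcond2
    set W : ℝ := (b2 : ℝ) * w + w' with hW
    have hratio : (R + 1) * (P + u) ≤ W := by
      -- 1 < (W+w) w s,  s ≤ (1-3/R)/(P Q)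
      have h1 : P * (P + u) < (W + w) * w * (1 - 3 / R) := by
        calc P * (P + u) = 1 * (P * (P + u)) := by ring
          _ < ((W + w) * (w * s)) * (P * (P + u)) := mul_lt_mul_of_pos_right hc2 hPQ
          _ = ((W + w) * w) * (s * (P * (P + u))) := by ring
          _ ≤ ((W + w) * w) * (1 - 3 / R) := by
              apply mul_le_mul_of_nonneg_left hsPQ; positivity
      have h2 : (R - 1 / R) * w * (P + u) < (W + w) * w * (1 - 3 / R) :=
        lt_of_le_of_lt (mul_le_mul_of_nonneg_right hPlow (by positivity)) h1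
      have h3 : (R - 1 / R) * (P + u) < (W + w) * (1 - 3 / R) := by
        have : ((R - 1 / R) * (P + u)) * w < ((W + w) * (1 - 3 / R)) * w := by linarith
        exact lt_of_mul_lt_mul_right this hw0.le
      have hR0 : 0 < R := by linarith
      have h4 : (R ^ 2 - 1) * (P + u) < (W + w) * (R - 3) := by
        have e1 : R * ((R - 1 / R) * (P + u)) = (R ^ 2 - 1) * (P + u) := by field_simp
        have e2 : R * ((W + w) * (1 - 3 / R)) = (W + w) * (R - 3) := by field_simp
        rw [← e1, ← e2]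
        exact mul_lt_mul_of_pos_left h3 hR0
      have h5 : w ≤ P + u := by linarith
      -- W (R-3) > (R²-1) Q - w (R-3) ≥ (R² - 1 - (R - 3)) Q
      have h6 : (R + 1) * (P + u) * (R - 3) ≤ W * (R - 3) := by
        have h7 : w * (R - 3) ≤ (P + u) * (R - 3) := mul_le_mul_of_nonneg_right h5 (by linarith)
        have h8 : (R + 1) * (P + u) * (R - 3) ≤ (R ^ 2 - 1) * (P + u) - (P + u) * (R - 3) := by
          have : 0 < P + u := by positivity
          nlinarith
        linarith
      exact le_of_mul_le_mul_right h6 (by linarith)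
    have hWpos : 0 < W := by
      have : 0 < (R + 1) * (P + u) := by positivity
      linarith
    have hb2 : R < b2 := by
      have h1 : (R + 1) * (R * w) ≤ W := by
        refine le_trans ?_ hratio
        exact mul_le_mul_of_nonneg_left hQw.le (by linarith)
      have h2 : ((R + 1) * R) * w ≤ ((b2 : ℝ) + 1) * w := by
        have : W ≤ ((b2 : ℝ) + 1) * w := by rw [hW]; linarith
        linarith
      have h3 := le_of_mul_le_mul_right h2 hw0
      nlinarith
    have hb21 : 1 ≤ b2 := by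
      have : (1 : ℝ) < b2 := by linarith
      exact_mod_cast this.le
    obtain ⟨hr1, hr2⟩ := over_res hw0 hWpos hc1 hc2
    refine ⟨N.snoc (b + 1) (by omega), M.snoc b2 hb21, N.ext_snoc _ _ ?_, M.ext_snoc _ _ ?_,
      ?_, ?_, ?_, ?_⟩
    · push_cast; linarith
    · linarith
    · show -N.e = -M.e
      rw [hE]
    · have e1 : (((N.snoc (b + 1) (by omega)).e : ℤ) : ℝ) * (x - ((N.snoc (b + 1) (by omega)).c : ℚ)
          - ((M.snoc b2 hb21).c : ℚ)) = 1 / (w * W) - s := by
        show ((-N.e : ℤ) : ℝ) * (x - ((N.c + N.e / ((N.q : ℚ) * (((b + 1 : ℕ) : ℚ) * N.q + N.q')) : ℚ) : ℝ)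
          - ((M.c + M.e / ((M.q : ℚ) * ((b2 : ℚ) * M.q + M.q')) : ℚ) : ℝ)) = 1 / (w * W) - s
        rw [← hE]
        push_cast
        rw [← hu, ← hu'd, ← hw, ← hw'd, ← hW]
        have e2 : ((b : ℝ) + 1) * u + u' = P + u := by rw [hP]; ring
        rw [e2, hs, ht]
        have e3 : (-(N.e : ℝ)) * (x - (N.c + N.e / (u * (P + u))) - (M.c + N.e / (w * W)))
          = - ((N.e : ℝ) * (x - N.c - M.c)) + (N.e : ℝ) * N.e * (1 / (u * (P + u)))
            + (N.e : ℝ) * N.e * (1 / (w * W)) := by ring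
        rw [e3, hee]; ring
      rw [e1]; exact hr1
    · have e1 : (((N.snoc (b + 1) (by omega)).e : ℤ) : ℝ) * (x - ((N.snoc (b + 1) (by omega)).c : ℚ)
          - ((M.snoc b2 hb21).c : ℚ)) = 1 / (w * W) - s := by
        show ((-N.e : ℤ) : ℝ) * (x - ((N.c + N.e / ((N.q : ℚ) * (((b + 1 : ℕ) : ℚ) * N.q + N.q')) : ℚ) : ℝ)
          - ((M.c + M.e / ((M.q : ℚ) * ((b2 : ℚ) * M.q + M.q')) : ℚ) : ℝ)) = 1 / (w * W) - s
        rw [← hE]
        push_cast
        rw [← hu, ← hu'd, ← hw, ← hw'd, ← hW]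
        have e2 : ((b : ℝ) + 1) * u + u' = P + u := by rw [hP]; ring
        rw [e2, hs, ht]
        have e3 : (-(N.e : ℝ)) * (x - (N.c + N.e / (u * (P + u))) - (M.c + N.e / (w * W)))
          = - ((N.e : ℝ) * (x - N.c - M.c)) + (N.e : ℝ) * N.e * (1 / (u * (P + u)))
            + (N.e : ℝ) * N.e * (1 / (w * W)) := by ring
        rw [e3, hee]; ring
      have e4 : (((M.snoc b2 hb21).q : ℕ) : ℝ) = W := by
        show ((b2 * M.q + M.q' : ℕ) : ℝ) = W
        push_cast; rw [hW]
      rw [e1, e4]; exact hr2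
    · show (R + 1) * (((b + 1) * N.q + N.q' : ℕ) : ℝ) ≤ ((b2 * M.q + M.q' : ℕ) : ℝ)
      push_cast
      rw [← hu, ← hu'd, ← hw, ← hw'd, ← hW]
      have e2 : ((b : ℝ) + 1) * u + u' = P + u := by rw [hP]; ring
      rw [e2]; exact hratio
  · -- overshoot by N, then again N
    right
    push Not at hcase
    have hgap : 1 / (u * P) - 1 / (u * (P + u)) = 1 / (P * (P + u)) := by
      field_simp; ring
    have hs1 : 0 < 1 / (u * P) - t := by
      have : t < 1 / (u * P) := by
        rw [lt_div_iff₀ (by positivity)]; linarith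
      linarith
    set s : ℝ := 1 / (u * P) - t with hs
    have hsup : s < (3 / R) / (P * (P + u)) := by
      have e1 : (1 - 3 / R) / (P * (P + u)) = 1 / (P * (P + u)) - (3 / R) / (P * (P + u)) := by ring
      rw [e1] at hcase
      linarith
    have hsPQ : s * (P * (P + u)) < 3 / R := by
      rwa [lt_div_iff₀ hPQ] at hsup
    have hsirr : Irrational s := by
      have h1 := htirr.ratCast_sub (1 / ((N.q : ℚ) * (((b : ℚ) * N.q + N.q'))))
      have h2 : s = ((1 / ((N.q : ℚ) * (((b : ℚ) * N.q + N.q'))) : ℚ) : ℝ) - t := by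
        rw [hs]; push_cast; rfl
      rw [h2]; exact h1
    have hR3 : 3 / R ≤ 1 := by rw [div_le_one (by linarith)]; linarith
    -- the extended number
    have hPcast : (((N.snoc b hb1').q : ℕ) : ℝ) = P := by
      show ((b * N.q + N.q' : ℕ) : ℝ) = P
      push_cast; rw [hP]
    have hP1 : 1 ≤ (N.snoc b hb1').q := (N.snoc b hb1').rep.facts.2.1
    have hcond2 : ((N.q : ℕ) : ℝ) * ((((N.snoc b hb1').q : ℕ) : ℝ) * s) ≤ 1 := by
      rw [hPcast, ← hu]
      calc u * (P * s) ≤ (P + u) * (P * s) := by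
            apply mul_le_mul_of_nonneg_right _ (by positivity)
            linarith
        _ = s * (P * (P + u)) := by ring
        _ ≤ 1 := by linarith
    obtain ⟨b2, hc1, hc2⟩ := overshoot hP1 hs1 hsirr hcond2
    rw [hPcast, ← hu] at hc1 hc2
    set W : ℝ := (b2 : ℝ) * P + u with hW
    have hR0 : 0 < R := by linarith
    have hWP : (R / 3) * (P + u) < W + P := by
      have h1 : P * (P + u) < (W + P) * P * (3 / R) := by
        calc P * (P + u) = 1 * (P * (P + u)) := by ring
          _ < ((W + P) * (P * s)) * (P * (P + u)) := mul_lt_mul_of_pos_right hc2 hPQ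
          _ = ((W + P) * P) * (s * (P * (P + u))) := by ring
          _ ≤ ((W + P) * P) * (3 / R) := by
              apply mul_le_mul_of_nonneg_left hsPQ.le; positivity
      have h2 : (P + u) < (W + P) * (3 / R) := by
        have : P * (P + u) < P * ((W + P) * (3 / R)) := by linarith
        exact lt_of_mul_lt_mul_left this hPpos.le
      have e1 : (R / 3) * ((W + P) * (3 / R)) = W + P := by field_simp
      rw [← e1]
      exact mul_lt_mul_of_pos_left h2 (by positivity)
    have hWpos : 0 < W := by positivity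
    have hWbig : (R / 3 - 1) * (P + u) < W := by
      linarith
    have hratio : (R + 1) * w ≤ W := by
      have h1 : (R / 3 - 1) * (R * w) ≤ (R / 3 - 1) * (P + u) :=
        mul_le_mul_of_nonneg_left hQw.le (by linarith)
      have h2 : (R + 1) * w ≤ (R / 3 - 1) * (R * w) := by
        have : R + 1 ≤ (R / 3 - 1) * R := by nlinarith
        have := mul_le_mul_of_nonneg_right this hw0.le
        linarith
      linarith
    have hb2 : R / 3 - 1 < b2 := by
      have h1 : (R / 3 - 1) * P < (b2 : ℝ) * P := by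
        have h2 : (R / 3 - 1) * P ≤ (R / 3 - 1) * (P + u) - 0 := by
          have : 0 ≤ (R / 3 - 1) * u := by
            apply mul_nonneg _ hu0.le; linarith
          linarith
        have h3 : (R / 3) * (P + u) - P - u < (b2 : ℝ) * P := by
          rw [hW] at hWP; linarith
        linarith
      exact lt_of_mul_lt_mul_right h1 hPpos.le
    have hb21 : 1 ≤ b2 := by
      have : (1 : ℝ) < b2 := by linarith
      exact_mod_cast this.le
    obtain ⟨hr1, hr2⟩ := over_res hPpos hWpos hc1 hc2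
    have e1 : (((M.e : ℤ) : ℝ)) * (x - (M.c : ℚ)
          - (((N.snoc b hb1').snoc b2 hb21).c : ℚ)) = 1 / (P * W) - s := by
        show ((M.e : ℤ) : ℝ) * (x - (M.c : ℚ)
          - (((N.c + N.e / ((N.q : ℚ) * ((b : ℚ) * N.q + N.q'))) +
            ((-N.e : ℤ) : ℚ) / (((b * N.q + N.q' : ℕ) : ℚ) *
              ((b2 : ℚ) * ((b * N.q + N.q' : ℕ) : ℚ) + (N.q : ℚ))) : ℚ) : ℝ)) = 1 / (P * W) - s
        rw [← hE]
        push_cast
        rw [← hu, ← hu'd, ← hP, ← hW, hs, ht]
        have e3 : (N.e : ℝ) * (x - M.c - (N.c + N.e / (u * P) + -N.e / (P * W)))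
          = ((N.e : ℝ) * (x - N.c - M.c)) - (N.e : ℝ) * N.e * (1 / (u * P))
            + (N.e : ℝ) * N.e * (1 / (P * W)) := by ring
        rw [e3, hee]; ring
    have e4 : ((((N.snoc b hb1').snoc b2 hb21).q : ℕ) : ℝ) = W := by
        show ((b2 * (b * N.q + N.q') + N.q : ℕ) : ℝ) = W
        push_cast; rw [hW]
    refine ⟨(N.snoc b hb1').snoc b2 hb21, (N.ext_snoc _ _ ?_).trans (Num.ext_snoc _ _ _ ?_),
      ?_, ?_, ?_, ?_⟩
    · linarith
    · linarith
    · show M.e = - -N.e
      rw [hE]; ring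
    · rw [e1]; exact hr1
    · rw [e1, e4]; exact hr2
    · rw [e4]; exact hratio

end Pool.Agent.TH212.CFSum
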