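import Mathlib

set_option autoImplicit false

namespace Pool.Agent.TH212.CFSum

open Filter Set

/-- the Gauss map -/
noncomputable def G (y : ℝ) : ℝ := Int.fract (1 / y)

/-- `F [a₁,…,aₙ] t = 1/(a₁+1/(a₂+⋯+1/(aₙ+t)))` -/
noncomputable def F : List ℕ → ℝ → ℝ
  | [], t => t
  | (a :: l), t => 1 / (a + F l t)

lemma F_append (l m : List ℕ) (t : ℝ) : F (l ++ m) t = F l (F m t) := by
  induction l with
  | nil => rfl
  | cons a l ih => simp only [List.cons_append, F, ih]

def Pos (l : List ℕ) : Prop := ∀ a ∈ l, 1 ≤ a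

lemma Pos.tail {a : ℕ} {l : List ℕ} (h : Pos (a :: l)) : Pos l :=
  fun b hb => h b (List.mem_cons_of_mem _ hb)

lemma Pos.head {a : ℕ} {l : List ℕ} (h : Pos (a :: l)) : (1 : ℝ) ≤ a := by
  exact_mod_cast h a (List.mem_cons_self)

lemma F_mem_Icc {l : List ℕ} (hl : Pos l) {t : ℝ} (ht : t ∈ Icc (0 : ℝ) 1) :
    F l t ∈ Icc (0 : ℝ) 1 := by
  induction l with
  | nil => exact ht
  | cons a l ih =>
    have h1 := hl.head
    obtain ⟨h2, h3⟩ := ih hl.tail
    refine ⟨?_, ?_⟩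
    · simp only [F]; positivity
    · simp only [F]; rw [div_le_one (by linarith)]; linarith

lemma F_pos {l : List ℕ} (hl : Pos l) {t : ℝ} (ht : t ∈ Ioc (0 : ℝ) 1) :
    F l t ∈ Ioc (0 : ℝ) 1 := by
  refine ⟨?_, (F_mem_Icc hl ⟨ht.1.le, ht.2⟩).2⟩
  cases l with
  | nil => exact ht.1
  | cons a l =>
    have h1 := hl.head
    have h2 := (F_mem_Icc hl.tail ⟨ht.1.le, ht.2⟩).1
    simp only [F]; positivity

lemma F_pos' {l : List ℕ} (hl : Pos l) (hne : l ≠ []) {t : ℝ} (ht : t ∈ Icc (0 : ℝ) 1) :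
    F l t ∈ Ioc (0 : ℝ) 1 := by
  refine ⟨?_, (F_mem_Icc hl ht).2⟩
  cases l with
  | nil => exact absurd rfl hne
  | cons a l =>
    have h1 := hl.head
    have h2 := (F_mem_Icc hl.tail ht).1
    simp only [F]; positivity

lemma F_mem_Ioo' {l : List ℕ} (hl : Pos l) (hne : l ≠ []) {t : ℝ} (ht : t ∈ Ioc (0 : ℝ) 1) :
    F l t ∈ Ioo (0 : ℝ) 1 := by
  cases l with
  | nil => exact absurd rfl hne
  | cons a l =>
    have h1 := hl.head
    have h2 := (F_pos hl.tail ht).1
    refine ⟨?_, ?_⟩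
    · simp only [F]; positivity
    · simp only [F]; rw [div_lt_one (by linarith)]; linarith

lemma F_mem_Ioo {l : List ℕ} (hl : Pos l) {t : ℝ} (ht : t ∈ Ioo (0 : ℝ) 1) :
    F l t ∈ Ioo (0 : ℝ) 1 := by
  cases l with
  | nil => exact ht
  | cons a l => exact F_mem_Ioo' hl (by simp) ⟨ht.1, ht.2.le⟩

lemma one_div_F_cons (a : ℕ) (l : List ℕ) (t : ℝ) : 1 / F (a :: l) t = a + F l t := by
  simp only [F, one_div, inv_inv]

lemma G_F_cons (a : ℕ) {l : List ℕ} (hl : Pos l) {t : ℝ} (ht : t ∈ Ioo (0 : ℝ) 1) :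
    G (F (a :: l) t) = F l t := by
  have h := F_mem_Ioo hl ht
  unfold G
  rw [one_div_F_cons, Int.fract_natCast_add, Int.fract_eq_self]
  exact ⟨h.1.le, h.2⟩

lemma floor_F_cons (a : ℕ) {l : List ℕ} (hl : Pos l) {t : ℝ} (ht : t ∈ Ioo (0 : ℝ) 1) :
    ⌊1 / F (a :: l) t⌋ = a := by
  have h := F_mem_Ioo hl ht
  rw [one_div_F_cons, Int.floor_natCast_add]
  have : ⌊F l t⌋ = 0 := by
    rw [Int.floor_eq_zero_iff]
    exact ⟨h.1.le, h.2⟩
  rw [this, add_zero]

lemma iter_F {l m : List ℕ} (hm : Pos m) (hl : Pos l) {t : ℝ} (ht : t ∈ Ioo (0 : ℝ) 1) :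
    G^[l.length] (F (l ++ m) t) = F m t := by
  induction l with
  | nil => rfl
  | cons a l ih =>
    rw [List.length_cons, Function.iterate_succ_apply, List.cons_append, G_F_cons a _ ht]
    · exact ih hl.tail
    · intro b hb
      rcases List.mem_append.mp hb with h | h
      · exact hl b (List.mem_cons_of_mem _ h)
      · exact hm b h

/-- the digit of `F l t` at position `n < l.length` -/
lemma digit_F {l : List ℕ} (hl : Pos l) {t : ℝ} (ht : t ∈ Ioo (0 : ℝ) 1) (n : ℕ)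
    (hn : n < l.length) : ⌊1 / (G^[n] (F l t))⌋ = (l[n] : ℕ) := by
  have h1 : l = l.take n ++ l.drop n := (List.take_append_drop n l).symm
  have h2 : l.drop n = l[n] :: l.drop (n + 1) := List.drop_eq_getElem_cons hn
  have h3 : (l.take n).length = n := by simp; omega
  have hp : Pos (l.drop n) := fun a ha => hl a (List.mem_of_mem_drop ha)
  have hp' : Pos (l.take n) := fun a ha => hl a (List.mem_of_mem_take ha)
  have h4 : G^[n] (F l t) = F (l.drop n) t := by
    have h5 := iter_F hp hp' ht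
    rw [h3, ← h1] at h5
    exact h5
  rw [h4, h2, floor_F_cons _ _ ht]
  exact fun a ha => hl a (List.mem_of_mem_drop ha)

lemma continuousOn_F {l : List ℕ} (hl : Pos l) : ContinuousOn (F l) (Icc (0 : ℝ) 1) := by
  induction l with
  | nil => exact continuousOn_id
  | cons a l ih =>
    have h1 := hl.head
    have : ContinuousOn (fun t => 1 / ((a : ℝ) + F l t)) (Icc (0 : ℝ) 1) := by
      refine continuousOn_const.div (continuousOn_const.add (ih hl.tail)) ?_
      intro t ht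
      have := (F_mem_Icc hl.tail ht).1
      positivity
    exact this

lemma exists_limit (l : ℕ → List ℕ) (hpos : ∀ k, Pos (l k))
    (hext : ∀ k, ∃ m, m ≠ [] ∧ l (k + 1) = l k ++ m) :
    ∃ g : ℝ, ∀ k, ∃ t ∈ Ioo (0 : ℝ) 1, g = F (l k) t := by
  have hm : ∀ k, ∀ m, l (k + 1) = l k ++ m → Pos m := by
    intro k m h a ha
    apply hpos (k + 1) a
    rw [h]
    exact List.mem_append_right _ ha
  obtain ⟨g, hg⟩ : (⋂ k, (F (l k)) '' Icc (0 : ℝ) 1).Nonempty := by
    apply IsCompact.nonempty_iInter_of_sequence_nonempty_isCompact_isClosed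
    · intro k
      rintro y ⟨t, ht, rfl⟩
      obtain ⟨m, _, h⟩ := hext k
      refine ⟨F m t, F_mem_Icc (hm k m h) ht, ?_⟩
      rw [h, F_append]
    · intro k
      exact ⟨F (l k) 0, 0, ⟨le_rfl, zero_le_one⟩, rfl⟩
    · exact isCompact_Icc.image_of_continuousOn (continuousOn_F (hpos 0))
    · intro k
      exact (isCompact_Icc.image_of_continuousOn (continuousOn_F (hpos k))).isClosed
  refine ⟨g, fun k => ?_⟩
  rw [mem_iInter] at hg
  obtain ⟨t, ht, h⟩ := hg (k + 2)
  obtain ⟨m, hm0, h1⟩ := hext k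
  obtain ⟨m', hm0', h2⟩ := hext (k + 1)
  have h3 := F_pos' (hm (k + 1) m' h2) hm0' ht
  have h4 := F_mem_Ioo' (hm k m h1) hm0 h3
  refine ⟨_, h4, ?_⟩
  rw [← h, h2, F_append, h1, F_append]

/-- digits of `g` tend to infinity -/
lemma tendsto_digits (g : ℝ) (l : ℕ → List ℕ) (hpos : ∀ k, Pos (l k))
    (hext : ∀ k, ∃ m, m ≠ [] ∧ l (k + 1) = l k ++ m)
    (hg : ∀ k, ∃ t ∈ Ioo (0 : ℝ) 1, g = F (l k) t)
    (hbig : ∀ K : ℕ, ∃ k0, ∀ k, k0 ≤ k → ∀ m, l (k + 1) = l k ++ m → ∀ d ∈ m, K ≤ d) :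
    Tendsto (fun n : ℕ => ⌊1 / (G^[n] g)⌋) atTop atTop := by
  have hlen : ∀ k, k ≤ (l k).length := by
    intro k
    induction k with
    | zero => exact Nat.zero_le _
    | succ k ih =>
      obtain ⟨m, hm, h⟩ := hext k
      rw [h, List.length_append]
      have := List.length_pos_iff.mpr hm
      omega
  rw [tendsto_atTop]
  intro b
  obtain ⟨k0, hk0⟩ := hbig b.toNat
  have key : ∀ j, ∃ m, l (k0 + j) = l k0 ++ m ∧ ∀ d ∈ m, b.toNat ≤ d := by
    intro j
    induction j with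
    | zero => exact ⟨[], by simp, by simp⟩
    | succ j ih =>
      obtain ⟨m, h1, h2⟩ := ih
      obtain ⟨m', h3, h4⟩ := hext (k0 + j)
      refine ⟨m ++ m', ?_, ?_⟩
      · rw [← add_assoc, h4, h1, List.append_assoc]
      · intro d hd
        rcases List.mem_append.mp hd with h | h
        · exact h2 d h
        · exact hk0 (k0 + j) (by omega) m' h4 d h
  filter_upwards [eventually_ge_atTop (l k0).length] with n hn
  obtain ⟨m, h1, h2⟩ := key (n + 1)
  obtain ⟨t, ht, h3⟩ := hg (k0 + (n + 1))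
  have hnl : n < (l (k0 + (n + 1))).length := by
    have := hlen (k0 + (n + 1)); omega
  rw [h3, digit_F (hpos _) ht n hnl]
  have h5 : ((l (k0 + (n + 1)))[n]) ∈ m := by
    have h6 : n - (l k0).length < m.length := by
      rw [h1, List.length_append] at hnl; omega
    have : (l (k0 + (n + 1)))[n] = m[n - (l k0).length] := by
      simp only [h1]
      rw [List.getElem_append_right hn]
    rw [this]
    exact List.getElem_mem h6
  have h6 := h2 _ h5
  have h7 : (b.toNat : ℤ) ≤ (((l (k0 + (n + 1)))[n] : ℕ) : ℤ) := by exact_mod_cast h6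
  exact le_trans (Int.self_le_toNat b) h7

end Pool.Agent.TH212.CFSum
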