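import Mathlib

/-!
The algebra `E = ℂ[θ][t, t⁻¹]` of difference operators, the subalgebra `D` of operators preserving
the span of `t ^ k`, `k ∈ {0, 2, 3, …}` (differential operators on the cuspidal cubic curve), its
filtration by order and its symbols.
-/

set_option autoImplicit false

open Polynomial

namespace Pool.Agent.TH212

/-- `n • p = p (θ - n)`. -/
noncomputable instance shiftAction : MulSemiringAction (Multiplicative ℤ) ℂ[X] where
  smul n p := p.comp (X - C ((Multiplicative.toAdd n : ℤ) : ℂ))
  one_smul p := by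
    change p.comp (X - C ((Multiplicative.toAdd (1 : Multiplicative ℤ) : ℤ) : ℂ)) = p
    simp
  mul_smul a b p := by
    change p.comp (X - C ((Multiplicative.toAdd (a * b) : ℤ) : ℂ)) =
      (p.comp (X - C ((Multiplicative.toAdd b : ℤ) : ℂ))).comp
        (X - C ((Multiplicative.toAdd a : ℤ) : ℂ))
    rw [comp_assoc]
    congr 1
    simp
    ring
  smul_zero a := by
    change (0 : ℂ[X]).comp _ = 0
    simp
  smul_add a p q := by
    change (p + q).comp _ = p.comp _ + q.comp _
    simp
  smul_one a := by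
    change (1 : ℂ[X]).comp _ = 1
    simp
  smul_mul a p q := by
    change (p * q).comp _ = p.comp _ * q.comp _
    simp

theorem shift_def (n : Multiplicative ℤ) (p : ℂ[X]) :
    n • p = p.comp (X - C ((Multiplicative.toAdd n : ℤ) : ℂ)) := rfl

instance shiftComm : SMulCommClass (Multiplicative ℤ) ℂ ℂ[X] where
  smul_comm a c p := by
    rw [shift_def, shift_def, smul_comp]

/-- The algebra of operators `∑ p_j(θ) t ^ j` with `t θ = (θ - 1) t`. -/
abbrev E : Type := SkewMonoidAlgebra ℂ[X] (Multiplicative ℤ)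

/-- The coefficient `p_j`. -/
noncomputable def co (f : E) (j : ℤ) : ℂ[X] := f.coeff (Multiplicative.ofAdd j)

/-- The operator `p(θ) t ^ j`. -/
noncomputable def sg (j : ℤ) (p : ℂ[X]) : E := SkewMonoidAlgebra.single (Multiplicative.ofAdd j) p

theorem sg_mul (j k : ℤ) (p q : ℂ[X]) :
    sg j p * sg k q = sg (j + k) (p * q.comp (X - C (j : ℂ))) := by
  unfold sg
  rw [SkewMonoidAlgebra.single_mul_single, shift_def]
  rfl

theorem one_eq : (1 : E) = sg 0 1 := rfl

theorem co_add (f g : E) (j : ℤ) : co (f + g) j = co f j + co g j := by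
  simp [co, SkewMonoidAlgebra.coeff_add]

theorem co_zero (j : ℤ) : co 0 j = 0 := by simp [co]

theorem co_neg (f : E) (j : ℤ) : co (-f) j = - co f j := by
  simp [co, SkewMonoidAlgebra.coeff_neg]

theorem co_sub (f g : E) (j : ℤ) : co (f - g) j = co f j - co g j := by
  simp [co, SkewMonoidAlgebra.coeff_sub]

theorem co_sum {ι : Type*} (s : Finset ι) (f : ι → E) (j : ℤ) :
    co (∑ i ∈ s, f i) j = ∑ i ∈ s, co (f i) j := by
  classical
  induction s using Finset.induction_on with
  | empty => simp [co_zero]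
  | insert a s ha ih => rw [Finset.sum_insert ha, Finset.sum_insert ha, co_add, ih]

theorem co_sg (j k : ℤ) (p : ℂ[X]) : co (sg j p) k = if j = k then p else 0 := by
  classical
  unfold co sg
  rw [SkewMonoidAlgebra.coeff_single_apply]
  simp

theorem E_ext {f g : E} (h : ∀ j, co f j = co g j) : f = g := by
  apply SkewMonoidAlgebra.ext
  intro a
  exact h (Multiplicative.toAdd a)

theorem sg_add (j : ℤ) (p q : ℂ[X]) : sg j (p + q) = sg j p + sg j q :=
  SkewMonoidAlgebra.single_add _ _ _

/-- the support of `f` as a finset of integers -/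
noncomputable def su (f : E) : Finset ℤ := f.support

theorem notMem_su {f : E} {j : ℤ} (h : j ∉ su f) : co f j = 0 :=
  SkewMonoidAlgebra.notMem_support_iff.1 h

theorem eq_sum (f : E) : f = ∑ j ∈ su f, sg j (co f j) := by
  conv_lhs => rw [← SkewMonoidAlgebra.sum_single f]
  rfl

theorem mul_eq (f g : E) :
    f * g = ∑ j ∈ su f, ∑ k ∈ su g, sg (j + k) (co f j * (co g k).comp (X - C (j : ℂ))) := by
  conv_lhs => rw [eq_sum f, eq_sum g]
  rw [Finset.sum_mul]
  refine Finset.sum_congr rfl fun j _ => ?_
  rw [Finset.mul_sum]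
  refine Finset.sum_congr rfl fun k _ => ?_
  rw [sg_mul]

/-- The index set `{0, 2, 3, 4, …}`. -/
def S : Set ℤ := {k | 0 ≤ k ∧ k ≠ 1}

/-- `f` maps the span of `t ^ k`, `k ∈ S`, to itself. -/
def InD (f : E) : Prop := ∀ j i : ℤ, i ∉ S → i - j ∈ S → (co f j).eval (i : ℂ) = 0

/-- `f` has order less than `n`. -/
def InG (n : ℕ) (f : E) : Prop := ∀ j : ℤ, (co f j).degree < n

theorem InD.zero : InD 0 := by
  intro j i _ _
  simp [co_zero]

theorem InD.add {f g : E} (hf : InD f) (hg : InD g) : InD (f + g) := by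
  intro j i h1 h2
  rw [co_add, eval_add, hf j i h1 h2, hg j i h1 h2, add_zero]

theorem InD.neg {f : E} (hf : InD f) : InD (-f) := by
  intro j i h1 h2
  rw [co_neg, eval_neg, hf j i h1 h2, neg_zero]

theorem InD.sum {ι : Type*} {s : Finset ι} {f : ι → E} (h : ∀ i ∈ s, InD (f i)) :
    InD (∑ i ∈ s, f i) := by
  intro j i h1 h2
  rw [co_sum, eval_finset_sum]
  exact Finset.sum_eq_zero fun a ha => h a ha j i h1 h2

theorem InD.mul {f g : E} (hf : InD f) (hg : InD g) : InD (f * g) := by
  classical
  rw [mul_eq]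
  refine InD.sum fun j _ => InD.sum fun k _ => ?_
  intro l i h1 h2
  rw [co_sg]
  split_ifs with h
  · rw [eval_mul, eval_comp]
    simp only [eval_sub, eval_X, eval_C]
    by_cases h3 : i - j ∈ S
    · rw [hf j i h1 h3, zero_mul]
    · have h4 := hg k (i - j) h3 (by rw [sub_sub, h]; exact h2)
      push_cast at h4
      rw [h4, mul_zero]
  · simp

theorem InG.zero (n : ℕ) : InG n 0 := by
  intro j
  rw [co_zero, degree_zero]
  exact WithBot.bot_lt_coe n

theorem InG.add {n : ℕ} {f g : E} (hf : InG n f) (hg : InG n g) : InG n (f + g) := by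
  intro j
  rw [co_add]
  exact lt_of_le_of_lt (degree_add_le _ _) (max_lt (hf j) (hg j))

theorem InG.neg {n : ℕ} {f : E} (hf : InG n f) : InG n (-f) := by
  intro j
  rw [co_neg, degree_neg]
  exact hf j

theorem InG.sum {ι : Type*} {s : Finset ι} {n : ℕ} {f : ι → E} (h : ∀ i ∈ s, InG n (f i)) :
    InG n (∑ i ∈ s, f i) := by
  classical
  induction s using Finset.induction_on with
  | empty => simpa using InG.zero n
  | insert a s ha ih =>
    rw [Finset.sum_insert ha]
    exact (h a (by simp)).add (ih fun i hi => h i (by simp [hi]))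

theorem InG.mono {n m : ℕ} (hnm : n ≤ m) {f : E} (hf : InG n f) : InG m f := by
  intro j
  exact lt_of_lt_of_le (hf j) (by exact_mod_cast hnm)

theorem InG.eq_zero {f : E} (hf : InG 0 f) : f = 0 := by
  apply E_ext
  intro j
  have h := hf j
  rw [co_zero]
  rw [Nat.cast_zero] at h
  by_contra h1
  exact absurd (zero_le_degree_iff.2 h1) (not_le.2 h)

theorem degree_comp_shift (q : ℂ[X]) (c : ℂ) : (q.comp (X - C c)).degree = q.degree := by
  by_cases hq : q = 0
  · simp [hq]
  · have h1 : q.comp (X - C c) ≠ 0 := by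
      intro h
      have h2 : (q.comp (X - C c)).comp (X + C c) = q := by
        rw [comp_assoc]
        simp
      rw [h, zero_comp] at h2
      exact hq h2.symm
    rw [degree_eq_natDegree h1, degree_eq_natDegree hq, natDegree_comp]
    simp

theorem InG.mul {n m : ℕ} {f g : E} (hf : InG (n + 1) f) (hg : InG (m + 1) g) :
    InG (n + m + 1) (f * g) := by
  classical
  rw [mul_eq]
  refine InG.sum fun j _ => InG.sum fun k _ => ?_
  intro l
  rw [co_sg]
  split_ifs with h
  · rw [degree_mul, degree_comp_shift]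
    have h1 := hf j
    have h2 := hg k
    by_cases h3 : co f j = 0
    · rw [h3, degree_zero, WithBot.bot_add]
      exact WithBot.bot_lt_coe _
    by_cases h4 : co g k = 0
    · rw [h4, degree_zero, WithBot.add_bot]
      exact WithBot.bot_lt_coe _
    rw [degree_eq_natDegree h3] at h1 ⊢
    rw [degree_eq_natDegree h4] at h2 ⊢
    norm_cast at h1 h2 ⊢
    omega
  · rw [degree_zero]
    exact WithBot.bot_lt_coe _

end Pool.Agent.TH212
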