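import Pool.Agent.TH212.CuspSym

set_option autoImplicit false

open Polynomial

namespace Pool.Agent.TH212

/-- the forced zeros in degree `-m` -/
noncomputable def T (m : ℕ) : Finset ℤ := (Finset.Icc (-(m : ℤ)) 1).filter fun i => i ≠ 1 - m ∧ i ≠ 0

theorem T_notMem {m : ℕ} (hm : 1 ≤ m) {i : ℤ} (hi : i ∈ T m) : i ∉ S := by
  simp only [T, Finset.mem_filter, Finset.mem_Icc] at hi
  simp only [S, Set.mem_ofPred_eq]
  omega

theorem T_mem {m : ℕ} {i : ℤ} (hi : i ∈ T m) : i - (-(m : ℤ)) ∈ S := by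
  simp only [T, Finset.mem_filter, Finset.mem_Icc] at hi
  simp only [S, Set.mem_ofPred_eq]
  omega

theorem T_complete {m : ℕ} {i : ℤ} (h1 : i ∉ S) (h2 : i - (-(m : ℤ)) ∈ S) : i ∈ T m := by
  simp only [T, Finset.mem_filter, Finset.mem_Icc]
  simp only [S, Set.mem_ofPred_eq] at h1 h2
  omega

theorem card_T {m : ℕ} (hm : 2 ≤ m) : (T m).card = m := by
  have h : T m = ((Finset.Icc (-(m : ℤ)) 1).erase 0).erase (1 - m) := by
    ext i
    simp only [T, Finset.mem_filter, Finset.mem_erase]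
    tauto
  rw [h, Finset.card_erase_of_mem, Finset.card_erase_of_mem, Int.card_Icc]
  · omega
  · simp
  · simp only [Finset.mem_erase, Finset.mem_Icc]
    omega

theorem card_T_one : (T 1).card = 2 := by
  have h : T 1 = {-1, 1} := by
    ext i
    simp only [T, Finset.mem_filter, Finset.mem_Icc, Finset.mem_insert, Finset.mem_singleton]
    omega
  rw [h]
  rfl

theorem le_of_zeros {p : ℂ[X]} {n : ℕ} (hp : p ≠ 0) (hd : p.degree < ((n + 1 : ℕ) : WithBot ℕ))
    (Z : Finset ℤ) (hz : ∀ i ∈ Z, p.eval (i : ℂ) = 0) : Z.card ≤ n := by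
  classical
  have h1 : (Z.image (fun i : ℤ => (i : ℂ))).val ⊆ p.roots := by
    intro x hx
    rw [Finset.mem_val, Finset.mem_image] at hx
    obtain ⟨i, hi, rfl⟩ := hx
    rw [mem_roots hp]
    exact hz i hi
  have h2 := card_le_degree_of_subset_roots h1
  rw [Finset.card_image_of_injective _ Int.cast_injective] at h2
  refine h2.trans ?_
  rw [natDegree_le_iff_degree_le]
  exact Order.le_of_lt_succ hd

/-- In degree `j` the order of a nonzero coefficient is at least `-j`. -/
theorem nonneg_of {f : E} (hD : InD f) {n : ℕ} (hG : InG (n + 1) f) {j : ℤ}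
    (h : co f j ≠ 0) : 0 ≤ j + n := by
  by_contra hcon
  push Not at hcon
  obtain ⟨m, hm⟩ : ∃ m : ℕ, j = -(m : ℤ) := ⟨j.natAbs, by omega⟩
  have hm1 : 1 ≤ m := by omega
  have h1 := le_of_zeros h (hG j) (T m) (fun i hi => hD j i (T_notMem hm1 hi) (by
    rw [hm]; exact T_mem hi))
  rcases Nat.lt_or_ge m 2 with h2 | h2
  · have : m = 1 := by omega
    subst this
    rw [card_T_one] at h1
    omega
  · rw [card_T h2] at h1
    omega

theorem nonneg_coeff {f : E} (hD : InD f) {n : ℕ} (hG : InG (n + 1) f) {j : ℤ}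
    (h : (co f j).coeff n ≠ 0) : 0 ≤ j + n := by
  apply nonneg_of hD hG
  intro h0
  rw [h0, coeff_zero] at h
  exact h rfl

theorem coeff_mul_shift {n m : ℕ} {p q : ℂ[X]} (hp : p.degree < ((n + 1 : ℕ) : WithBot ℕ))
    (hq : q.degree < ((m + 1 : ℕ) : WithBot ℕ)) (c : ℂ) :
    (p * q.comp (X - C c)).coeff (n + m) = p.coeff n * q.coeff m := by
  rw [coeff_mul_add_eq_of_natDegree_le, coeff_shift q c hq]
  · rw [natDegree_le_iff_degree_le]
    exact Order.le_of_lt_succ hp
  · rw [natDegree_le_iff_degree_le, degree_comp_shift]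
    exact Order.le_of_lt_succ hq

theorem sym_sum (n : ℕ) (f : E) :
    sym n f = ∑ j ∈ su f, mo (j + n).toNat n ((co f j).coeff n) := by
  conv_lhs => rw [eq_sum f]
  rw [map_sum]
  exact Finset.sum_congr rfl fun j _ => sym_sg n j _

theorem sym_mul {n m : ℕ} {f g : E} (hf : InD f) (hf' : InG (n + 1) f) (hg : InD g)
    (hg' : InG (m + 1) g) : sym (n + m) (f * g) = sym n f * sym m g := by
  rw [mul_eq, sym_sum n f, sym_sum m g, map_sum, Finset.sum_mul]
  refine Finset.sum_congr rfl fun j _ => ?_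
  rw [map_sum, Finset.mul_sum]
  refine Finset.sum_congr rfl fun k _ => ?_
  rw [sym_sg, coeff_mul_shift (hf' j) (hg' k), mo_mul]
  by_cases h1 : (co f j).coeff n = 0
  · rw [h1, zero_mul, mo_zero, mo_zero]
  by_cases h2 : (co g k).coeff m = 0
  · rw [h2, mul_zero, mo_zero, mo_zero]
  have h3 := nonneg_coeff hf hf' h1
  have h4 := nonneg_coeff hg hg' h2
  congr 1
  push_cast
  omega

/-- difference of a polynomial and its shift -/
theorem shift_sub_degree {m : ℕ} {q : ℂ[X]} (hq : q.degree < ((m + 1 : ℕ) : WithBot ℕ)) (c : ℂ) :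
    (q.comp (X - C c) - q).degree < (m : WithBot ℕ) := by
  rw [degree_lt_iff_coeff_zero]
  intro k hk
  rw [coeff_sub]
  have h1 : q.degree < ((k + 1 : ℕ) : WithBot ℕ) := lt_of_lt_of_le hq (by
    norm_cast
    omega)
  rw [coeff_shift q c h1, sub_self]

theorem sg_sub (j : ℤ) (p q : ℂ[X]) : sg j (p - q) = sg j p - sg j q := by
  apply E_ext
  intro k
  rw [co_sub, co_sg, co_sg, co_sg]
  split_ifs <;> simp

theorem comm_eq (j k : ℤ) (p q : ℂ[X]) :
    p * q.comp (X - C (j : ℂ)) - q * p.comp (X - C (k : ℂ)) =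
      p * (q.comp (X - C (j : ℂ)) - q) - q * (p.comp (X - C (k : ℂ)) - p) := by ring

theorem comm_sum (f g : E) : f * g - g * f = ∑ j ∈ su f, ∑ k ∈ su g,
    sg (j + k) (co f j * ((co g k).comp (X - C (j : ℂ)) - co g k) -
      co g k * ((co f j).comp (X - C (k : ℂ)) - co f j)) := by
  have h2 : g * f = ∑ j ∈ su f, ∑ k ∈ su g,
      sg (k + j) (co g k * (co f j).comp (X - C (k : ℂ))) := by
    rw [mul_eq g f, Finset.sum_comm]
  rw [mul_eq f g, h2, ← Finset.sum_sub_distrib]
  refine Finset.sum_congr rfl fun j _ => ?_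
  rw [← Finset.sum_sub_distrib]
  refine Finset.sum_congr rfl fun k _ => ?_
  rw [← comm_eq, add_comm k j]
  rw [sg_sub]

theorem degree_mul_lt {n m : ℕ} {p q : ℂ[X]} (hp : p.degree < ((n + 1 : ℕ) : WithBot ℕ))
    (hq : q.degree < (m : WithBot ℕ)) : (p * q).degree < ((n + m : ℕ) : WithBot ℕ) := by
  by_cases h3 : p = 0
  · rw [h3, zero_mul, degree_zero]
    exact WithBot.bot_lt_coe _
  by_cases h4 : q = 0
  · rw [h4, mul_zero, degree_zero]
    exact WithBot.bot_lt_coe _
  rw [degree_mul]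
  rw [degree_eq_natDegree h3] at hp ⊢
  rw [degree_eq_natDegree h4] at hq ⊢
  norm_cast at hp hq ⊢
  omega

theorem comm_degree {n m : ℕ} {p q : ℂ[X]} (hp : p.degree < ((n + 1 : ℕ) : WithBot ℕ))
    (hq : q.degree < ((m + 1 : ℕ) : WithBot ℕ)) (c d : ℂ) :
    (p * (q.comp (X - C c) - q) - q * (p.comp (X - C d) - p)).degree <
      ((n + m : ℕ) : WithBot ℕ) := by
  have h1 := degree_mul_lt hp (shift_sub_degree hq c)
  have h2 := degree_mul_lt hq (shift_sub_degree hp d)
  rw [add_comm m n] at h2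
  exact lt_of_le_of_lt (degree_sub_le _ _) (max_lt h1 h2)

theorem InG.comm {n m : ℕ} {f g : E} (hf : InG (n + 1) f) (hg : InG (m + 1) g) :
    InG (n + m) (f * g - g * f) := by
  classical
  rw [comm_sum]
  refine InG.sum fun j _ => InG.sum fun k _ => ?_
  intro l
  rw [co_sg]
  split_ifs with h
  · exact comm_degree (hf j) (hg k) _ _
  · rw [degree_zero]
    exact WithBot.bot_lt_coe _

theorem shift_sub_coeff {m : ℕ} {q : ℂ[X]} (hq : q.degree < ((m + 2 : ℕ) : WithBot ℕ)) (c : ℂ) :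
    (q.comp (X - C c) - q).coeff m = - c * (m + 1) * q.coeff (m + 1) := by
  rw [coeff_sub, coeff_shift' q c hq]
  ring

/-- coefficient of the product `p (q(θ - c) - q)` in degree `n + m - 1` -/
theorem half_coeff {n m N : ℕ} {p q : ℂ[X]} (hp : p.degree < ((n + 1 : ℕ) : WithBot ℕ))
    (hq : q.degree < ((m + 1 : ℕ) : WithBot ℕ)) (c : ℂ) (hN : N + 1 = n + m) :
    (p * (q.comp (X - C c) - q)).coeff N = - c * m * (p.coeff n * q.coeff m) := by
  rcases m with _ | m
  · have h1 : q.comp (X - C c) - q = 0 := by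
      have h2 := shift_sub_degree hq c
      rw [Nat.cast_zero] at h2
      by_contra h1
      exact absurd (zero_le_degree_iff.2 h1) (not_le.2 h2)
    rw [h1]
    simp
  · have h3 : N = n + m := by omega
    have h4 := shift_sub_degree hq c
    rw [h3, coeff_mul_add_eq_of_natDegree_le, shift_sub_coeff hq]
    · push_cast
      ring
    · rw [natDegree_le_iff_degree_le]
      exact Order.le_of_lt_succ hp
    · rw [natDegree_le_iff_degree_le]
      exact Order.le_of_lt_succ h4

theorem sym_comm {n m N : ℕ} {f g : E} (hf : InD f) (hf' : InG (n + 1) f) (hg : InD g)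
    (hg' : InG (m + 1) g) (hN : N + 1 = n + m) :
    sym N (f * g - g * f) = pb (sym n f) (sym m g) := by
  rw [comm_sum, sym_sum n f, sym_sum m g, map_sum, map_sum (pb), LinearMap.sum_apply]
  refine Finset.sum_congr rfl fun j _ => ?_
  rw [map_sum, map_sum]
  refine Finset.sum_congr rfl fun k _ => ?_
  rw [sym_sg, coeff_sub, half_coeff (hf' j) (hg' k) _ hN,
    half_coeff (hg' k) (hf' j) _ (by omega), pb_mo]
  by_cases h1 : (co f j).coeff n = 0
  · rw [h1]
    simp [mo_zero]
  by_cases h2 : (co g k).coeff m = 0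
  · rw [h2]
    simp [mo_zero]
  have h3 := nonneg_coeff hf hf' h1
  have h4 := nonneg_coeff hg hg' h2
  obtain ⟨a, ha⟩ : ∃ a : ℕ, j + n = a := ⟨(j + n).toNat, by omega⟩
  obtain ⟨b, hb⟩ : ∃ b : ℕ, k + m = b := ⟨(k + m).toNat, by omega⟩
  have ha' : j = a - n := by omega
  have hb' : k = b - m := by omega
  subst ha' hb'
  have e1 : ((a : ℤ) - n + n).toNat = a := by omega
  have e2 : ((b : ℤ) - m + m).toNat = b := by omega
  have e3 : ((a : ℤ) - n + (b - m) + N).toNat = a + b - 1 := by omega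
  have e4 : n + m - 1 = N := by omega
  rw [e1, e2, e3, e4]
  congr 1
  push_cast
  ring

end Pool.Agent.TH212
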