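import Pool.Agent.TH212.CuspRees

set_option autoImplicit false

open Polynomial

namespace Pool.Agent.TH212

theorem sym_eq_zero {n : ℕ} {f : E} (h : InG n f) : sym n f = 0 := by
  rw [sym_sum]
  refine Finset.sum_eq_zero fun j _ => ?_
  rw [coeff_eq_zero_of_degree_lt (h j), mo_zero]

/-- the series of symbols -/
noncomputable def Sym (a : PowerSeries E) : PowerSeries R :=
  PowerSeries.mk fun n => sym n (PowerSeries.coeff n a)

theorem coeff_Sym (a : PowerSeries E) (n : ℕ) :
    PowerSeries.coeff n (Sym a) = sym n (PowerSeries.coeff n a) := by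
  rw [Sym, PowerSeries.coeff_mk]

theorem Sym_add (a b : PowerSeries E) : Sym (a + b) = Sym a + Sym b := by
  refine PowerSeries.ext fun n => ?_
  rw [map_add, coeff_Sym, coeff_Sym, coeff_Sym, map_add, map_add]

theorem Sym_mul {a b : PowerSeries E} (ha : InA a) (hb : InA b) :
    Sym (a * b) = Sym a * Sym b := by
  refine PowerSeries.ext fun n => ?_
  rw [coeff_Sym, PowerSeries.coeff_mul, PowerSeries.coeff_mul, map_sum]
  refine Finset.sum_congr rfl fun p hp => ?_
  rw [Finset.HasAntidiagonal.mem_antidiagonal] at hp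
  rw [coeff_Sym, coeff_Sym, ← hp, sym_mul (ha.1 _) (ha.2.1 _) (hb.1 _) (hb.2.1 _)]

theorem exists_poly {a : PowerSeries E} (ha : InA a) :
    ∃ p : R[X], (p : PowerSeries R) = Sym a := by
  obtain ⟨n₀, h0⟩ := ha.2.2 1
  refine ⟨PowerSeries.trunc n₀ (Sym a), ?_⟩
  refine PowerSeries.ext fun n => ?_
  rw [Polynomial.coeff_coe, PowerSeries.coeff_trunc]
  split_ifs with h
  · rfl
  · rw [coeff_Sym, sym_eq_zero]
    exact (h0 n (by omega)).mono (by omega)

/-- the polynomial of symbols -/
noncomputable def poly (a : AA) : R[X] := (exists_poly a.2).choose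

theorem poly_spec (a : AA) : (poly a : PowerSeries R) = Sym a := (exists_poly a.2).choose_spec

theorem poly_unique {a : AA} {p : R[X]} (h : (p : PowerSeries R) = Sym a) : p = poly a := by
  apply Polynomial.coe_injective
  rw [h, poly_spec]

theorem poly_add (a b : AA) : poly (a + b) = poly a + poly b := by
  symm
  apply poly_unique
  rw [Polynomial.coe_add, poly_spec, poly_spec]
  exact (Sym_add _ _).symm

theorem poly_mul (a b : AA) : poly (a * b) = poly a * poly b := by
  symm
  apply poly_unique
  rw [Polynomial.coe_mul, poly_spec, poly_spec]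
  exact (Sym_mul a.2 b.2).symm

theorem sym_cE (n : ℕ) (c : ℂ) : sym n (cE c) = if n = 0 then MvPolynomial.C c else 0 := by
  rw [cE_apply, sym_sg, coeff_C]
  split_ifs with h
  · subst h
    have e : ((0 : ℤ) + ((0 : ℕ) : ℤ)).toNat = 0 := by norm_num
    have e2 : ex 0 0 = 0 := by
      unfold ex
      rw [Finsupp.single_zero, Finsupp.single_zero, add_zero]
    rw [e, mo, e2, MvPolynomial.C_apply]
  · exact mo_zero _ _

theorem poly_cP (c : PowerSeries ℂ) :
    poly (algebraMap (PowerSeries ℂ) AA c) =
      C (MvPolynomial.C (PowerSeries.constantCoeff c)) := by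
  symm
  apply poly_unique
  refine PowerSeries.ext fun n => ?_
  rw [coeff_Sym]
  change _ = sym n (PowerSeries.coeff n (cP c))
  simp only [cP, PowerSeries.coeff_map]
  rw [sym_cE, Polynomial.coeff_coe, coeff_C]
  split_ifs with h
  · subst h
    simp
  · rfl

theorem poly_one : poly 1 = 1 := by
  have h := poly_cP 1
  rw [map_one] at h
  rw [h]
  simp

theorem poly_zero : poly 0 = 0 := by
  have h := poly_cP 0
  rw [map_zero] at h
  rw [h]
  simp

/-- the principal symbol -/
noncomputable def piR : AA →+* R where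
  toFun a := (poly a).eval 1
  map_one' := by rw [poly_one, eval_one]
  map_mul' a b := by rw [poly_mul, eval_mul]
  map_zero' := by rw [poly_zero, eval_zero]
  map_add' a b := by rw [poly_add, eval_add]

theorem piR_apply (a : AA) : piR a = (poly a).eval 1 := rfl

theorem coeff_poly (a : AA) (n : ℕ) :
    (poly a).coeff n = sym n (PowerSeries.coeff n (a : PowerSeries E)) := by
  rw [← Polynomial.coeff_coe, poly_spec, coeff_Sym]

theorem piR_sum (a : AA) : piR a = ∑ n ∈ (poly a).support,
    sym n (PowerSeries.coeff n (a : PowerSeries E)) := by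
  rw [piR_apply, eval_eq_sum, Polynomial.sum]
  refine Finset.sum_congr rfl fun n _ => ?_
  rw [one_pow, mul_one, coeff_poly]

theorem coeff_mo (a b c d : ℕ) (z : ℂ) :
    MvPolynomial.coeff (ex c d) (mo a b z) = if a = c ∧ b = d then z else 0 := by
  classical
  unfold mo
  rw [MvPolynomial.coeff_monomial]
  by_cases h : a = c ∧ b = d
  · rw [if_pos h, h.1, h.2, if_pos rfl]
  · rw [if_neg h, if_neg]
    intro h1
    exact h (ex_inj h1)

theorem coeff_sym_ne {n d : ℕ} (h : n ≠ d) (f : E) (c : ℕ) :
    MvPolynomial.coeff (ex c d) (sym n f) = 0 := by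
  rw [sym_sum, MvPolynomial.coeff_sum]
  refine Finset.sum_eq_zero fun j _ => ?_
  rw [coeff_mo, if_neg]
  tauto

theorem coeff_sym {n : ℕ} {f : E} (hf : InD f) (hf' : InG (n + 1) f) (c : ℕ) :
    MvPolynomial.coeff (ex c n) (sym n f) = (co f (c - n)).coeff n := by
  classical
  rw [sym_sum, MvPolynomial.coeff_sum]
  by_cases hc : (c : ℤ) - n ∈ su f
  · rw [Finset.sum_eq_single_of_mem _ hc]
    · rw [coeff_mo, if_pos]
      constructor <;> omega
    · intro j _ hj
      rw [coeff_mo]
      split_ifs with h
      · by_contra h1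
        have h2 := nonneg_coeff hf hf' h1
        omega
      · rfl
  · rw [notMem_su hc, coeff_zero]
    refine Finset.sum_eq_zero fun j hj => ?_
    rw [coeff_mo]
    split_ifs with h
    · by_contra h1
      have h2 := nonneg_coeff hf hf' h1
      apply hc
      have : (c : ℤ) - n = j := by omega
      rw [this]
      exact hj
    · rfl

theorem coeff_piR (a : AA) (c n : ℕ) :
    MvPolynomial.coeff (ex c n) (piR a) =
      (co (PowerSeries.coeff n (a : PowerSeries E)) (c - n)).coeff n := by
  classical
  rw [piR_sum, MvPolynomial.coeff_sum]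
  rw [← coeff_sym (a.2.1 n) (a.2.2.1 n)]
  by_cases hn : n ∈ (poly a).support
  · rw [Finset.sum_eq_single_of_mem _ hn]
    intro m _ hm
    exact coeff_sym_ne hm _ _
  · rw [Polynomial.notMem_support_iff, coeff_poly] at hn
    rw [hn, MvPolynomial.coeff_zero]
    refine Finset.sum_eq_zero fun m hm => ?_
    by_cases h : m = n
    · subst h
      rw [hn, MvPolynomial.coeff_zero]
    · exact coeff_sym_ne h _ _

theorem ker_piR {a : AA} (h : piR a = 0) : ∃ b : AA, (PowerSeries.X : PowerSeries ℂ) • b = a := by
  have h1 : InK 1 (a : PowerSeries E) := by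
    intro n
    have e : n + 1 - 1 = n := by omega
    rw [e]
    intro j
    by_cases hz : co (PowerSeries.coeff n (a : PowerSeries E)) j = 0
    · rw [hz, degree_zero]
      exact WithBot.bot_lt_coe _
    have h2 := nonneg_of (a.2.1 n) (a.2.2.1 n) hz
    have h3 := coeff_piR a (j + n).toNat n
    rw [h, MvPolynomial.coeff_zero] at h3
    have e2 : (((j + n).toNat : ℕ) : ℤ) - n = j := by omega
    rw [e2] at h3
    have h4 := a.2.2.1 n j
    rw [degree_lt_iff_coeff_zero] at h4 ⊢
    intro m hm
    rcases Nat.lt_or_ge n m with h5 | h5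
    · exact h4 m h5
    · have : m = n := by omega
      rw [this]
      exact h3.symm
  obtain ⟨b, hb⟩ := exists_div h1
  rw [pow_one] at hb
  exact ⟨b, hb⟩

theorem piR_X_smul (b : AA) : piR ((PowerSeries.X : PowerSeries ℂ) • b) = 0 := by
  rw [Algebra.smul_def, map_mul, piR_apply (algebraMap _ _ _), poly_cP]
  simp

theorem piR_smul (c : PowerSeries ℂ) (b : AA) :
    piR (c • b) = MvPolynomial.C (PowerSeries.constantCoeff c) * piR b := by
  rw [Algebra.smul_def, map_mul, piR_apply (algebraMap _ _ _), poly_cP]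
  simp

end Pool.Agent.TH212
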