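import Pool.Agent.TH212.CuspVar

set_option autoImplicit false

open Polynomial

namespace Pool.Agent.TH212

/-! ### Elements concentrated in one power of `ħ` -/

theorem InA_monomial {n : ℕ} {f : E} (hf : InD f) (hf' : InG (n + 1) f) :
    InA (PowerSeries.monomial n f) := by
  classical
  refine ⟨fun m => ?_, fun m => ?_, fun N => ⟨n + 1, fun m hm => ?_⟩⟩
  · rw [PowerSeries.coeff_monomial]
    split_ifs
    · exact hf
    · exact InD.zero
  · rw [PowerSeries.coeff_monomial]
    split_ifs with h
    · rw [h]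
      exact hf'
    · exact InG.zero _
  · rw [PowerSeries.coeff_monomial, if_neg (by omega)]
    exact InG.zero _

/-- the element `ħ ^ n f` -/
noncomputable def el (n : ℕ) (f : E) (hf : InD f) (hf' : InG (n + 1) f) : AA :=
  ⟨PowerSeries.monomial n f, InA_monomial hf hf'⟩

theorem piR_el {n : ℕ} {f : E} (hf : InD f) (hf' : InG (n + 1) f) :
    piR (el n f hf hf') = sym n f := by
  have h : (Polynomial.monomial n (sym n f) : R[X]) = poly (el n f hf hf') := by
    apply poly_unique
    refine PowerSeries.ext fun m => ?_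
    rw [coeff_Sym, Polynomial.coeff_coe, Polynomial.coeff_monomial]
    change _ = sym m (PowerSeries.coeff m (PowerSeries.monomial n f))
    rw [PowerSeries.coeff_monomial]
    by_cases hmn : n = m
    · rw [if_pos hmn, if_pos hmn.symm, hmn]
    · rw [if_neg hmn, if_neg (Ne.symm hmn), map_zero]
  rw [piR_apply, ← h, Polynomial.eval_monomial, one_pow, mul_one]

theorem InD_sg {j : ℤ} {p : ℂ[X]} (h : ∀ i : ℤ, i ∉ S → i - j ∈ S → p.eval (i : ℂ) = 0) :
    InD (sg j p) := by
  intro k i h1 h2
  rw [co_sg]
  split_ifs with hk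
  · subst hk
    exact h i h1 h2
  · simp

theorem InG_sg {n : ℕ} {j : ℤ} {p : ℂ[X]} (h : p.natDegree < n) : InG n (sg j p) := by
  intro k
  rw [co_sg]
  split_ifs
  · exact lt_of_le_of_lt degree_le_natDegree (by exact_mod_cast h)
  · rw [degree_zero]
    exact WithBot.bot_lt_coe _

/-- every monomial of the allowed kind is a principal symbol -/
theorem exists_lift_mo {a b : ℕ} (h : ¬ (a = 1 ∧ b = 0)) (h' : ¬ (a = 0 ∧ b = 1)) (c : ℂ) :
    ∃ x : AA, piR x = mo a b c := by
  classical
  obtain ⟨Z, hZ, hcard⟩ : ∃ Z : Finset ℤ, (∀ i : ℤ, i ∉ S → i - ((a : ℤ) - b) ∈ S → i ∈ Z) ∧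
      Z.card ≤ b := by
    rcases Nat.lt_or_ge a b with hab | hab
    · refine ⟨T (b - a), fun i h1 h2 => ?_, ?_⟩
      · apply T_complete h1
        have e : i - (-((b - a : ℕ) : ℤ)) = i - ((a : ℤ) - b) := by omega
        rw [e]
        exact h2
      · rcases Nat.lt_or_ge (b - a) 2 with h3 | h3
        · have e : b - a = 1 := by omega
          rw [e, card_T_one]
          omega
        · rw [card_T h3]
          omega
    · by_cases hab1 : a = b + 1
      · refine ⟨{1}, fun i h1 h2 => ?_, ?_⟩
        · simp only [S, Set.mem_ofPred_eq] at h1 h2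
          rw [Finset.mem_singleton]
          omega
        · rw [Finset.card_singleton]
          omega
      · refine ⟨∅, fun i h1 h2 => ?_, by simp⟩
        simp only [S, Set.mem_ofPred_eq] at h1 h2
        omega
  set q : ℂ[X] := (∏ i ∈ Z, (X - C (i : ℂ))) * X ^ (b - Z.card) with hq
  have hm1 : (∏ i ∈ Z, (X - C (i : ℂ))).Monic := monic_prod_of_monic _ _ fun i _ => monic_X_sub_C _
  have hd1 : (∏ i ∈ Z, (X - C (i : ℂ))).natDegree = Z.card := by
    rw [natDegree_prod_of_monic _ _ fun i _ => monic_X_sub_C _,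
      Finset.sum_congr rfl fun i _ => natDegree_X_sub_C _]
    simp
  have hm : q.Monic := hm1.mul (monic_X_pow _)
  have hd : q.natDegree = b := by
    rw [hq, hm1.natDegree_mul (monic_X_pow _), hd1, natDegree_X_pow]
    omega
  have hD : InD (sg ((a : ℤ) - b) (C c * q)) := by
    apply InD_sg
    intro i h1 h2
    rw [eval_mul, hq, eval_mul, eval_prod]
    have h3 : ∏ j ∈ Z, eval (i : ℂ) (X - C (j : ℂ)) = 0 := by
      apply Finset.prod_eq_zero (hZ i h1 h2)
      simp
    rw [h3]
    ring
  have hG : InG (b + 1) (sg ((a : ℤ) - b) (C c * q)) := by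
    apply InG_sg
    refine lt_of_le_of_lt (natDegree_C_mul_le _ _) ?_
    omega
  refine ⟨el b _ hD hG, ?_⟩
  rw [piR_el, sym_sg, coeff_C_mul]
  have e1 : q.coeff b = 1 := by
    rw [← hd]
    exact hm
  have e2 : ((a : ℤ) - b + b).toNat = a := by omega
  rw [e1, e2, mul_one]

theorem coeff_pd (f : R) (i : Fin 2) :
    MvPolynomial.constantCoeff (MvPolynomial.pderiv i f) =
      MvPolynomial.coeff (Finsupp.single i 1) f := by
  rw [MvPolynomial.constantCoeff_eq, MvPolynomial.coeff_pderiv]
  simp

theorem single_zero_eq : (Finsupp.single (0 : Fin 2) 1 : Fin 2 →₀ ℕ) = ex 1 0 := by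
  simp [ex]

theorem single_one_eq : (Finsupp.single (1 : Fin 2) 1 : Fin 2 →₀ ℕ) = ex 0 1 := by
  simp [ex]

theorem piR_mem (a : AA) : piR a ∈ OX := by
  have h0 : MvPolynomial.coeff (ex 1 0) (piR a) = 0 := by
    rw [coeff_piR]
    have hD := a.2.1 0 1 1 (by simp [S]) (by simp [S])
    have hG := a.2.2.1 0 1
    have h1 : (co (PowerSeries.coeff 0 (a : PowerSeries E)) 1).natDegree ≤ 0 := by
      rw [natDegree_le_iff_degree_le]
      exact Order.le_of_lt_succ hG
    rw [eq_C_of_natDegree_le_zero h1, eval_C] at hD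
    simpa using hD
  have h1 : MvPolynomial.coeff (ex 0 1) (piR a) = 0 := by
    rw [coeff_piR]
    by_contra hcon
    have hne : co (PowerSeries.coeff 1 (a : PowerSeries E)) (((0 : ℕ) : ℤ) - ((1 : ℕ) : ℤ)) ≠ 0 := by
      intro h
      rw [h, coeff_zero] at hcon
      exact hcon rfl
    have h2 := le_of_zeros hne (a.2.2.1 1 _) (T 1) (fun i hi => a.2.1 1 _ i (T_notMem le_rfl hi) (by
      have h3 := T_mem hi
      simpa using h3))
    rw [card_T_one] at h2
    omega
  intro i
  rw [coeff_pd]
  fin_cases i
  · change MvPolynomial.coeff (Finsupp.single (0 : Fin 2) 1) (piR a) = 0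
    rw [single_zero_eq]
    exact h0
  · change MvPolynomial.coeff (Finsupp.single (1 : Fin 2) 1) (piR a) = 0
    rw [single_one_eq]
    exact h1

/-- The projection of the completed Rees algebra onto `ℂ + (x, y) ^ 2`. -/
noncomputable def piO : AA →+* OX := piR.codRestrict OX piR_mem

theorem piO_val (a : AA) : ((piO a : OX) : R) = piR a := rfl

theorem piO_surjective : Function.Surjective piO := by
  classical
  rintro ⟨f, hf⟩
  have h : ∀ s : Finset (Fin 2 →₀ ℕ), s ⊆ f.support →
      ∃ x : AA, piR x = ∑ m ∈ s, MvPolynomial.monomial m (MvPolynomial.coeff m f) := by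
    intro s
    induction s using Finset.induction_on with
    | empty =>
      intro _
      exact ⟨0, by simp⟩
    | insert m s hm ih =>
      intro hs
      obtain ⟨x, hx⟩ := ih (fun t ht => hs (by simp [ht]))
      have hm' : MvPolynomial.coeff m f ≠ 0 := by
        rw [← MvPolynomial.mem_support_iff]
        exact hs (by simp)
      have h0 := hf 0
      have h1 := hf 1
      rw [coeff_pd, single_zero_eq] at h0
      rw [coeff_pd, single_one_eq] at h1
      obtain ⟨y, hy⟩ := exists_lift_mo (a := m 0) (b := m 1)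
        (by
          rintro ⟨e1, e2⟩
          apply hm'
          rw [← ex_eta m, e1, e2]
          exact h0)
        (by
          rintro ⟨e1, e2⟩
          apply hm'
          rw [← ex_eta m, e1, e2]
          exact h1) (MvPolynomial.coeff m f)
      refine ⟨y + x, ?_⟩
      rw [Finset.sum_insert hm, map_add, hx, hy, mo, ex_eta]
  obtain ⟨x, hx⟩ := h f.support subset_rfl
  refine ⟨x, ?_⟩
  apply Subtype.ext
  rw [piO_val, hx]
  exact MvPolynomial.support_sum_monomial_coeff f

/-! ### Compatibility with the Poisson bracket -/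

/-- bracket of two polynomials with coefficients in `R` -/
noncomputable def bb (p q : R[X]) : R[X] :=
  ∑ n ∈ p.support, ∑ m ∈ q.support, monomial (n + m) (pb (p.coeff n) (q.coeff m))

theorem eval_bb (p q : R[X]) : (bb p q).eval 1 = pb (p.eval 1) (q.eval 1) := by
  have hp : p.eval 1 = ∑ n ∈ p.support, p.coeff n := by
    rw [eval_eq_sum, Polynomial.sum]
    simp
  have hq : q.eval 1 = ∑ n ∈ q.support, q.coeff n := by
    rw [eval_eq_sum, Polynomial.sum]
    simp
  rw [hp, hq, bb, eval_finsetSum, map_sum pb, LinearMap.sum_apply]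
  refine Finset.sum_congr rfl fun n _ => ?_
  rw [eval_finsetSum, map_sum]
  refine Finset.sum_congr rfl fun m _ => ?_
  simp

theorem coeff_bb (p q : R[X]) (k : ℕ) :
    (bb p q).coeff k = ∑ x ∈ Finset.HasAntidiagonal.antidiagonal k, pb (p.coeff x.1) (q.coeff x.2) := by
  classical
  rw [bb, finsetSum_coeff]
  simp only [finsetSum_coeff, coeff_monomial]
  rw [← Finset.sum_product', ← Finset.sum_filter]
  refine Finset.sum_subset_zero_on_sdiff ?_ ?_ ?_
  · intro x hx
    simp only [Finset.mem_filter, Finset.HasAntidiagonal.mem_antidiagonal] at hx ⊢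
    exact hx.2
  · intro x hx
    simp only [Finset.mem_sdiff, Finset.mem_filter, Finset.mem_product,
      Finset.HasAntidiagonal.mem_antidiagonal, mem_support_iff] at hx
    by_cases h1 : p.coeff x.1 = 0
    · rw [h1, map_zero, LinearMap.zero_apply]
    by_cases h2 : q.coeff x.2 = 0
    · rw [h2, map_zero]
    exact absurd ⟨⟨h1, h2⟩, hx.1⟩ hx.2
  · intro x _
    rfl

theorem coeff_comm (a b : PowerSeries E) (n : ℕ) :
    PowerSeries.coeff n (a * b - b * a) = ∑ x ∈ Finset.HasAntidiagonal.antidiagonal n,
      (PowerSeries.coeff x.1 a * PowerSeries.coeff x.2 b -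
        PowerSeries.coeff x.2 b * PowerSeries.coeff x.1 a) := by
  rw [map_sub, PowerSeries.coeff_mul, PowerSeries.coeff_mul,
    ← Finset.Nat.sum_antidiagonal_swap (f := fun x => PowerSeries.coeff x.1 b *
      PowerSeries.coeff x.2 a), ← Finset.sum_sub_distrib]
  rfl

theorem sym_zero_pb {f g : E} (hf : InD f) (hf' : InG 1 f) (hg : InD g) (hg' : InG 1 g) :
    pb (sym 0 f) (sym 0 g) = 0 := by
  rw [sym_sum, sym_sum, map_sum pb, LinearMap.sum_apply]
  refine Finset.sum_eq_zero fun j _ => ?_
  rw [map_sum]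
  refine Finset.sum_eq_zero fun k _ => ?_
  rw [pb_mo]
  simp [mo_zero]

theorem bracket_compat (a b : AA) : ∃ c : AA,
    a * b - b * a = (PowerSeries.X : PowerSeries ℂ) • c ∧ piR c = pb (piR a) (piR b) := by
  have hK : InK 1 ((a * b - b * a : AA) : PowerSeries E) := by
    intro n
    change InG _ (PowerSeries.coeff n ((a : PowerSeries E) * (b : PowerSeries E) -
      (b : PowerSeries E) * (a : PowerSeries E)))
    rw [coeff_comm]
    refine InG.sum fun x hx => ?_
    rw [Finset.HasAntidiagonal.mem_antidiagonal] at hx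
    have h := (a.2.2.1 x.1).comm (b.2.2.1 x.2)
    rw [hx] at h
    exact h
  obtain ⟨c, hc⟩ := exists_div hK
  rw [pow_one] at hc
  refine ⟨c, hc.symm, ?_⟩
  have hcoe : ((a : PowerSeries E) * (b : PowerSeries E) - (b : PowerSeries E) *
      (a : PowerSeries E)) = PowerSeries.X * (c : PowerSeries E) := by
    rw [← X_smul_val, hc]
    rfl
  have key : X * poly c = bb (poly a) (poly b) := by
    ext1 k
    rw [coeff_bb]
    rcases k with _ | k
    · rw [mul_coeff_zero, coeff_X_zero, zero_mul]
      rw [Finset.HasAntidiagonal.antidiagonal_zero, Finset.sum_singleton]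
      rw [coeff_poly, coeff_poly, sym_zero_pb (a.2.1 0) (a.2.2.1 0) (b.2.1 0) (b.2.2.1 0)]
    · rw [coeff_X_mul, coeff_poly]
      have h1 := congrArg (PowerSeries.coeff (k + 1)) hcoe
      rw [PowerSeries.coeff_succ_X_mul, coeff_comm] at h1
      rw [← h1, map_sum]
      refine Finset.sum_congr rfl fun x hx => ?_
      rw [Finset.HasAntidiagonal.mem_antidiagonal] at hx
      rw [sym_comm (a.2.1 _) (a.2.2.1 _) (b.2.1 _) (b.2.2.1 _) hx.symm, coeff_poly, coeff_poly]
  rw [piR_apply, piR_apply, piR_apply, ← eval_bb, ← key, eval_mul, eval_X, one_mul]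

theorem quantization : IsDeformationQuantization PO piO where
  complete := complete
  torsionFree := torsion_free
  surjective := piO_surjective
  ker := by
    intro a
    constructor
    · intro h
      have h1 : piR a = 0 := congrArg Subtype.val h
      obtain ⟨b, hb⟩ := ker_piR h1
      exact ⟨b, hb.symm⟩
    · rintro ⟨b, rfl⟩
      apply Subtype.ext
      exact piR_X_smul b
  linear := by
    intro c a
    apply Subtype.ext
    change piR _ = c • piR a
    rw [piR_smul, PowerSeries.constantCoeff_C, MvPolynomial.smul_eq_C_mul]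
  bracket := by
    intro a b
    obtain ⟨c, h1, h2⟩ := bracket_compat a b
    refine ⟨c, h1, ?_⟩
    apply Subtype.ext
    exact h2

end Pool.Agent.TH212
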