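import Pool.Agent.TH212.CuspMul

set_option autoImplicit false

open Polynomial

namespace Pool.Agent.TH212

/-- The `ħ`-completed Rees algebra of `D`: series `∑ ħ ^ n f_n` with `f_n ∈ D` of order at most `n`
and `n - ord f_n → ∞`. -/
def InA (f : PowerSeries E) : Prop :=
  (∀ n, InD (PowerSeries.coeff n f)) ∧ (∀ n, InG (n + 1) (PowerSeries.coeff n f)) ∧
    ∀ N, ∃ n₀, ∀ n, n₀ ≤ n → InG (n + 1 - N) (PowerSeries.coeff n f)

theorem InG.mul' {a b : ℕ} {f g : E} (hf : InG a f) (hg : InG b g) : InG (a + b - 1) (f * g) := by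
  rcases a with _ | a
  · rw [hf.eq_zero, zero_mul]
    exact InG.zero _
  rcases b with _ | b
  · rw [hg.eq_zero, mul_zero]
    exact InG.zero _
  have h := hf.mul hg
  have e : a + 1 + (b + 1) - 1 = a + b + 1 := by omega
  rw [e]
  exact h

theorem InG.mulN {i j N n : ℕ} {f g : E} (hf : InG (i + 1 - N) f) (hg : InG (j + 1) g)
    (hn : i + j = n) : InG (n + 1 - N) (f * g) := by
  rcases Nat.lt_or_ge (i + 1) N with h | h
  · have e : i + 1 - N = 0 := by omega
    rw [e] at hf
    rw [hf.eq_zero, zero_mul]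
    exact InG.zero _
  · have h1 := hf.mul' hg
    exact h1.mono (by omega)

theorem InG.mulN' {i j N n : ℕ} {f g : E} (hf : InG (i + 1) f) (hg : InG (j + 1 - N) g)
    (hn : i + j = n) : InG (n + 1 - N) (f * g) := by
  rcases Nat.lt_or_ge (j + 1) N with h | h
  · have e : j + 1 - N = 0 := by omega
    rw [e] at hg
    rw [hg.eq_zero, mul_zero]
    exact InG.zero _
  · have h1 := hf.mul' hg
    exact h1.mono (by omega)

theorem InA.add {f g : PowerSeries E} (hf : InA f) (hg : InA g) : InA (f + g) := by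
  refine ⟨fun n => ?_, fun n => ?_, fun N => ?_⟩
  · rw [map_add]
    exact (hf.1 n).add (hg.1 n)
  · rw [map_add]
    exact (hf.2.1 n).add (hg.2.1 n)
  · obtain ⟨n₁, h1⟩ := hf.2.2 N
    obtain ⟨n₂, h2⟩ := hg.2.2 N
    refine ⟨max n₁ n₂, fun n hn => ?_⟩
    rw [map_add]
    exact (h1 n (by omega)).add (h2 n (by omega))

theorem InA.neg {f : PowerSeries E} (hf : InA f) : InA (-f) := by
  refine ⟨fun n => ?_, fun n => ?_, fun N => ?_⟩
  · rw [map_neg]
    exact (hf.1 n).neg
  · rw [map_neg]
    exact (hf.2.1 n).neg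
  · obtain ⟨n₁, h1⟩ := hf.2.2 N
    refine ⟨n₁, fun n hn => ?_⟩
    rw [map_neg]
    exact (h1 n hn).neg

theorem InA.mul {f g : PowerSeries E} (hf : InA f) (hg : InA g) : InA (f * g) := by
  refine ⟨fun n => ?_, fun n => ?_, fun N => ?_⟩
  · rw [PowerSeries.coeff_mul]
    exact InD.sum fun p _ => (hf.1 _).mul (hg.1 _)
  · rw [PowerSeries.coeff_mul]
    refine InG.sum fun p hp => ?_
    rw [Finset.HasAntidiagonal.mem_antidiagonal] at hp
    have h := (hf.2.1 p.1).mul (hg.2.1 p.2)
    rw [hp] at h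
    exact h
  · obtain ⟨n₁, h1⟩ := hf.2.2 N
    obtain ⟨n₂, h2⟩ := hg.2.2 N
    refine ⟨n₁ + n₂, fun n hn => ?_⟩
    rw [PowerSeries.coeff_mul]
    refine InG.sum fun p hp => ?_
    rw [Finset.HasAntidiagonal.mem_antidiagonal] at hp
    rcases Nat.lt_or_ge p.1 n₁ with h3 | h3
    · exact (hf.2.1 p.1).mulN' (h2 p.2 (by omega)) hp
    · exact (h1 p.1 h3).mulN (hg.2.1 p.2) hp

/-- constants -/
noncomputable def cE : ℂ →+* E where
  toFun c := sg 0 (C c)
  map_one' := by rw [map_one]; rfl
  map_mul' a b := by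
    rw [sg_mul, add_zero, C_comp, map_mul]
  map_zero' := by
    rw [map_zero]
    exact SkewMonoidAlgebra.single_zero _
  map_add' a b := by rw [map_add, sg_add]

theorem cE_apply (c : ℂ) : cE c = sg 0 (C c) := rfl

theorem cE_comm (c : ℂ) (f : E) : cE c * f = f * cE c := by
  have h : ∀ j : ℤ, cE c * sg j (co f j) = sg j (co f j) * cE c := by
    intro j
    rw [cE_apply, sg_mul, sg_mul, add_comm, C_comp, mul_comm]
    simp
  conv_lhs => rw [eq_sum f, Finset.mul_sum]
  conv_rhs => rw [eq_sum f, Finset.sum_mul]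
  exact Finset.sum_congr rfl fun j _ => h j

/-- constant series -/
noncomputable def cP : PowerSeries ℂ →+* PowerSeries E := PowerSeries.map cE

theorem cP_comm (c : PowerSeries ℂ) (f : PowerSeries E) : cP c * f = f * cP c := by
  refine PowerSeries.ext fun n => ?_
  rw [PowerSeries.coeff_mul, PowerSeries.coeff_mul, ← Finset.Nat.sum_antidiagonal_swap]
  refine Finset.sum_congr rfl fun p _ => ?_
  simp only [cP, PowerSeries.coeff_map, Prod.fst_swap, Prod.snd_swap]
  rw [cE_comm]

theorem InD_cE (c : ℂ) : InD (cE c) := by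
  intro j i h1 h2
  rw [cE_apply, co_sg]
  split_ifs with h
  · rw [← h, sub_zero] at h2
    exact absurd h2 h1
  · simp

theorem InG_cE (c : ℂ) {n : ℕ} (hn : 1 ≤ n) : InG n (cE c) := by
  intro j
  rw [cE_apply, co_sg]
  split_ifs with h
  · refine lt_of_le_of_lt degree_C_le ?_
    exact_mod_cast hn
  · rw [degree_zero]
    exact WithBot.bot_lt_coe _

theorem InA_cP (c : PowerSeries ℂ) : InA (cP c) := by
  refine ⟨fun n => ?_, fun n => ?_, fun N => ⟨N, fun n hn => ?_⟩⟩
  · simp only [cP, PowerSeries.coeff_map]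
    exact InD_cE _
  · simp only [cP, PowerSeries.coeff_map]
    exact InG_cE _ (by omega)
  · simp only [cP, PowerSeries.coeff_map]
    exact InG_cE _ (by omega)

/-- The completed Rees algebra. -/
noncomputable def AA : Subring (PowerSeries E) where
  carrier := {f | InA f}
  mul_mem' := InA.mul
  one_mem' := by
    have h := InA_cP 1
    rw [map_one] at h
    exact h
  add_mem' := InA.add
  zero_mem' := by
    have h := InA_cP 0
    rw [map_zero] at h
    exact h
  neg_mem' := InA.neg

theorem mem_AA {f : PowerSeries E} : f ∈ AA ↔ InA f := Iff.rfl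

/-- The `ℂ⟦ħ⟧`-algebra structure. -/
noncomputable instance algAA : Algebra (PowerSeries ℂ) AA :=
  (RingHom.codRestrict cP AA InA_cP).toAlgebra' (by
    intro c x
    apply Subtype.ext
    exact cP_comm c x)

theorem smul_val (c : PowerSeries ℂ) (a : AA) :
    ((c • a : AA) : PowerSeries E) = cP c * (a : PowerSeries E) := rfl

theorem cP_X : cP PowerSeries.X = PowerSeries.X := by
  simp [cP]

theorem X_smul_val (a : AA) :
    ((PowerSeries.X (R := ℂ) • a : AA) : PowerSeries E) = PowerSeries.X * (a : PowerSeries E) := by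
  rw [smul_val, cP_X]

theorem Xpow_smul_val (k : ℕ) (a : AA) :
    ((PowerSeries.X (R := ℂ) ^ k • a : AA) : PowerSeries E) =
      PowerSeries.X ^ k * (a : PowerSeries E) := by
  rw [smul_val, map_pow, cP_X]

/-- the `k`-th step of the `ħ`-adic filtration -/
def InK (k : ℕ) (f : PowerSeries E) : Prop := ∀ n, InG (n + 1 - k) (PowerSeries.coeff n f)

theorem exists_div {k : ℕ} {a : AA} (h : InK k a) : ∃ b : AA, (PowerSeries.X : PowerSeries ℂ) ^ k • b = a := by
  obtain ⟨a, ha⟩ := a
  have hb : InA (PowerSeries.mk fun n => PowerSeries.coeff (n + k) a) := by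
    refine ⟨fun n => ?_, fun n => ?_, fun N => ?_⟩
    · rw [PowerSeries.coeff_mk]
      exact ha.1 _
    · rw [PowerSeries.coeff_mk]
      exact (h (n + k)).mono (by omega)
    · obtain ⟨n₀, h0⟩ := ha.2.2 (N + k)
      refine ⟨n₀, fun n hn => ?_⟩
      rw [PowerSeries.coeff_mk]
      exact (h0 (n + k) (by omega)).mono (by omega)
  refine ⟨⟨_, hb⟩, ?_⟩
  apply Subtype.ext
  rw [Xpow_smul_val]
  refine PowerSeries.ext fun n => ?_
  rw [PowerSeries.coeff_X_pow_mul']
  split_ifs with hn
  · rw [PowerSeries.coeff_mk, Nat.sub_add_cancel hn]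
  · have h1 := h n
    have e : n + 1 - k = 0 := by omega
    rw [e] at h1
    exact h1.eq_zero.symm

theorem InK_smul (k : ℕ) (a : AA) : InK k (((PowerSeries.X : PowerSeries ℂ) ^ k • a : AA) : PowerSeries E) := by
  intro n
  rw [Xpow_smul_val, PowerSeries.coeff_X_pow_mul']
  split_ifs with hn
  · exact (a.2.2.1 (n - k)).mono (by omega)
  · exact InG.zero _

theorem mem_pow_smul {k : ℕ} {a : AA} :
    a ∈ (Ideal.span {(PowerSeries.X : PowerSeries ℂ)} ^ k • ⊤ : Submodule (PowerSeries ℂ) AA) ↔
      InK k a := by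
  rw [Ideal.span_singleton_pow, Submodule.ideal_span_singleton_smul,
    Submodule.mem_smul_pointwise_iff_exists]
  constructor
  · rintro ⟨b, -, rfl⟩
    exact InK_smul k b
  · intro h
    obtain ⟨b, hb⟩ := exists_div h
    exact ⟨b, trivial, hb⟩

theorem InK.sub_iff {k : ℕ} {a b : AA} :
    a ≡ b [SMOD (Ideal.span {(PowerSeries.X : PowerSeries ℂ)} ^ k • ⊤ :
      Submodule (PowerSeries ℂ) AA)] ↔ InK k ((a : PowerSeries E) - b) := by
  rw [SModEq.sub_mem, mem_pow_smul]
  rfl

theorem complete : IsAdicComplete (Ideal.span {(PowerSeries.X : PowerSeries ℂ)}) AA where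
  haus' := by
    intro a ha
    apply Subtype.ext
    refine PowerSeries.ext fun n => ?_
    have h := InK.sub_iff.1 (ha (n + 1)) n
    have e : n + 1 - (n + 1) = 0 := by omega
    rw [e] at h
    have h1 := h.eq_zero
    simpa using h1
  prec' := by
    intro f hf
    have hf' : ∀ {m n : ℕ}, m ≤ n → ∀ k, InG (k + 1 - m)
        (PowerSeries.coeff k (f m : PowerSeries E) - PowerSeries.coeff k (f n : PowerSeries E)) := by
      intro m n hmn k
      have h := InK.sub_iff.1 (hf hmn) k
      rw [map_sub] at h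
      exact h
    have hL : InA (PowerSeries.mk fun n => PowerSeries.coeff n (f (n + 1) : PowerSeries E)) := by
      refine ⟨fun n => ?_, fun n => ?_, fun N => ?_⟩
      · rw [PowerSeries.coeff_mk]
        exact (f (n + 1)).2.1 n
      · rw [PowerSeries.coeff_mk]
        exact (f (n + 1)).2.2.1 n
      · obtain ⟨n₀, h0⟩ := (f N).2.2.2 N
        refine ⟨max n₀ N, fun n hn => ?_⟩
        rw [PowerSeries.coeff_mk]
        have h1 := hf' (show N ≤ n + 1 by omega) n
        have h2 := h0 n (by omega)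
        have h3 := h2.add h1.neg
        have e : PowerSeries.coeff n (f N : PowerSeries E) +
            -(PowerSeries.coeff n (f N : PowerSeries E) -
              PowerSeries.coeff n (f (n + 1) : PowerSeries E)) =
            PowerSeries.coeff n (f (n + 1) : PowerSeries E) := by abel
        rw [e] at h3
        exact h3
    refine ⟨⟨_, hL⟩, fun m => ?_⟩
    rw [InK.sub_iff]
    intro n
    rw [map_sub, PowerSeries.coeff_mk]
    rcases Nat.lt_or_ge (n + 1) m with h | h
    · have h1 := hf' h.le n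
      have e : n + 1 - (n + 1) = 0 := by omega
      rw [e] at h1
      have h2 := h1.neg.eq_zero
      have e2 : PowerSeries.coeff n (f m : PowerSeries E) -
          PowerSeries.coeff n (f (n + 1) : PowerSeries E) = 0 := by
        rw [← h2]
        abel
      rw [e2]
      exact InG.zero _
    · exact hf' h n

theorem torsion_free (a : AA) (h : PowerSeries.X (R := ℂ) • a = 0) : a = 0 := by
  apply Subtype.ext
  have h1 := congrArg Subtype.val h
  rw [X_smul_val] at h1
  refine PowerSeries.ext fun n => ?_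
  have h2 := congrArg (PowerSeries.coeff (n + 1)) h1
  rw [PowerSeries.coeff_succ_X_mul] at h2
  exact h2

end Pool.Agent.TH212
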