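import Pool.Agent.TH212.CuspAlg

set_option autoImplicit false

open Polynomial

namespace Pool.Agent.TH212

/-- The polynomial ring `ℂ[x, y]`, `x = X 0`, `y = X 1`. -/
abbrev R : Type := MvPolynomial (Fin 2) ℂ

/-- the exponent of `x ^ a y ^ b` -/
noncomputable def ex (a b : ℕ) : Fin 2 →₀ ℕ := Finsupp.single 0 a + Finsupp.single 1 b

theorem ex_zero (a b : ℕ) : ex a b 0 = a := by simp [ex]

theorem ex_one (a b : ℕ) : ex a b 1 = b := by simp [ex]

theorem ex_add (a b c d : ℕ) : ex a b + ex c d = ex (a + c) (b + d) := by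
  ext i
  fin_cases i <;> simp [ex]

theorem ex_inj {a b c d : ℕ} (h : ex a b = ex c d) : a = c ∧ b = d := by
  have h0 := DFunLike.congr_fun h 0
  have h1 := DFunLike.congr_fun h 1
  rw [ex_zero, ex_zero] at h0
  rw [ex_one, ex_one] at h1
  exact ⟨h0, h1⟩

theorem ex_eta (s : Fin 2 →₀ ℕ) : ex (s 0) (s 1) = s := by
  ext i
  fin_cases i <;> simp [ex]

/-- the monomial `c x ^ a y ^ b` -/
noncomputable def mo (a b : ℕ) (c : ℂ) : R := MvPolynomial.monomial (ex a b) c

theorem mo_zero (a b : ℕ) : mo a b 0 = 0 := by simp [mo]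

theorem mo_add (a b : ℕ) (c d : ℂ) : mo a b (c + d) = mo a b c + mo a b d := by simp [mo]

theorem mo_mul (a b c d : ℕ) (p q : ℂ) : mo a b p * mo c d q = mo (a + c) (b + d) (p * q) := by
  unfold mo
  rw [MvPolynomial.monomial_mul, ex_add]

theorem pd0 (a b : ℕ) (c : ℂ) : MvPolynomial.pderiv 0 (mo a b c) = mo (a - 1) b (c * a) := by
  unfold mo
  have h : ex a b - Finsupp.single 0 1 = ex (a - 1) b := by
    ext i
    fin_cases i <;> simp [ex]
  rw [MvPolynomial.pderiv_monomial, ex_zero, h]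

theorem pd1 (a b : ℕ) (c : ℂ) : MvPolynomial.pderiv 1 (mo a b c) = mo a (b - 1) (c * b) := by
  unfold mo
  have h : ex a b - Finsupp.single 1 1 = ex a (b - 1) := by
    ext i
    fin_cases i <;> simp [ex]
  rw [MvPolynomial.pderiv_monomial, ex_one, h]

/-- The Poisson bracket `{F, G} = ∂_y F ∂_x G - ∂_x F ∂_y G` on `ℂ[x, y]`. -/
noncomputable def pb : R →ₗ[ℂ] R →ₗ[ℂ] R :=
  LinearMap.mk₂ ℂ (fun F G => MvPolynomial.pderiv 1 F * MvPolynomial.pderiv 0 G -
      MvPolynomial.pderiv 0 F * MvPolynomial.pderiv 1 G)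
    (by intros; simp only [map_add]; ring)
    (by intros; simp only [Derivation.map_smul, smul_mul_assoc, smul_sub])
    (by intros; simp only [map_add]; ring)
    (by intros; simp only [Derivation.map_smul, mul_smul_comm, smul_sub])

theorem pb_apply (F G : R) : pb F G = MvPolynomial.pderiv 1 F * MvPolynomial.pderiv 0 G -
      MvPolynomial.pderiv 0 F * MvPolynomial.pderiv 1 G := rfl

theorem pb_mo (a n b m : ℕ) (p q : ℂ) :
    pb (mo a n p) (mo b m q) = mo (a + b - 1) (n + m - 1) ((n * b - a * m) * (p * q)) := by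
  rw [pb_apply, pd0, pd1, pd0, pd1, mo_mul, mo_mul]
  have h1 : mo (a + (b - 1)) (n - 1 + m) (p * n * (q * b)) =
      mo (a + b - 1) (n + m - 1) (p * n * (q * b)) := by
    rcases Nat.eq_zero_or_pos n with rfl | hn
    · simp [mo_zero]
    · rcases Nat.eq_zero_or_pos b with rfl | hb
      · simp [mo_zero]
      · congr 1 <;> omega
  have h2 : mo (a - 1 + b) (n + (m - 1)) (p * a * (q * m)) =
      mo (a + b - 1) (n + m - 1) (p * a * (q * m)) := by
    rcases Nat.eq_zero_or_pos a with rfl | hn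
    · simp [mo_zero]
    · rcases Nat.eq_zero_or_pos m with rfl | hb
      · simp [mo_zero]
      · congr 1 <;> omega
  rw [h1, h2]
  unfold mo
  rw [← map_sub]
  congr 1
  ring

/-- the symbol of order `n` -/
noncomputable def sym (n : ℕ) : E →ₗ[ℂ] R :=
  (Finsupp.lsum ℂ fun a : Multiplicative ℤ =>
    (MvPolynomial.monomial (R := ℂ) (ex (Multiplicative.toAdd a + (n : ℤ)).toNat n)) ∘ₗ
      (Polynomial.lcoeff ℂ n)) ∘ₗ
    (SkewMonoidAlgebra.coeffLinearEquiv (S := ℂ) (k := ℂ[X]) (G := Multiplicative ℤ)).toLinearMap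

theorem sym_sg (n : ℕ) (j : ℤ) (p : ℂ[X]) :
    sym n (sg j p) = mo (j + n).toNat n (p.coeff n) := by
  unfold sym
  have h : (SkewMonoidAlgebra.coeffLinearEquiv (S := ℂ) (k := ℂ[X]) (G := Multiplicative ℤ))
      (sg j p) = Finsupp.single (Multiplicative.ofAdd j) p := rfl
  rw [LinearMap.comp_apply, LinearEquiv.coe_coe, h, Finsupp.lsum_single]
  rfl

theorem comp_eq_taylor (q : ℂ[X]) (c : ℂ) : q.comp (X - C c) = taylor (-c) q := by
  rw [taylor_apply]
  congr 1
  simp [sub_eq_add_neg]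

theorem coeff_shift (q : ℂ[X]) (c : ℂ) {m : ℕ} (hq : q.degree < ((m + 1 : ℕ) : WithBot ℕ)) :
    (q.comp (X - C c)).coeff m = q.coeff m := by
  rw [comp_eq_taylor, taylor_coeff]
  have h1 : (hasseDeriv m q).natDegree ≤ 0 := by
    refine (natDegree_hasseDeriv_le q m).trans ?_
    have h2 : q.natDegree ≤ m := by
      rw [natDegree_le_iff_degree_le]
      exact Order.le_of_lt_succ hq
    omega
  rw [eq_C_of_natDegree_le_zero h1, eval_C, hasseDeriv_coeff]
  simp

theorem coeff_shift' (q : ℂ[X]) (c : ℂ) {m : ℕ} (hq : q.degree < ((m + 2 : ℕ) : WithBot ℕ)) :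
    (q.comp (X - C c)).coeff m = q.coeff m - c * (m + 1) * q.coeff (m + 1) := by
  rw [comp_eq_taylor, taylor_coeff]
  have h1 : (hasseDeriv m q).natDegree < 2 := by
    have h3 := natDegree_hasseDeriv_le q m
    have h2 : q.natDegree ≤ m + 1 := by
      rw [natDegree_le_iff_degree_le]
      exact Order.le_of_lt_succ hq
    omega
  rw [eval_eq_sum_range' h1, Finset.sum_range_succ, Finset.sum_range_succ, Finset.sum_range_zero,
    hasseDeriv_coeff, hasseDeriv_coeff]
  have h4 : (1 + m).choose m = m + 1 := by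
    rw [add_comm, Nat.choose_succ_self_right]
  rw [h4]
  rw [add_comm 1 m]
  push_cast
  simp
  ring

end Pool.Agent.TH212
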