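import Mathlib

/-!
Poisson algebras, affine symplectic resolutions, deformation quantizations, zeroth Poisson homology,
zeroth Hochschild homology and the canonical surjection between them.
-/

set_option autoImplicit false

open scoped TensorProduct

namespace Pool.Agent.TH212

/-- A Poisson bracket on a commutative `ℂ`-algebra: bilinear, alternating, a derivation in the
second argument, satisfying the Jacobi identity. -/
structure PoissonBracket (O : Type) [CommRing O] [Algebra ℂ O] where
  /-- the bracket -/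
  br : O →ₗ[ℂ] O →ₗ[ℂ] O
  br_self : ∀ a, br a a = 0
  leibniz : ∀ a b c, br a (b * c) = br a b * c + b * br a c
  jacobi : ∀ a b c, br a (br b c) + br b (br c a) + br c (br a b) = 0

/-- The bracket is nondegenerate: every derivation is a combination `∑ a_i {f_i, ·}` of Hamiltonian
derivations. If `R` is smooth this says that the Poisson structure is symplectic. -/
def PoissonBracket.IsSymplectic {R : Type} [CommRing R] [Algebra ℂ R] (Q : PoissonBracket R) :
    Prop :=
  ∀ D : Derivation ℂ R R, ∃ (n : ℕ) (a f : Fin n → R), ∀ r, D r = ∑ i, a i * Q.br (f i) r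

/-- The morphism `Spec R → Spec O` given by `ρ` is a symplectic resolution: `Spec R` is smooth,
irreducible and symplectic, the morphism is proper, birational (an isomorphism over the nonempty
open set where some `s ≠ 0` does not vanish) and Poisson. -/
structure IsSymplecticResolution {O R : Type} [CommRing O] [Algebra ℂ O] [CommRing R]
    [Algebra ℂ R] (P : PoissonBracket O) (Q : PoissonBracket R) (ρ : O →ₐ[ℂ] R) : Prop where
  domain : IsDomain R
  smooth : Algebra.Smooth ℂ R
  symplectic : Q.IsSymplectic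
  proper : AlgebraicGeometry.IsProper
    (AlgebraicGeometry.Spec.map (CommRingCat.ofHom (ρ : O →+* R)))
  injective : Function.Injective ρ
  birational : ∃ s : O, s ≠ 0 ∧ ∀ r : R, ∃ a : O, ρ a = ρ s * r
  poisson : ∀ a b, ρ (P.br a b) = Q.br (ρ a) (ρ b)

/-- `A`, with the ring homomorphism `π : A → O`, is a deformation quantization of the Poisson
algebra `O`: `A` is an `ħ`-adically complete (and separated) `ħ`-torsion free (that is,
topologically free) `ℂ⟦ħ⟧`-algebra, `π` induces an isomorphism `A / ħ A ≅ O` of `ℂ`-algebras, and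
`a b - b a` is `ħ` times a lift of the bracket of the images of `a` and `b`. -/
structure IsDeformationQuantization {O A : Type} [CommRing O] [Algebra ℂ O] [Ring A]
    [Algebra (PowerSeries ℂ) A] (P : PoissonBracket O) (π : A →+* O) : Prop where
  complete : IsAdicComplete (Ideal.span {(PowerSeries.X : PowerSeries ℂ)}) A
  torsionFree : ∀ a : A, (PowerSeries.X : PowerSeries ℂ) • a = 0 → a = 0
  surjective : Function.Surjective π
  ker : ∀ a : A, π a = 0 ↔ ∃ b : A, a = (PowerSeries.X : PowerSeries ℂ) • b
  linear : ∀ (c : ℂ) (a : A), π (PowerSeries.C c • a) = c • π a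
  bracket : ∀ a b : A, ∃ c : A, a * b - b * a = (PowerSeries.X : PowerSeries ℂ) • c ∧
    π c = P.br (π a) (π b)

/-- The span of all brackets. -/
def PoissonBracket.brackets {O : Type} [CommRing O] [Algebra ℂ O] (P : PoissonBracket O) :
    Submodule ℂ O :=
  Submodule.span ℂ {z | ∃ a b, z = P.br a b}

/-- Zeroth Poisson homology `O / {O, O}`. -/
abbrev PoissonBracket.HP0 {O : Type} [CommRing O] [Algebra ℂ O] (P : PoissonBracket O) : Type :=
  O ⧸ P.brackets

/-- `A[ħ⁻¹] = ℂ((ħ)) ⊗ A`. -/
abbrev Loc (A : Type) [Ring A] [Algebra (PowerSeries ℂ) A] : Type :=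
  LaurentSeries ℂ ⊗[PowerSeries ℂ] A

/-- The additive subgroup `[B, B]` of `B = A[ħ⁻¹]` generated by all commutators (it is a
`ℂ((ħ))`-subspace, since scalars are central). -/
noncomputable def commutators (A : Type) [Ring A] [Algebra (PowerSeries ℂ) A] :
    AddSubgroup (Loc A) :=
  AddSubgroup.closure {z | ∃ x y : Loc A, z = x * y - y * x}

/-- Zeroth Hochschild homology `B / [B, B]` of `B = A[ħ⁻¹]`. -/
abbrev HH0 (A : Type) [Ring A] [Algebra (PowerSeries ℂ) A] : Type := Loc A ⧸ commutators A

/-- The class of `ħ ^ n a` in `HH_0(A[ħ⁻¹])`. -/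
noncomputable def cls (A : Type) [Ring A] [Algebra (PowerSeries ℂ) A] (n : ℤ) (a : A) : HH0 A :=
  QuotientAddGroup.mk ((HahnSeries.single n (1 : ℂ) : LaurentSeries ℂ) ⊗ₜ[PowerSeries ℂ] a)

/-- The filtration `F ^ n = ` image of `ħ ^ n A` on `HH_0(A[ħ⁻¹])`. -/
def Fil (A : Type) [Ring A] [Algebra (PowerSeries ℂ) A] (n : ℤ) : Set (HH0 A) :=
  {ξ | ∃ a : A, ξ = cls A n a}

/-- The kernel of the degree `n` component `HP_0(O) → F ^ n / F ^ (n + 1)`,
`[π a] ↦ [ħ ^ n a]`, of the canonical surjection `HP_0(O)((ħ)) → gr HH_0(A[ħ⁻¹])`. -/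
def kernel {O A : Type} [CommRing O] [Algebra ℂ O] [Ring A] [Algebra (PowerSeries ℂ) A]
    (P : PoissonBracket O) (π : A →+* O) (n : ℤ) : Set P.HP0 :=
  {x | ∃ a : A, x = Submodule.Quotient.mk (π a) ∧ cls A n a ∈ Fil A (n + 1)}

end Pool.Agent.TH212
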