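import Pool.Agent.TH212.CuspPi
import Pool.Agent.TH212.PQDefs

set_option autoImplicit false

open Polynomial

namespace Pool.Agent.TH212

open MvPolynomial in
theorem pderiv_comm' (i j : Fin 2) (f : R) : pderiv i (pderiv j f) = pderiv j (pderiv i f) := by
  have h : ⁅(pderiv i : Derivation ℂ R R), (pderiv j : Derivation ℂ R R)⁆ = 0 := by
    apply MvPolynomial.derivation_ext
    intro k
    rw [Derivation.commutator_apply, Derivation.zero_apply, pderiv_X, pderiv_X]
    have h1 : ∀ a b : Fin 2, (pderiv b) ((Pi.single a (1 : R) : Fin 2 → R) k) = 0 := by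
      intro a b
      rw [Pi.single_apply]
      split_ifs <;> simp
    rw [h1, h1, sub_zero]
  have h2 := Derivation.congr_fun h f
  rw [Derivation.commutator_apply, Derivation.zero_apply, sub_eq_zero] at h2
  exact h2

/-- The standard Poisson bracket on `ℂ[x, y]`. -/
noncomputable def PR : PoissonBracket R where
  br := pb
  br_self a := by
    rw [pb_apply]
    ring
  leibniz a b c := by
    simp only [pb_apply, Derivation.leibniz, smul_eq_mul]
    ring
  jacobi a b c := by
    simp only [pb_apply, map_sub, Derivation.leibniz, smul_eq_mul]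
    rw [pderiv_comm' 1 0 a, pderiv_comm' 1 0 b, pderiv_comm' 1 0 c]
    ring

/-- The algebra of all polynomials in `ℂ[x, y]` whose two partial derivatives vanish at the origin,
that is `ℂ + (x, y) ^ 2`. -/
noncomputable def OX : Subalgebra ℂ R where
  carrier := {f | ∀ i, MvPolynomial.constantCoeff (MvPolynomial.pderiv i f) = 0}
  mul_mem' := by
    intro a b ha hb i
    rw [Derivation.leibniz, map_add, smul_eq_mul, smul_eq_mul, map_mul, map_mul, ha i, hb i]
    ring
  add_mem' := by
    intro a b ha hb i
    rw [map_add, map_add, ha i, hb i, add_zero]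
  algebraMap_mem' := by
    intro c i
    rw [MvPolynomial.algebraMap_eq, MvPolynomial.pderiv_C, map_zero]

theorem mem_OX {f : R} :
    f ∈ OX ↔ ∀ i, MvPolynomial.constantCoeff (MvPolynomial.pderiv i f) = 0 := Iff.rfl

theorem pb_mem {f g : R} (hf : f ∈ OX) (hg : g ∈ OX) : pb f g ∈ OX := by
  intro i
  rw [pb_apply, map_sub, Derivation.leibniz, Derivation.leibniz]
  simp only [smul_eq_mul, map_add, map_sub, map_mul]
  rw [hf 0, hf 1, hg 0, hg 1]
  ring

/-- The Poisson bracket on `ℂ + (x, y) ^ 2`, the restriction of that of `ℂ[x, y]`. -/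
noncomputable def PO : PoissonBracket OX where
  br := LinearMap.mk₂ ℂ (fun f g => (⟨pb f g, pb_mem f.2 g.2⟩ : OX))
    (by
      intro a b c
      apply Subtype.ext
      simp)
    (by
      intro c a b
      apply Subtype.ext
      simp)
    (by
      intro a b c
      apply Subtype.ext
      simp)
    (by
      intro c a b
      apply Subtype.ext
      simp)
  br_self a := by
    apply Subtype.ext
    exact PR.br_self _
  leibniz a b c := by
    apply Subtype.ext
    exact PR.leibniz _ _ _
  jacobi a b c := by
    apply Subtype.ext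
    exact PR.jacobi _ _ _

theorem PO_val (f g : OX) : ((PO.br f g : OX) : R) = pb f g := rfl

theorem PR_symplectic : PR.IsSymplectic := by
  intro D
  refine ⟨2, ![D (MvPolynomial.X 0), -D (MvPolynomial.X 1)],
    ![MvPolynomial.X 1, MvPolynomial.X 0], fun r => ?_⟩
  have h : D = D (MvPolynomial.X 0) • MvPolynomial.pderiv 0 +
      D (MvPolynomial.X 1) • MvPolynomial.pderiv 1 := by
    apply MvPolynomial.derivation_ext
    intro k
    rw [Derivation.add_apply, Derivation.smul_apply, Derivation.smul_apply,
      MvPolynomial.pderiv_X, MvPolynomial.pderiv_X]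
    fin_cases k <;> simp
  have h2 := Derivation.congr_fun h r
  rw [h2, Fin.sum_univ_two]
  simp only [Derivation.add_apply, Derivation.smul_apply, smul_eq_mul, Matrix.cons_val_zero,
    Matrix.cons_val_one]
  change _ = _ * pb _ _ + _ * pb _ _
  rw [pb_apply, pb_apply]
  simp only [MvPolynomial.pderiv_X_self]
  rw [MvPolynomial.pderiv_X_of_ne (show (1 : Fin 2) ≠ 0 by decide),
    MvPolynomial.pderiv_X_of_ne (show (0 : Fin 2) ≠ 1 by decide)]
  ring

theorem split_mem (f : R) :
    f - MvPolynomial.C (MvPolynomial.constantCoeff (MvPolynomial.pderiv 0 f)) * MvPolynomial.X 0 -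
      MvPolynomial.C (MvPolynomial.constantCoeff (MvPolynomial.pderiv 1 f)) * MvPolynomial.X 1
      ∈ OX := by
  intro i
  simp only [map_sub, MvPolynomial.pderiv_C_mul, MvPolynomial.pderiv_X]
  fin_cases i <;> simp

theorem finite_OX : Module.Finite OX R := by
  classical
  refine ⟨⟨{1, MvPolynomial.X 0, MvPolynomial.X 1}, ?_⟩⟩
  rw [eq_top_iff]
  intro f _
  set c0 := MvPolynomial.constantCoeff (MvPolynomial.pderiv 0 f) with h0
  set c1 := MvPolynomial.constantCoeff (MvPolynomial.pderiv 1 f) with h1
  have hC : ∀ c : ℂ, (MvPolynomial.C c : R) ∈ OX := fun c => OX.algebraMap_mem c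
  have e : f = (⟨_, split_mem f⟩ : OX) • (1 : R) +
      ((⟨_, hC c0⟩ : OX) • (MvPolynomial.X 0 : R) + (⟨_, hC c1⟩ : OX) • (MvPolynomial.X 1 : R)) := by
    rw [Subalgebra.smul_def, Subalgebra.smul_def, Subalgebra.smul_def]
    simp only [smul_eq_mul]
    ring
  rw [e]
  refine Submodule.add_mem _ (Submodule.smul_mem _ _ (Submodule.subset_span (by simp)))
    (Submodule.add_mem _ (Submodule.smul_mem _ _ (Submodule.subset_span (by simp)))
      (Submodule.smul_mem _ _ (Submodule.subset_span (by simp))))

theorem finiteType_OX : Algebra.FiniteType ℂ OX := by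
  have := finite_OX
  constructor
  refine fg_of_fg_of_fg ℂ OX R ?_ ?_ ?_
  · exact Algebra.FiniteType.out
  · exact Module.Finite.fg_top
  · exact Subtype.val_injective

theorem proper_OX : AlgebraicGeometry.IsProper
    (AlgebraicGeometry.Spec.map (CommRingCat.ofHom (OX.val : OX →+* R))) := by
  have : AlgebraicGeometry.IsFinite
      (AlgebraicGeometry.Spec.map (CommRingCat.ofHom (OX.val : OX →+* R))) := by
    rw [AlgebraicGeometry.IsFinite.SpecMap_iff]
    exact finite_OX
  infer_instance

theorem resolution : IsSymplecticResolution PO PR OX.val where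
  domain := inferInstance
  smooth := {}
  symplectic := PR_symplectic
  proper := proper_OX
  injective := Subtype.val_injective
  birational := by
    refine ⟨⟨MvPolynomial.X 0 ^ 2, fun i => ?_⟩, ?_, fun r => ⟨⟨MvPolynomial.X 0 ^ 2 * r,
      fun i => ?_⟩, rfl⟩⟩
    · rw [Derivation.leibniz_pow]
      simp
    · intro h
      have h1 := congrArg Subtype.val h
      exact pow_ne_zero 2 (MvPolynomial.X_ne_zero 0) h1
    · rw [Derivation.leibniz, Derivation.leibniz_pow]
      simp
  poisson a b := rfl

theorem one_notMem : (1 : OX) ∉ PO.brackets := by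
  intro h
  have h2 : ∀ z ∈ PO.brackets, MvPolynomial.constantCoeff ((z : OX) : R) = 0 := by
    intro z hz
    unfold PoissonBracket.brackets at hz
    induction hz using Submodule.span_induction with
    | mem z hz =>
      obtain ⟨a, b, rfl⟩ := hz
      rw [PO_val, pb_apply, map_sub, map_mul, map_mul, a.2 0, a.2 1]
      ring
    | zero => simp
    | add x y _ _ hx hy =>
      rw [Subalgebra.coe_add, map_add, hx, hy, add_zero]
    | smul c x _ hx =>
      rw [Subalgebra.coe_smul, MvPolynomial.smul_eq_C_mul, map_mul, hx, mul_zero]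
  have h3 := h2 1 h
  simp at h3

end Pool.Agent.TH212
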