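import Pool.Agent.TH212.WeylQuant

set_option autoImplicit false

open scoped TensorProduct

namespace Pool.Agent.TH212

/-- the antiderivative in `y` of a monomial -/
theorem exists_antideriv (r : R) : ∃ g : R, PR.br (MvPolynomial.X 0) g = r := by
  classical
  have h : ∀ s : Finset (Fin 2 →₀ ℕ), ∃ g : R, PR.br (MvPolynomial.X 0) g =
      ∑ m ∈ s, MvPolynomial.monomial m (MvPolynomial.coeff m r) := by
    intro s
    induction s using Finset.induction_on with
    | empty => exact ⟨0, by simp⟩
    | insert m s hm ih =>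
      obtain ⟨g, hg⟩ := ih
      refine ⟨mo (m 0) (m 1 + 1) (-(MvPolynomial.coeff m r) / ((m 1 : ℂ) + 1)) + g, ?_⟩
      rw [map_add, hg, Finset.sum_insert hm]
      congr 1
      change pb _ _ = _
      rw [pb_apply, MvPolynomial.pderiv_X_self,
        MvPolynomial.pderiv_X_of_ne (show (0 : Fin 2) ≠ 1 by decide), pd1]
      have h1 : (m 1 : ℂ) + 1 ≠ 0 := Nat.cast_add_one_ne_zero _
      rw [zero_mul, one_mul, zero_sub, Nat.add_sub_cancel, mo, ex_eta, ← map_neg]
      congr 1
      push_cast
      field_simp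
  obtain ⟨g, hg⟩ := h r.support
  exact ⟨g, by rw [hg]; exact MvPolynomial.support_sum_monomial_coeff r⟩

section

variable {A : Type} [Ring A] [Algebra (PowerSeries ℂ) A] {π : A →+* R}

theorem smul_comm_left (c : PowerSeries ℂ) (x b : A) : x * (c • b) = c • (x * b) :=
  mul_smul_comm c x b

/-- one step: `ħ a = [x, g] + ħ ^ 2 a'` -/
theorem step (h : IsDeformationQuantization PR π) {x : A} (hx : π x = MvPolynomial.X 0) (a : A) :
    ∃ g a' : A, (PowerSeries.X : PowerSeries ℂ) • a = x * g - g * x +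
      (PowerSeries.X : PowerSeries ℂ) ^ 2 • a' := by
  obtain ⟨r, hr⟩ := exists_antideriv (π a)
  obtain ⟨g, hg⟩ := h.surjective r
  obtain ⟨c, hc1, hc2⟩ := h.bracket x g
  have h1 : π (a - c) = 0 := by
    rw [map_sub, hc2, hx, hg, hr, sub_self]
  obtain ⟨a', ha'⟩ := (h.ker _).1 h1
  refine ⟨g, a', ?_⟩
  rw [hc1, pow_two, mul_smul, ← ha', ← smul_add, add_sub_cancel]

/-- Every element of `ħ A` is a commutator `[x, G]`. -/
theorem exists_comm (h : IsDeformationQuantization PR π) {x : A}
    (hx : π x = MvPolynomial.X 0) (a : A) :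
    ∃ G : A, (PowerSeries.X : PowerSeries ℂ) • a = x * G - G * x := by
  have := h.complete
  choose g a' hga using step h hx
  -- the sequence of remainders
  let rem : ℕ → A := fun n => Nat.rec a (fun _ b => a' b) n
  have hrem : ∀ n, rem (n + 1) = a' (rem n) := fun n => rfl
  set s : ℕ → A := fun N => ∑ n ∈ Finset.range N, (PowerSeries.X : PowerSeries ℂ) ^ n • g (rem n)
    with hs
  have key : ∀ N, (PowerSeries.X : PowerSeries ℂ) • a = x * s N - s N * x +
      (PowerSeries.X : PowerSeries ℂ) ^ (N + 1) • rem N := by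
    intro N
    induction N with
    | zero =>
      simp only [hs, Finset.range_zero, Finset.sum_empty, mul_zero, zero_mul, sub_zero, zero_add,
        pow_one]
      rfl
    | succ N ih =>
      have e1 : s (N + 1) = s N + (PowerSeries.X : PowerSeries ℂ) ^ N • g (rem N) := by
        simp only [hs, Finset.sum_range_succ]
      have e2 := hga (rem N)
      rw [hrem, e1, ih, mul_add, add_mul, mul_smul_comm, smul_mul_assoc, pow_succ, mul_smul, e2,
        smul_add, smul_sub, ← mul_smul, ← pow_add]
      abel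
  have hcauchy : ∀ {m n : ℕ}, m ≤ n → s m ≡ s n
      [SMOD (Ideal.span {(PowerSeries.X : PowerSeries ℂ)} ^ m • ⊤ :
        Submodule (PowerSeries ℂ) A)] := by
    intro m n hmn
    rw [SModEq.comm, SModEq.sub_mem]
    obtain ⟨k, rfl⟩ := Nat.exists_eq_add_of_le hmn
    have e : s (m + k) - s m =
        ∑ n ∈ Finset.range k, (PowerSeries.X : PowerSeries ℂ) ^ (m + n) • g (rem (m + n)) := by
      simp only [hs, Finset.sum_range_add, add_sub_cancel_left]
    rw [e]
    refine Submodule.sum_mem _ fun n _ => ?_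
    rw [pow_add, mul_smul]
    exact Submodule.smul_mem_smul (Ideal.pow_mem_pow (Ideal.mem_span_singleton_self _) _)
      Submodule.mem_top
  obtain ⟨G, hG⟩ := IsPrecomplete.prec' (I := Ideal.span {(PowerSeries.X : PowerSeries ℂ)})
    s hcauchy
  refine ⟨G, ?_⟩
  rw [← sub_eq_zero]
  apply IsHausdorff.haus (I := Ideal.span {(PowerSeries.X : PowerSeries ℂ)}) inferInstance
  intro n
  rw [SModEq.zero]
  have h1 := hG n
  rw [SModEq.sub_mem, Ideal.span_singleton_pow, Submodule.ideal_span_singleton_smul,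
    Submodule.mem_smul_pointwise_iff_exists] at h1
  obtain ⟨b, -, hb⟩ := h1
  have e3 : s n = G + (PowerSeries.X : PowerSeries ℂ) ^ n • b := by
    rw [hb]
    abel
  rw [key n, e3, mul_add, add_mul, mul_smul_comm, smul_mul_assoc, Ideal.span_singleton_pow,
    Submodule.ideal_span_singleton_smul, Submodule.mem_smul_pointwise_iff_exists]
  refine ⟨x * b - b * x + (PowerSeries.X : PowerSeries ℂ) • rem n, Submodule.mem_top, ?_⟩
  rw [smul_add, smul_sub, ← mul_smul, ← pow_succ]
  abel

theorem X_ne : (HahnSeries.single (-1 : ℤ) (1 : ℂ) : LaurentSeries ℂ) *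
    algebraMap (PowerSeries ℂ) (LaurentSeries ℂ) PowerSeries.X = 1 := by
  rw [LaurentSeries.coe_algebraMap, HahnSeries.ofPowerSeries_X, HahnSeries.single_mul_single]
  simp

theorem tmul_mem (h : IsDeformationQuantization PR π) (u : LaurentSeries ℂ) (a : A) :
    u ⊗ₜ[PowerSeries ℂ] a ∈ commutators A := by
  obtain ⟨x, hx⟩ := h.surjective (MvPolynomial.X 0)
  obtain ⟨G, hG⟩ := exists_comm h hx a
  have e : u ⊗ₜ[PowerSeries ℂ] a =
      (HahnSeries.single (-1 : ℤ) (1 : ℂ) * u) ⊗ₜ[PowerSeries ℂ]
        ((PowerSeries.X : PowerSeries ℂ) • a) := by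
    rw [TensorProduct.tmul_smul, TensorProduct.smul_tmul']
    congr 1
    rw [Algebra.smul_def, ← mul_assoc, mul_comm (algebraMap _ _ _), X_ne, one_mul]
  rw [e, hG]
  apply AddSubgroup.subset_closure
  refine ⟨(HahnSeries.single (-1 : ℤ) (1 : ℂ) * u) ⊗ₜ x, 1 ⊗ₜ G, ?_⟩
  rw [Algebra.TensorProduct.tmul_mul_tmul, Algebra.TensorProduct.tmul_mul_tmul, mul_one,
    one_mul, TensorProduct.tmul_sub]

theorem hh0_zero (h : IsDeformationQuantization PR π) (ξ : HH0 A) : ξ = 0 := by
  induction ξ using QuotientAddGroup.induction_on with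
  | H z =>
    rw [QuotientAddGroup.eq_zero_iff]
    induction z using TensorProduct.induction_on with
    | zero => exact AddSubgroup.zero_mem _
    | tmul u a => exact tmul_mem h u a
    | add x y hx hy => exact AddSubgroup.add_mem _ hx hy

end

end Pool.Agent.TH212
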