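import Pool.Agent.TH212.CuspQuant

/-!
The completed Rees algebra of the Weyl algebra is a deformation quantization of `ℂ[x, y]`.
-/

set_option autoImplicit false

open Polynomial

namespace Pool.Agent.TH212.W

/-- The index set `{0, 1, 2, …}`. -/
def S : Set ℤ := {k | 0 ≤ k}

/-- `f` maps the span of `t ^ k`, `k ∈ S`, to itself. -/
def InD (f : E) : Prop := ∀ j i : ℤ, i ∉ S → i - j ∈ S → (co f j).eval (i : ℂ) = 0

theorem InD.zero : InD 0 := by
  intro j i _ _
  simp [co_zero]

theorem InD.add {f g : E} (hf : InD f) (hg : InD g) : InD (f + g) := by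
  intro j i h1 h2
  rw [co_add, eval_add, hf j i h1 h2, hg j i h1 h2, add_zero]

theorem InD.neg {f : E} (hf : InD f) : InD (-f) := by
  intro j i h1 h2
  rw [co_neg, eval_neg, hf j i h1 h2, neg_zero]

theorem InD.sum {ι : Type*} {s : Finset ι} {f : ι → E} (h : ∀ i ∈ s, InD (f i)) :
    InD (∑ i ∈ s, f i) := by
  intro j i h1 h2
  rw [co_sum, eval_finsetSum]
  exact Finset.sum_eq_zero fun a ha => h a ha j i h1 h2

theorem InD.mul {f g : E} (hf : InD f) (hg : InD g) : InD (f * g) := by
  classical
  rw [mul_eq]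
  refine InD.sum fun j _ => InD.sum fun k _ => ?_
  intro l i h1 h2
  rw [co_sg]
  split_ifs with h
  · rw [eval_mul, eval_comp]
    simp only [eval_sub, eval_X, eval_C]
    by_cases h3 : i - j ∈ S
    · rw [hf j i h1 h3, zero_mul]
    · have h4 := hg k (i - j) h3 (by rw [sub_sub, h]; exact h2)
      push_cast at h4
      rw [h4, mul_zero]
  · simp

/-- the forced zeros in degree `-m` -/
noncomputable def T (m : ℕ) : Finset ℤ := Finset.Icc (-(m : ℤ)) (-1)

theorem T_notMem {m : ℕ} {i : ℤ} (hi : i ∈ T m) : i ∉ S := by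
  simp only [T, Finset.mem_Icc] at hi
  simp only [S, Set.mem_ofPred_eq]
  omega

theorem T_mem {m : ℕ} {i : ℤ} (hi : i ∈ T m) : i - (-(m : ℤ)) ∈ S := by
  simp only [T, Finset.mem_Icc] at hi
  simp only [S, Set.mem_ofPred_eq]
  omega

theorem T_complete {m : ℕ} {i : ℤ} (h1 : i ∉ S) (h2 : i - (-(m : ℤ)) ∈ S) : i ∈ T m := by
  simp only [T, Finset.mem_Icc]
  simp only [S, Set.mem_ofPred_eq] at h1 h2
  omega

theorem card_T (m : ℕ) : (T m).card = m := by
  rw [T, Int.card_Icc]
  omega

/-- In degree `j` the order of a nonzero coefficient is at least `-j`. -/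
theorem nonneg_of {f : E} (hD : InD f) {n : ℕ} (hG : InG (n + 1) f) {j : ℤ}
    (h : co f j ≠ 0) : 0 ≤ j + n := by
  by_contra hcon
  push Not at hcon
  obtain ⟨m, hm⟩ : ∃ m : ℕ, j = -(m : ℤ) := ⟨j.natAbs, by omega⟩
  have h1 := le_of_zeros h (hG j) (T m) (fun i hi => hD j i (T_notMem hi) (by
    rw [hm]; exact T_mem hi))
  rw [card_T] at h1
  omega

theorem nonneg_coeff {f : E} (hD : InD f) {n : ℕ} (hG : InG (n + 1) f) {j : ℤ}
    (h : (co f j).coeff n ≠ 0) : 0 ≤ j + n := by
  apply nonneg_of hD hG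
  intro h0
  rw [h0, coeff_zero] at h
  exact h rfl

theorem sym_mul {n m : ℕ} {f g : E} (hf : InD f) (hf' : InG (n + 1) f) (hg : InD g)
    (hg' : InG (m + 1) g) : sym (n + m) (f * g) = sym n f * sym m g := by
  rw [mul_eq, sym_sum n f, sym_sum m g, map_sum, Finset.sum_mul]
  refine Finset.sum_congr rfl fun j _ => ?_
  rw [map_sum, Finset.mul_sum]
  refine Finset.sum_congr rfl fun k _ => ?_
  rw [sym_sg, coeff_mul_shift (hf' j) (hg' k), mo_mul]
  by_cases h1 : (co f j).coeff n = 0
  · rw [h1, zero_mul, mo_zero, mo_zero]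
  by_cases h2 : (co g k).coeff m = 0
  · rw [h2, mul_zero, mo_zero, mo_zero]
  have h3 := nonneg_coeff hf hf' h1
  have h4 := nonneg_coeff hg hg' h2
  congr 1
  push_cast
  omega

theorem sym_comm {n m N : ℕ} {f g : E} (hf : InD f) (hf' : InG (n + 1) f) (hg : InD g)
    (hg' : InG (m + 1) g) (hN : N + 1 = n + m) :
    sym N (f * g - g * f) = pb (sym n f) (sym m g) := by
  rw [comm_sum, sym_sum n f, sym_sum m g, map_sum, map_sum (pb), LinearMap.sum_apply]
  refine Finset.sum_congr rfl fun j _ => ?_
  rw [map_sum, map_sum]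
  refine Finset.sum_congr rfl fun k _ => ?_
  rw [sym_sg, coeff_sub, half_coeff (hf' j) (hg' k) _ hN,
    half_coeff (hg' k) (hf' j) _ (by omega), pb_mo]
  by_cases h1 : (co f j).coeff n = 0
  · rw [h1]
    simp [mo_zero]
  by_cases h2 : (co g k).coeff m = 0
  · rw [h2]
    simp [mo_zero]
  have h3 := nonneg_coeff hf hf' h1
  have h4 := nonneg_coeff hg hg' h2
  obtain ⟨a, ha⟩ : ∃ a : ℕ, j + n = a := ⟨(j + n).toNat, by omega⟩
  obtain ⟨b, hb⟩ : ∃ b : ℕ, k + m = b := ⟨(k + m).toNat, by omega⟩
  have ha' : j = a - n := by omega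
  have hb' : k = b - m := by omega
  subst ha' hb'
  have e1 : ((a : ℤ) - n + n).toNat = a := by omega
  have e2 : ((b : ℤ) - m + m).toNat = b := by omega
  have e3 : ((a : ℤ) - n + (b - m) + N).toNat = a + b - 1 := by omega
  have e4 : n + m - 1 = N := by omega
  rw [e1, e2, e3, e4]
  congr 1
  push_cast
  ring

/-- The `ħ`-completed Rees algebra of the Weyl algebra: series `∑ ħ ^ n f_n` with `f_n ∈ D` of order at most `n`
and `n - ord f_n → ∞`. -/
def InA (f : PowerSeries E) : Prop :=
  (∀ n, InD (PowerSeries.coeff n f)) ∧ (∀ n, InG (n + 1) (PowerSeries.coeff n f)) ∧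
    ∀ N, ∃ n₀, ∀ n, n₀ ≤ n → InG (n + 1 - N) (PowerSeries.coeff n f)

theorem InA.add {f g : PowerSeries E} (hf : InA f) (hg : InA g) : InA (f + g) := by
  refine ⟨fun n => ?_, fun n => ?_, fun N => ?_⟩
  · rw [map_add]
    exact (hf.1 n).add (hg.1 n)
  · rw [map_add]
    exact (hf.2.1 n).add (hg.2.1 n)
  · obtain ⟨n₁, h1⟩ := hf.2.2 N
    obtain ⟨n₂, h2⟩ := hg.2.2 N
    refine ⟨max n₁ n₂, fun n hn => ?_⟩
    rw [map_add]
    exact (h1 n (by omega)).add (h2 n (by omega))

theorem InA.neg {f : PowerSeries E} (hf : InA f) : InA (-f) := by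
  refine ⟨fun n => ?_, fun n => ?_, fun N => ?_⟩
  · rw [map_neg]
    exact (hf.1 n).neg
  · rw [map_neg]
    exact (hf.2.1 n).neg
  · obtain ⟨n₁, h1⟩ := hf.2.2 N
    refine ⟨n₁, fun n hn => ?_⟩
    rw [map_neg]
    exact (h1 n hn).neg

theorem InA.mul {f g : PowerSeries E} (hf : InA f) (hg : InA g) : InA (f * g) := by
  refine ⟨fun n => ?_, fun n => ?_, fun N => ?_⟩
  · rw [PowerSeries.coeff_mul]
    exact InD.sum fun p _ => (hf.1 _).mul (hg.1 _)
  · rw [PowerSeries.coeff_mul]
    refine InG.sum fun p hp => ?_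
    rw [Finset.HasAntidiagonal.mem_antidiagonal] at hp
    have h := (hf.2.1 p.1).mul (hg.2.1 p.2)
    rw [hp] at h
    exact h
  · obtain ⟨n₁, h1⟩ := hf.2.2 N
    obtain ⟨n₂, h2⟩ := hg.2.2 N
    refine ⟨n₁ + n₂, fun n hn => ?_⟩
    rw [PowerSeries.coeff_mul]
    refine InG.sum fun p hp => ?_
    rw [Finset.HasAntidiagonal.mem_antidiagonal] at hp
    rcases Nat.lt_or_ge p.1 n₁ with h3 | h3
    · exact (hf.2.1 p.1).mulN' (h2 p.2 (by omega)) hp
    · exact (h1 p.1 h3).mulN (hg.2.1 p.2) hp

theorem InD_cE (c : ℂ) : InD (cE c) := by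
  intro j i h1 h2
  rw [cE_apply, co_sg]
  split_ifs with h
  · rw [← h, sub_zero] at h2
    exact absurd h2 h1
  · simp

theorem InA_cP (c : PowerSeries ℂ) : InA (cP c) := by
  refine ⟨fun n => ?_, fun n => ?_, fun N => ⟨N, fun n hn => ?_⟩⟩
  · simp only [cP, PowerSeries.coeff_map]
    exact InD_cE _
  · simp only [cP, PowerSeries.coeff_map]
    exact InG_cE _ (by omega)
  · simp only [cP, PowerSeries.coeff_map]
    exact InG_cE _ (by omega)

/-- The completed Rees algebra. -/
noncomputable def AA : Subring (PowerSeries E) where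
  carrier := {f | InA f}
  mul_mem' := InA.mul
  one_mem' := by
    have h := InA_cP 1
    rw [map_one] at h
    exact h
  add_mem' := InA.add
  zero_mem' := by
    have h := InA_cP 0
    rw [map_zero] at h
    exact h
  neg_mem' := InA.neg

theorem mem_AA {f : PowerSeries E} : f ∈ AA ↔ InA f := Iff.rfl

/-- The `ℂ⟦ħ⟧`-algebra structure. -/
noncomputable instance algAA : Algebra (PowerSeries ℂ) AA :=
  (RingHom.codRestrict cP AA InA_cP).toAlgebra' (by
    intro c x
    apply Subtype.ext
    exact cP_comm c x)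

theorem smul_val (c : PowerSeries ℂ) (a : AA) :
    ((c • a : AA) : PowerSeries E) = cP c * (a : PowerSeries E) := rfl

theorem X_smul_val (a : AA) :
    ((PowerSeries.X (R := ℂ) • a : AA) : PowerSeries E) = PowerSeries.X * (a : PowerSeries E) := by
  rw [smul_val, cP_X]

theorem Xpow_smul_val (k : ℕ) (a : AA) :
    ((PowerSeries.X (R := ℂ) ^ k • a : AA) : PowerSeries E) =
      PowerSeries.X ^ k * (a : PowerSeries E) := by
  rw [smul_val, map_pow, cP_X]

theorem exists_div {k : ℕ} {a : AA} (h : InK k a) : ∃ b : AA, (PowerSeries.X : PowerSeries ℂ) ^ k • b = a := by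
  obtain ⟨a, ha⟩ := a
  have hb : InA (PowerSeries.mk fun n => PowerSeries.coeff (n + k) a) := by
    refine ⟨fun n => ?_, fun n => ?_, fun N => ?_⟩
    · rw [PowerSeries.coeff_mk]
      exact ha.1 _
    · rw [PowerSeries.coeff_mk]
      exact (h (n + k)).mono (by omega)
    · obtain ⟨n₀, h0⟩ := ha.2.2 (N + k)
      refine ⟨n₀, fun n hn => ?_⟩
      rw [PowerSeries.coeff_mk]
      exact (h0 (n + k) (by omega)).mono (by omega)
  refine ⟨⟨_, hb⟩, ?_⟩
  apply Subtype.ext
  rw [Xpow_smul_val]
  refine PowerSeries.ext fun n => ?_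
  rw [PowerSeries.coeff_X_pow_mul']
  split_ifs with hn
  · rw [PowerSeries.coeff_mk, Nat.sub_add_cancel hn]
  · have h1 := h n
    have e : n + 1 - k = 0 := by omega
    rw [e] at h1
    exact h1.eq_zero.symm

theorem InK_smul (k : ℕ) (a : AA) : InK k (((PowerSeries.X : PowerSeries ℂ) ^ k • a : AA) : PowerSeries E) := by
  intro n
  rw [Xpow_smul_val, PowerSeries.coeff_X_pow_mul']
  split_ifs with hn
  · exact (a.2.2.1 (n - k)).mono (by omega)
  · exact InG.zero _

theorem mem_pow_smul {k : ℕ} {a : AA} :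
    a ∈ (Ideal.span {(PowerSeries.X : PowerSeries ℂ)} ^ k • ⊤ : Submodule (PowerSeries ℂ) AA) ↔
      InK k a := by
  rw [Ideal.span_singleton_pow, Submodule.ideal_span_singleton_smul,
    Submodule.mem_smul_pointwise_iff_exists]
  constructor
  · rintro ⟨b, -, rfl⟩
    exact InK_smul k b
  · intro h
    obtain ⟨b, hb⟩ := exists_div h
    exact ⟨b, trivial, hb⟩

theorem InK.sub_iff {k : ℕ} {a b : AA} :
    a ≡ b [SMOD (Ideal.span {(PowerSeries.X : PowerSeries ℂ)} ^ k • ⊤ :
      Submodule (PowerSeries ℂ) AA)] ↔ InK k ((a : PowerSeries E) - b) := by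
  rw [SModEq.sub_mem, mem_pow_smul]
  rfl

theorem complete : IsAdicComplete (Ideal.span {(PowerSeries.X : PowerSeries ℂ)}) AA where
  haus' := by
    intro a ha
    apply Subtype.ext
    refine PowerSeries.ext fun n => ?_
    have h := InK.sub_iff.1 (ha (n + 1)) n
    have e : n + 1 - (n + 1) = 0 := by omega
    rw [e] at h
    have h1 := h.eq_zero
    simpa using h1
  prec' := by
    intro f hf
    have hf' : ∀ {m n : ℕ}, m ≤ n → ∀ k, InG (k + 1 - m)
        (PowerSeries.coeff k (f m : PowerSeries E) - PowerSeries.coeff k (f n : PowerSeries E)) := by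
      intro m n hmn k
      have h := InK.sub_iff.1 (hf hmn) k
      rw [map_sub] at h
      exact h
    have hL : InA (PowerSeries.mk fun n => PowerSeries.coeff n (f (n + 1) : PowerSeries E)) := by
      refine ⟨fun n => ?_, fun n => ?_, fun N => ?_⟩
      · rw [PowerSeries.coeff_mk]
        exact (f (n + 1)).2.1 n
      · rw [PowerSeries.coeff_mk]
        exact (f (n + 1)).2.2.1 n
      · obtain ⟨n₀, h0⟩ := (f N).2.2.2 N
        refine ⟨max n₀ N, fun n hn => ?_⟩
        rw [PowerSeries.coeff_mk]
        have h1 := hf' (show N ≤ n + 1 by omega) n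
        have h2 := h0 n (by omega)
        have h3 := h2.add h1.neg
        have e : PowerSeries.coeff n (f N : PowerSeries E) +
            -(PowerSeries.coeff n (f N : PowerSeries E) -
              PowerSeries.coeff n (f (n + 1) : PowerSeries E)) =
            PowerSeries.coeff n (f (n + 1) : PowerSeries E) := by abel
        rw [e] at h3
        exact h3
    refine ⟨⟨_, hL⟩, fun m => ?_⟩
    rw [InK.sub_iff]
    intro n
    rw [map_sub, PowerSeries.coeff_mk]
    rcases Nat.lt_or_ge (n + 1) m with h | h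
    · have h1 := hf' h.le n
      have e : n + 1 - (n + 1) = 0 := by omega
      rw [e] at h1
      have h2 := h1.neg.eq_zero
      have e2 : PowerSeries.coeff n (f m : PowerSeries E) -
          PowerSeries.coeff n (f (n + 1) : PowerSeries E) = 0 := by
        rw [← h2]
        abel
      rw [e2]
      exact InG.zero _
    · exact hf' h n

theorem torsion_free (a : AA) (h : PowerSeries.X (R := ℂ) • a = 0) : a = 0 := by
  apply Subtype.ext
  have h1 := congrArg Subtype.val h
  rw [X_smul_val] at h1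
  refine PowerSeries.ext fun n => ?_
  have h2 := congrArg (PowerSeries.coeff (n + 1)) h1
  rw [PowerSeries.coeff_succ_X_mul] at h2
  exact h2

theorem Sym_mul {a b : PowerSeries E} (ha : InA a) (hb : InA b) :
    Sym (a * b) = Sym a * Sym b := by
  refine PowerSeries.ext fun n => ?_
  rw [coeff_Sym, PowerSeries.coeff_mul, PowerSeries.coeff_mul, map_sum]
  refine Finset.sum_congr rfl fun p hp => ?_
  rw [Finset.HasAntidiagonal.mem_antidiagonal] at hp
  rw [coeff_Sym, coeff_Sym, ← hp, sym_mul (ha.1 _) (ha.2.1 _) (hb.1 _) (hb.2.1 _)]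

theorem exists_poly {a : PowerSeries E} (ha : InA a) :
    ∃ p : R[X], (p : PowerSeries R) = Sym a := by
  obtain ⟨n₀, h0⟩ := ha.2.2 1
  refine ⟨PowerSeries.trunc n₀ (Sym a), ?_⟩
  refine PowerSeries.ext fun n => ?_
  rw [Polynomial.coeff_coe, PowerSeries.coeff_trunc]
  split_ifs with h
  · rfl
  · rw [coeff_Sym, sym_eq_zero]
    exact (h0 n (by omega)).mono (by omega)

/-- the polynomial of symbols -/
noncomputable def poly (a : AA) : R[X] := (exists_poly a.2).choose

theorem poly_spec (a : AA) : (poly a : PowerSeries R) = Sym a := (exists_poly a.2).choose_spec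

theorem poly_unique {a : AA} {p : R[X]} (h : (p : PowerSeries R) = Sym a) : p = poly a := by
  apply Polynomial.coe_injective
  rw [h, poly_spec]

theorem poly_add (a b : AA) : poly (a + b) = poly a + poly b := by
  symm
  apply poly_unique
  rw [Polynomial.coe_add, poly_spec, poly_spec]
  exact (Sym_add _ _).symm

theorem poly_mul (a b : AA) : poly (a * b) = poly a * poly b := by
  symm
  apply poly_unique
  rw [Polynomial.coe_mul, poly_spec, poly_spec]
  exact (Sym_mul a.2 b.2).symm

theorem poly_cP (c : PowerSeries ℂ) :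
    poly (algebraMap (PowerSeries ℂ) AA c) =
      C (MvPolynomial.C (PowerSeries.constantCoeff c)) := by
  symm
  apply poly_unique
  refine PowerSeries.ext fun n => ?_
  rw [coeff_Sym]
  change _ = sym n (PowerSeries.coeff n (cP c))
  simp only [cP, PowerSeries.coeff_map]
  rw [sym_cE, Polynomial.coeff_coe, coeff_C]
  split_ifs with h
  · subst h
    simp
  · rfl

theorem poly_one : poly 1 = 1 := by
  have h := poly_cP 1
  rw [map_one] at h
  rw [h]
  simp

theorem poly_zero : poly 0 = 0 := by
  have h := poly_cP 0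
  rw [map_zero] at h
  rw [h]
  simp

/-- the principal symbol -/
noncomputable def piR : AA →+* R where
  toFun a := (poly a).eval 1
  map_one' := by rw [poly_one, eval_one]
  map_mul' a b := by rw [poly_mul, eval_mul]
  map_zero' := by rw [poly_zero, eval_zero]
  map_add' a b := by rw [poly_add, eval_add]

theorem piR_apply (a : AA) : piR a = (poly a).eval 1 := rfl

theorem coeff_poly (a : AA) (n : ℕ) :
    (poly a).coeff n = sym n (PowerSeries.coeff n (a : PowerSeries E)) := by
  rw [← Polynomial.coeff_coe, poly_spec, coeff_Sym]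

theorem piR_sum (a : AA) : piR a = ∑ n ∈ (poly a).support,
    sym n (PowerSeries.coeff n (a : PowerSeries E)) := by
  rw [piR_apply, eval_eq_sum, Polynomial.sum]
  refine Finset.sum_congr rfl fun n _ => ?_
  rw [one_pow, mul_one, coeff_poly]

theorem coeff_sym {n : ℕ} {f : E} (hf : InD f) (hf' : InG (n + 1) f) (c : ℕ) :
    MvPolynomial.coeff (ex c n) (sym n f) = (co f (c - n)).coeff n := by
  classical
  rw [sym_sum, MvPolynomial.coeff_sum]
  by_cases hc : (c : ℤ) - n ∈ su f
  · rw [Finset.sum_eq_single_of_mem _ hc]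
    · rw [coeff_mo, if_pos]
      constructor <;> omega
    · intro j _ hj
      rw [coeff_mo]
      split_ifs with h
      · by_contra h1
        have h2 := nonneg_coeff hf hf' h1
        omega
      · rfl
  · rw [notMem_su hc, coeff_zero]
    refine Finset.sum_eq_zero fun j hj => ?_
    rw [coeff_mo]
    split_ifs with h
    · by_contra h1
      have h2 := nonneg_coeff hf hf' h1
      apply hc
      have : (c : ℤ) - n = j := by omega
      rw [this]
      exact hj
    · rfl

theorem coeff_piR (a : AA) (c n : ℕ) :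
    MvPolynomial.coeff (ex c n) (piR a) =
      (co (PowerSeries.coeff n (a : PowerSeries E)) (c - n)).coeff n := by
  classical
  rw [piR_sum, MvPolynomial.coeff_sum]
  rw [← coeff_sym (a.2.1 n) (a.2.2.1 n)]
  by_cases hn : n ∈ (poly a).support
  · rw [Finset.sum_eq_single_of_mem _ hn]
    intro m _ hm
    exact coeff_sym_ne hm _ _
  · rw [Polynomial.notMem_support_iff, coeff_poly] at hn
    rw [hn, MvPolynomial.coeff_zero]
    refine Finset.sum_eq_zero fun m hm => ?_
    by_cases h : m = n
    · subst h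
      rw [hn, MvPolynomial.coeff_zero]
    · exact coeff_sym_ne h _ _

theorem ker_piR {a : AA} (h : piR a = 0) : ∃ b : AA, (PowerSeries.X : PowerSeries ℂ) • b = a := by
  have h1 : InK 1 (a : PowerSeries E) := by
    intro n
    have e : n + 1 - 1 = n := by omega
    rw [e]
    intro j
    by_cases hz : co (PowerSeries.coeff n (a : PowerSeries E)) j = 0
    · rw [hz, degree_zero]
      exact WithBot.bot_lt_coe _
    have h2 := nonneg_of (a.2.1 n) (a.2.2.1 n) hz
    have h3 := coeff_piR a (j + n).toNat n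
    rw [h, MvPolynomial.coeff_zero] at h3
    have e2 : (((j + n).toNat : ℕ) : ℤ) - n = j := by omega
    rw [e2] at h3
    have h4 := a.2.2.1 n j
    rw [degree_lt_iff_coeff_zero] at h4 ⊢
    intro m hm
    rcases Nat.lt_or_ge n m with h5 | h5
    · exact h4 m h5
    · have : m = n := by omega
      rw [this]
      exact h3.symm
  obtain ⟨b, hb⟩ := exists_div h1
  rw [pow_one] at hb
  exact ⟨b, hb⟩

theorem piR_X_smul (b : AA) : piR ((PowerSeries.X : PowerSeries ℂ) • b) = 0 := by
  rw [Algebra.smul_def, map_mul, piR_apply (algebraMap _ _ _), poly_cP]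
  simp

theorem piR_smul (c : PowerSeries ℂ) (b : AA) :
    piR (c • b) = MvPolynomial.C (PowerSeries.constantCoeff c) * piR b := by
  rw [Algebra.smul_def, map_mul, piR_apply (algebraMap _ _ _), poly_cP]
  simp

/-! ### Elements concentrated in one power of `ħ` -/

theorem InA_monomial {n : ℕ} {f : E} (hf : InD f) (hf' : InG (n + 1) f) :
    InA (PowerSeries.monomial n f) := by
  classical
  refine ⟨fun m => ?_, fun m => ?_, fun N => ⟨n + 1, fun m hm => ?_⟩⟩
  · rw [PowerSeries.coeff_monomial]
    split_ifs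
    · exact hf
    · exact InD.zero
  · rw [PowerSeries.coeff_monomial]
    split_ifs with h
    · rw [h]
      exact hf'
    · exact InG.zero _
  · rw [PowerSeries.coeff_monomial, if_neg (by omega)]
    exact InG.zero _

/-- the element `ħ ^ n f` -/
noncomputable def el (n : ℕ) (f : E) (hf : InD f) (hf' : InG (n + 1) f) : AA :=
  ⟨PowerSeries.monomial n f, InA_monomial hf hf'⟩

theorem piR_el {n : ℕ} {f : E} (hf : InD f) (hf' : InG (n + 1) f) :
    piR (el n f hf hf') = sym n f := by
  have h : (Polynomial.monomial n (sym n f) : R[X]) = poly (el n f hf hf') := by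
    apply poly_unique
    refine PowerSeries.ext fun m => ?_
    rw [coeff_Sym, Polynomial.coeff_coe, Polynomial.coeff_monomial]
    change _ = sym m (PowerSeries.coeff m (PowerSeries.monomial n f))
    rw [PowerSeries.coeff_monomial]
    by_cases hmn : n = m
    · rw [if_pos hmn, if_pos hmn.symm, hmn]
    · rw [if_neg hmn, if_neg (Ne.symm hmn), map_zero]
  rw [piR_apply, ← h, Polynomial.eval_monomial, one_pow, mul_one]

theorem InD_sg {j : ℤ} {p : ℂ[X]} (h : ∀ i : ℤ, i ∉ S → i - j ∈ S → p.eval (i : ℂ) = 0) :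
    InD (sg j p) := by
  intro k i h1 h2
  rw [co_sg]
  split_ifs with hk
  · subst hk
    exact h i h1 h2
  · simp

/-- every monomial is a principal symbol -/
theorem exists_lift_mo (a b : ℕ) (c : ℂ) :
    ∃ x : AA, piR x = mo a b c := by
  classical
  obtain ⟨Z, hZ, hcard⟩ : ∃ Z : Finset ℤ, (∀ i : ℤ, i ∉ S → i - ((a : ℤ) - b) ∈ S → i ∈ Z) ∧
      Z.card ≤ b := by
    rcases Nat.lt_or_ge a b with hab | hab
    · refine ⟨T (b - a), fun i h1 h2 => ?_, ?_⟩
      · apply T_complete h1
        have e : i - (-((b - a : ℕ) : ℤ)) = i - ((a : ℤ) - b) := by omega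
        rw [e]
        exact h2
      · rw [card_T]
        omega
    · refine ⟨∅, fun i h1 h2 => ?_, by simp⟩
      simp only [S, Set.mem_ofPred_eq] at h1 h2
      omega
  set q : ℂ[X] := (∏ i ∈ Z, (X - C (i : ℂ))) * X ^ (b - Z.card) with hq
  have hm1 : (∏ i ∈ Z, (X - C (i : ℂ))).Monic := monic_prod_of_monic _ _ fun i _ => monic_X_sub_C _
  have hd1 : (∏ i ∈ Z, (X - C (i : ℂ))).natDegree = Z.card := by
    rw [natDegree_prod_of_monic _ _ fun i _ => monic_X_sub_C _,
      Finset.sum_congr rfl fun i _ => natDegree_X_sub_C _]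
    simp
  have hm : q.Monic := hm1.mul (monic_X_pow _)
  have hd : q.natDegree = b := by
    rw [hq, hm1.natDegree_mul (monic_X_pow _), hd1, natDegree_X_pow]
    omega
  have hD : InD (sg ((a : ℤ) - b) (C c * q)) := by
    apply InD_sg
    intro i h1 h2
    rw [eval_mul, hq, eval_mul, eval_prod]
    have h3 : ∏ j ∈ Z, eval (i : ℂ) (X - C (j : ℂ)) = 0 := by
      apply Finset.prod_eq_zero (hZ i h1 h2)
      simp
    rw [h3]
    ring
  have hG : InG (b + 1) (sg ((a : ℤ) - b) (C c * q)) := by
    apply InG_sg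
    refine lt_of_le_of_lt (natDegree_C_mul_le _ _) ?_
    omega
  refine ⟨el b _ hD hG, ?_⟩
  rw [piR_el, sym_sg, coeff_C_mul]
  have e1 : q.coeff b = 1 := by
    rw [← hd]
    exact hm
  have e2 : ((a : ℤ) - b + b).toNat = a := by omega
  rw [e1, e2, mul_one]

theorem piR_surjective : Function.Surjective piR := by
  classical
  intro f
  have h : ∀ s : Finset (Fin 2 →₀ ℕ),
      ∃ x : AA, piR x = ∑ m ∈ s, MvPolynomial.monomial m (MvPolynomial.coeff m f) := by
    intro s
    induction s using Finset.induction_on with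
    | empty => exact ⟨0, by simp⟩
    | insert m s hm ih =>
      obtain ⟨x, hx⟩ := ih
      obtain ⟨y, hy⟩ := exists_lift_mo (m 0) (m 1) (MvPolynomial.coeff m f)
      refine ⟨y + x, ?_⟩
      rw [Finset.sum_insert hm, map_add, hx, hy, mo, ex_eta]
  obtain ⟨x, hx⟩ := h f.support
  exact ⟨x, by rw [hx]; exact MvPolynomial.support_sum_monomial_coeff f⟩

theorem sym_zero_pb (f g : E) : pb (sym 0 f) (sym 0 g) = 0 := by
  rw [sym_sum, sym_sum, map_sum pb, LinearMap.sum_apply]
  refine Finset.sum_eq_zero fun j _ => ?_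
  rw [map_sum]
  refine Finset.sum_eq_zero fun k _ => ?_
  rw [pb_mo]
  simp [mo_zero]

theorem bracket_compat (a b : AA) : ∃ c : AA,
    a * b - b * a = (PowerSeries.X : PowerSeries ℂ) • c ∧ piR c = pb (piR a) (piR b) := by
  have hK : InK 1 ((a * b - b * a : AA) : PowerSeries E) := by
    intro n
    change InG _ (PowerSeries.coeff n ((a : PowerSeries E) * (b : PowerSeries E) -
      (b : PowerSeries E) * (a : PowerSeries E)))
    rw [coeff_comm]
    refine InG.sum fun x hx => ?_
    rw [Finset.HasAntidiagonal.mem_antidiagonal] at hx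
    have h := (a.2.2.1 x.1).comm (b.2.2.1 x.2)
    rw [hx] at h
    exact h
  obtain ⟨c, hc⟩ := exists_div hK
  rw [pow_one] at hc
  refine ⟨c, hc.symm, ?_⟩
  have hcoe : ((a : PowerSeries E) * (b : PowerSeries E) - (b : PowerSeries E) *
      (a : PowerSeries E)) = PowerSeries.X * (c : PowerSeries E) := by
    rw [← X_smul_val, hc]
    rfl
  have key : X * poly c = bb (poly a) (poly b) := by
    ext1 k
    rw [coeff_bb]
    rcases k with _ | k
    · rw [mul_coeff_zero, coeff_X_zero, zero_mul]
      rw [Finset.HasAntidiagonal.antidiagonal_zero, Finset.sum_singleton]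
      rw [coeff_poly, coeff_poly, sym_zero_pb]
    · rw [coeff_X_mul, coeff_poly]
      have h1 := congrArg (PowerSeries.coeff (k + 1)) hcoe
      rw [PowerSeries.coeff_succ_X_mul, coeff_comm] at h1
      rw [← h1, map_sum]
      refine Finset.sum_congr rfl fun x hx => ?_
      rw [Finset.HasAntidiagonal.mem_antidiagonal] at hx
      rw [sym_comm (a.2.1 _) (a.2.2.1 _) (b.2.1 _) (b.2.2.1 _) hx.symm, coeff_poly, coeff_poly]
  rw [piR_apply, piR_apply, piR_apply, ← eval_bb, ← key, eval_mul, eval_X, one_mul]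

theorem quantization : IsDeformationQuantization PR piR where
  complete := complete
  torsionFree := torsion_free
  surjective := piR_surjective
  ker := by
    intro a
    constructor
    · intro h
      obtain ⟨b, hb⟩ := ker_piR h
      exact ⟨b, hb.symm⟩
    · rintro ⟨b, rfl⟩
      exact piR_X_smul b
  linear := by
    intro c a
    rw [piR_smul, PowerSeries.constantCoeff_C, MvPolynomial.smul_eq_C_mul]
  bracket := bracket_compat

end Pool.Agent.TH212.W
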